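import Mathlib

set_option autoImplicit false

namespace Pool.B595.Arc

open Relation

/-- Finite connected graph data with a group of automorphisms such that no vertex is adjacent to a
different vertex of its orbit. -/
structure Obj (V : Type) where
  adj : V → V → Prop
  refl : ∀ x, adj x x
  symm : ∀ x y, adj x y → adj y x
  H : Subgroup (Equiv.Perm V)
  hadj : ∀ h ∈ H, ∀ x y, adj x y → adj (h x) (h y)
  free : ∀ h ∈ H, ∀ x, adj x (h x) → h = 1
  conn : ∀ x y, ReflTransGen adj x y

/-- connected inside the set `S` -/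
def CIn {V : Type} (G : Obj V) (S : Set V) : V → V → Prop :=
  ReflTransGen (fun a b => a ∈ S ∧ b ∈ S ∧ G.adj a b)

/-- `l` is a walk from `x` to `y` -/
def Wk {V : Type} (G : Obj V) (l : List V) (x y : V) : Prop :=
  l.IsChain G.adj ∧ l.head? = some x ∧ l.getLast? = some y

/-- the walk meets every orbit -/
def Exh {V : Type} (G : Obj V) (l : List V) : Prop :=
  ∀ v, ∃ h ∈ G.H, h v ∈ l

/-- `Ov r f l m`: the `r`-walk `l` upstairs lies lazily over the sequence `m`. -/
inductive Ov {W V : Type} (r : W → W → Prop) (f : W → V) : List W → List V → Prop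
  | single (b : W) : Ov r f [b] [f b]
  | stay (b c : W) (l : List W) (m : List V) : r b c → f b = f c → Ov r f (c :: l) m →
      Ov r f (b :: c :: l) m
  | step (b c : W) (l : List W) (m : List V) : r b c → Ov r f (c :: l) m →
      Ov r f (b :: c :: l) (f b :: m)

structure Mor {W V : Type} (K : Obj W) (G : Obj V) (f : W → V) : Prop where
  hom : ∀ x y, K.adj x y → G.adj (f x) (f y)
  edge : ∀ x y, G.adj x y → ∃ x' y', K.adj x' y' ∧ f x' = x ∧ f y' = y
  eq1 : ∀ h ∈ K.H, ∃ k ∈ G.H, ∀ x, f (h x) = k (f x)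
  eq2 : ∀ k ∈ G.H, ∃ h ∈ K.H, ∀ x, f (h x) = k (f x)
  mon : ∀ x y, f x = f y → ∃ k ∈ K.H, (∀ z, f (k z) = f z) ∧ CIn K (f ⁻¹' {f x}) x (k y)
  lift : ∀ x y (m : List V), Wk G m (f x) (f y) → Exh G m → ∃ l, Wk K l x y ∧ Ov K.adj f l m

end Pool.B595.Arc
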