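import Pool.Agent.B595.Arc.Defs

set_option autoImplicit false

namespace Pool.B595.Arc

open Relation

def Thr {V : ℕ → Type} (p : ∀ n, V (n + 1) → V n) : Type :=
  {x : ∀ n, V n // ∀ n, p n (x (n + 1)) = x n}

structure Tower where
  V : ℕ → Type
  fin : ∀ n, Finite (V n)
  ne : ∀ n, Nonempty (V n)
  G : ∀ n, Obj (V n)
  p : ∀ n, V (n + 1) → V n
  mor : ∀ n, Mor (G (n + 1)) (G n) (p n)
  con : ∀ n x y z, (G (n + 1)).adj x y → (G (n + 1)).adj y z → (G n).adj (p n x) (p n z)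
  tri : ∀ n x y z, (G n).adj x y → (G n).adj y z → (G n).adj x z → x = y ∨ y = z ∨ x = z
  zero : Subsingleton (V 0)
  ext : ∀ (n N : ℕ) (W : Type), Finite W → ∀ (K : Obj W) (f : W → V n), Mor K (G n) f →
    ∃ m, N < m ∧ n < m ∧ ∃ g : V m → W, Mor (G m) K g ∧
      ∀ x : Thr p, f (g (x.1 m)) = x.1 n

structure IsLim {V : ℕ → Type} (adj : ∀ n, V n → V n → Prop) (p : ∀ n, V (n + 1) → V n)
    {X : Type} [MetricSpace X] (q : Thr p → X) : Prop where
  surj : Function.Surjective q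
  near : ∀ n, ∃ ε > 0, ∀ x y : Thr p, dist (q x) (q y) < ε → adj n (x.1 n) (y.1 n)
  small : ∀ ε > 0, ∃ n, ∀ x y : Thr p, adj n (x.1 n) (y.1 n) → dist (q x) (q y) < ε

end Pool.B595.Arc
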