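import Pool.Agent.B595.Arc.Defs

set_option autoImplicit false


namespace Pool.B595.Arc

open Relation

/-! TARGET: prove this (auxiliary lemmas allowed before it) -/

/-- signed area -/
noncomputable def ctG (p q z : Circle) : ℝ :=
  ((q : ℂ).re - (p : ℂ).re) * ((z : ℂ).im - (p : ℂ).im) -
    ((q : ℂ).im - (p : ℂ).im) * ((z : ℂ).re - (p : ℂ).re)

theorem ct_unit (p : Circle) : (p : ℂ).re ^ 2 + (p : ℂ).im ^ 2 = 1 := by
  have h := Circle.normSq_coe p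
  rw [Complex.normSq_apply] at h
  linarith

theorem ct_ext {p q : Circle} (h1 : (p : ℂ).re = (q : ℂ).re) (h2 : (p : ℂ).im = (q : ℂ).im) :
    p = q := Circle.ext (Complex.ext h1 h2)

theorem ct_ne (p q z : Circle) (hpq : p ≠ q) (hpz : z ≠ p) (hqz : z ≠ q) : ctG p q z ≠ 0 := by
  intro hg
  unfold ctG at hg
  have hp := ct_unit p
  have hq := ct_unit q
  have hz := ct_unit z
  set p1 := (p : ℂ).re with hp1
  set p2 := (p : ℂ).im with hp2
  obtain ⟨u1, hu1⟩ : ∃ u1, (q : ℂ).re = p1 + u1 := ⟨(q : ℂ).re - p1, by ring⟩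
  obtain ⟨u2, hu2⟩ : ∃ u2, (q : ℂ).im = p2 + u2 := ⟨(q : ℂ).im - p2, by ring⟩
  obtain ⟨v1, hv1⟩ : ∃ v1, (z : ℂ).re = p1 + v1 := ⟨(z : ℂ).re - p1, by ring⟩
  obtain ⟨v2, hv2⟩ : ∃ v2, (z : ℂ).im = p2 + v2 := ⟨(z : ℂ).im - p2, by ring⟩
  rw [hu1, hu2, hv1, hv2] at hg
  rw [hu1, hu2] at hq
  rw [hv1, hv2] at hz
  have hu0 : 0 < u1 ^ 2 + u2 ^ 2 := by
    rcases eq_or_ne u1 0 with h1 | h1
    · rcases eq_or_ne u2 0 with h2 | h2
      · exfalso
        apply hpq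
        apply ct_ext
        · rw [hu1, h1, add_zero]
        · rw [hu2, h2, add_zero]
      · positivity
    · positivity
  have e1 : (u1 ^ 2 + u2 ^ 2) * (p1 * v1 + p2 * v2) = (u1 * v1 + u2 * v2) * (p1 * u1 + p2 * u2) := by
    linear_combination (p2 * u1 - p1 * u2) * hg
  have e2 : 2 * (p1 * u1 + p2 * u2) = -(u1 ^ 2 + u2 ^ 2) := by linarith
  have e3 : 2 * (p1 * v1 + p2 * v2) = -(v1 ^ 2 + v2 ^ 2) := by linarith
  have e4 : (u1 ^ 2 + u2 ^ 2) * (v1 ^ 2 + v2 ^ 2 - (u1 * v1 + u2 * v2)) = 0 := by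
    linear_combination (-2) * e1 + (u1 ^ 2 + u2 ^ 2) * e3 - (u1 * v1 + u2 * v2) * e2
  have e5 : v1 ^ 2 + v2 ^ 2 - (u1 * v1 + u2 * v2) = 0 := by
    rcases mul_eq_zero.mp e4 with h | h
    · exact absurd h hu0.ne'
    · exact h
  have e6 : (v1 ^ 2 + v2 ^ 2) * ((v1 - u1) ^ 2 + (v2 - u2) ^ 2) = 0 := by
    have e7 : (v1 ^ 2 + v2 ^ 2) * ((v1 - u1) ^ 2 + (v2 - u2) ^ 2) =
      (v1 ^ 2 + v2 ^ 2 - (u1 * v1 + u2 * v2)) ^ 2 +
        ((p1 + u1 - p1) * (p2 + v2 - p2) - (p2 + u2 - p2) * (p1 + v1 - p1)) ^ 2 := by ring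
    rw [e7, e5, hg]; ring
  rcases mul_eq_zero.mp e6 with h | h
  · apply hpz
    obtain ⟨h1', h2'⟩ := (add_eq_zero_iff_of_nonneg (sq_nonneg _) (sq_nonneg _)).mp h
    have h1 : v1 = 0 := pow_eq_zero_iff two_ne_zero |>.mp h1'
    have h2 : v2 = 0 := pow_eq_zero_iff two_ne_zero |>.mp h2'
    apply ct_ext
    · rw [hv1, h1, add_zero]
    · rw [hv2, h2, add_zero]
  · apply hqz
    obtain ⟨h1', h2'⟩ := (add_eq_zero_iff_of_nonneg (sq_nonneg _) (sq_nonneg _)).mp h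
    have h1 : v1 - u1 = 0 := pow_eq_zero_iff two_ne_zero |>.mp h1'
    have h2 : v2 - u2 = 0 := pow_eq_zero_iff two_ne_zero |>.mp h2'
    apply ct_ext
    · rw [hv1, hu1]; linarith
    · rw [hv2, hu2]; linarith

theorem ct_cont (p q : Circle) : Continuous (ctG p q) := by
  unfold ctG
  have h1 : Continuous fun z : Circle => (z : ℂ).re := Complex.continuous_re.comp continuous_subtype_val
  have h2 : Continuous fun z : Circle => (z : ℂ).im := Complex.continuous_im.comp continuous_subtype_val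
  fun_prop

theorem ct_side {p q x a : Circle} {A : Set Circle} (hA : IsPreconnected A) (hpq : p ≠ q)
    (hx : x ∈ A) (ha : a ∈ A) (hp : p ∉ A) (hq : q ∉ A) : 0 < ctG p q x * ctG p q a := by
  have hne : ∀ z ∈ A, ctG p q z ≠ 0 := by
    intro z hz
    exact ct_ne p q z hpq (fun h => hp (h ▸ hz)) (fun h => hq (h ▸ hz))
  by_contra hneg
  push Not at hneg
  have h1 := hne x hx
  have h2 := hne a ha
  have h3 : (ctG p q x ≤ 0 ∧ 0 ≤ ctG p q a) ∨ (ctG p q a ≤ 0 ∧ 0 ≤ ctG p q x) := by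
    rcases mul_nonpos_iff.mp hneg with ⟨h, h'⟩ | ⟨h, h'⟩
    · exact Or.inr ⟨h', h⟩
    · exact Or.inl ⟨h, h'⟩
  rcases h3 with h | h
  · obtain ⟨z, hz, hz0⟩ := hA.intermediate_value hx ha (ct_cont p q).continuousOn h
    exact hne z hz hz0
  · obtain ⟨z, hz, hz0⟩ := hA.intermediate_value ha hx (ct_cont p q).continuousOn h
    exact hne z hz hz0

theorem ct_inner_lt {p q : Circle} (h : p ≠ q) :
    (p : ℂ).re * (q : ℂ).re + (p : ℂ).im * (q : ℂ).im < 1 := by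
  have hp := ct_unit p
  have hq := ct_unit q
  by_contra hneg
  push Not at hneg
  apply h
  apply ct_ext
  · nlinarith [sq_nonneg ((p : ℂ).re - (q : ℂ).re), sq_nonneg ((p : ℂ).im - (q : ℂ).im)]
  · nlinarith [sq_nonneg ((p : ℂ).re - (q : ℂ).re), sq_nonneg ((p : ℂ).im - (q : ℂ).im)]

theorem circle_no_triod (x : Circle) (a : Fin 3 → Circle) (A : Fin 3 → Set Circle)
    (hA : ∀ i, IsPreconnected (A i)) (hx : ∀ i, x ∈ A i) (ha : ∀ i, a i ∈ A i)
    (hn : ∀ i j, i ≠ j → a j ∉ A i) : False := by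
  have hne : ∀ i j, i ≠ j → a i ≠ a j := by
    intro i j hij h
    exact hn i j hij (h ▸ ha i)
  have s0 := ct_side (hA 0) (hne 1 2 (by decide)) (hx 0) (ha 0) (hn 0 1 (by decide))
    (hn 0 2 (by decide))
  have s1 := ct_side (hA 1) (hne 2 0 (by decide)) (hx 1) (ha 1) (hn 1 2 (by decide))
    (hn 1 0 (by decide))
  have s2 := ct_side (hA 2) (hne 0 1 (by decide)) (hx 2) (ha 2) (hn 2 0 (by decide))
    (hn 2 1 (by decide))
  have i01 := ct_inner_lt (hne 0 1 (by decide))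
  have i02 := ct_inner_lt (hne 0 2 (by decide))
  have i12 := ct_inner_lt (hne 1 2 (by decide))
  have hux := ct_unit x
  have hu0 := ct_unit (a 0)
  have hu1 := ct_unit (a 1)
  have hu2 := ct_unit (a 2)
  have hD1 : ctG (a 2) (a 0) (a 1) = ctG (a 1) (a 2) (a 0) := by unfold ctG; ring
  have hD2 : ctG (a 0) (a 1) (a 2) = ctG (a 1) (a 2) (a 0) := by unfold ctG; ring
  rw [hD1] at s1
  rw [hD2] at s2
  set D := ctG (a 1) (a 2) (a 0) with hD
  set f0 := ctG (a 1) (a 2) x with hf0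
  set f1 := ctG (a 2) (a 0) x with hf1
  set f2 := ctG (a 0) (a 1) x with hf2
  have hsum : f0 + f1 + f2 = D := by
    rw [hf0, hf1, hf2, hD]; unfold ctG; ring
  have hre : f0 * (a 0 : ℂ).re + f1 * (a 1 : ℂ).re + f2 * (a 2 : ℂ).re = D * (x : ℂ).re := by
    rw [hf0, hf1, hf2, hD]; unfold ctG; ring
  have him : f0 * (a 0 : ℂ).im + f1 * (a 1 : ℂ).im + f2 * (a 2 : ℂ).im = D * (x : ℂ).im := by
    rw [hf0, hf1, hf2, hD]; unfold ctG; ring
  have hDne : D ≠ 0 := by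
    intro h
    rw [h, mul_zero] at s0
    exact lt_irrefl _ s0
  have hD2pos : 0 < D * D := mul_self_pos.mpr hDne
  have p01 : 0 < f0 * f1 := by
    have := mul_pos s0 s1
    have h2 : f0 * D * (f1 * D) = (f0 * f1) * (D * D) := by ring
    rw [h2] at this
    exact (pos_iff_pos_of_mul_pos this).mpr hD2pos
  have p02 : 0 < f0 * f2 := by
    have := mul_pos s0 s2
    have h2 : f0 * D * (f2 * D) = (f0 * f2) * (D * D) := by ring
    rw [h2] at this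
    exact (pos_iff_pos_of_mul_pos this).mpr hD2pos
  have p12 : 0 < f1 * f2 := by
    have := mul_pos s1 s2
    have h2 : f1 * D * (f2 * D) = (f1 * f2) * (D * D) := by ring
    rw [h2] at this
    exact (pos_iff_pos_of_mul_pos this).mpr hD2pos
  have q01 := mul_pos p01 (sub_pos.mpr i01)
  have q02 := mul_pos p02 (sub_pos.mpr i02)
  have q12 := mul_pos p12 (sub_pos.mpr i12)
  have key : f0 * f1 * (1 - ((a 0 : ℂ).re * (a 1 : ℂ).re + (a 0 : ℂ).im * (a 1 : ℂ).im)) +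
      f0 * f2 * (1 - ((a 0 : ℂ).re * (a 2 : ℂ).re + (a 0 : ℂ).im * (a 2 : ℂ).im)) +
      f1 * f2 * (1 - ((a 1 : ℂ).re * (a 2 : ℂ).re + (a 1 : ℂ).im * (a 2 : ℂ).im)) = 0 := by
    have e1 : (f0 + f1 + f2) ^ 2 = (f0 * (a 0 : ℂ).re + f1 * (a 1 : ℂ).re + f2 * (a 2 : ℂ).re) ^ 2 +
        (f0 * (a 0 : ℂ).im + f1 * (a 1 : ℂ).im + f2 * (a 2 : ℂ).im) ^ 2 := by
      rw [hsum, hre, him]
      linear_combination (-D ^ 2) * hux
    linear_combination (1 / 2) * e1 + (1 / 2) * (f0 ^ 2 * hu0 + f1 ^ 2 * hu1 + f2 ^ 2 * hu2)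
  linarith

end Pool.B595.Arc
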