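import Pool.Agent.B595.Arc.Defs

set_option autoImplicit false


namespace Pool.B595.Arc

open Relation

/-! TARGET: prove this (auxiliary lemmas allowed before it) -/

theorem homeo_of_rel_aux {X : Type} [MetricSpace X] [CompactSpace X] (R : ℕ → X → X → Prop)
    (anti : ∀ i x y, R (i + 1) x y → R i x y)
    (ful1 : ∀ i x, ∃ y, R i x y)
    (u1 : ∀ ε > 0, ∃ i, ∃ δ > 0, ∀ x y x' y', R i x y → R i x' y' → dist x x' < δ →
      dist y y' < ε) :
    ∃ h : X → X, Continuous h ∧ (∀ ε > 0, ∃ i, ∃ δ > 0, ∀ x x' y', R i x' y' → dist x x' < δ →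
      dist y' (h x) ≤ ε) := by
  have anti' : ∀ i j x y, i ≤ j → R j x y → R i x y := by
    intro i j x y hij
    induction hij with
    | refl => exact id
    | step _ ih => exact fun h => ih (anti _ _ _ h)
  choose y hy using ful1
  have hc : ∀ x, CauchySeq (fun i => y i x) := by
    intro x
    rw [Metric.cauchySeq_iff]
    intro ε hε
    obtain ⟨i, δ, hδ, H⟩ := u1 ε hε
    refine ⟨i, fun j hj k hk => ?_⟩
    exact H x _ x _ (anti' i j _ _ hj (hy j x)) (anti' i k _ _ hk (hy k x))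
      (by rw [dist_self]; exact hδ)
  choose h hh using fun x => cauchySeq_tendsto_of_complete (hc x)
  have key : ∀ ε > 0, ∃ i, ∃ δ > 0, ∀ x x' y', R i x' y' → dist x x' < δ →
      dist y' (h x) ≤ ε := by
    intro ε hε
    obtain ⟨i, δ, hδ, H⟩ := u1 ε hε
    refine ⟨i, δ, hδ, fun x x' y' hR hd => ?_⟩
    have ht : Filter.Tendsto (fun j => dist y' (y j x)) Filter.atTop (nhds (dist y' (h x))) :=
      tendsto_const_nhds.dist (hh x)
    refine le_of_tendsto ht ?_
    filter_upwards [Filter.eventually_ge_atTop i] with j hj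
    exact (H x' y' x _ hR (anti' i j _ _ hj (hy j x)) (by rw [dist_comm]; exact hd)).le
  refine ⟨h, ?_, key⟩
  rw [Metric.continuous_iff]
  intro x ε hε
  obtain ⟨i, δ, hδ, H⟩ := key (ε / 3) (by positivity)
  refine ⟨δ, hδ, fun x' hx' => ?_⟩
  have h1 := H x x' (y i x') (hy i x') (by rw [dist_comm]; exact hx')
  have h2 := H x' x' (y i x') (hy i x') (by rw [dist_self]; exact hδ)
  have h3 := dist_triangle_left (h x') (h x) (y i x')
  linarith

theorem homeo_of_rel {X : Type} [MetricSpace X] [CompactSpace X] (R : ℕ → X → X → Prop)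
    (anti : ∀ i x y, R (i + 1) x y → R i x y)
    (ful1 : ∀ i x, ∃ y, R i x y) (ful2 : ∀ i y, ∃ x, R i x y)
    (u1 : ∀ ε > 0, ∃ i, ∃ δ > 0, ∀ x y x' y', R i x y → R i x' y' → dist x x' < δ → dist y y' < ε)
    (u2 : ∀ ε > 0, ∃ i, ∃ δ > 0, ∀ x y x' y', R i x y → R i x' y' → dist y y' < δ → dist x x' < ε) :
    ∃ h : X ≃ₜ X, ∀ x y, (∀ i, R i x y) → h x = y := by
  have anti' : ∀ i j x y, i ≤ j → R j x y → R i x y := by
    intro i j x y hij
    induction hij with
    | refl => exact id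
    | step _ ih => exact fun h => ih (anti _ _ _ h)
  have anti'' : ∀ i j x y, i ≤ j → R j y x → R i y x := fun i j x y => anti' i j y x
  obtain ⟨h, hcont, hkey⟩ := homeo_of_rel_aux R anti ful1 u1
  obtain ⟨g, gcont, gkey⟩ := homeo_of_rel_aux (fun i x y => R i y x)
    (fun i x y => anti i y x) ful2 (by
      intro ε hε
      obtain ⟨i, δ, hδ, H⟩ := u2 ε hε
      exact ⟨i, δ, hδ, fun x y x' y' h1 h2 h3 => H y x y' x' h1 h2 h3⟩)
  have inv : ∀ (S : ℕ → X → X → Prop) (a b : X → X),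
      (∀ i j x y, i ≤ j → S j x y → S i x y) → (∀ i x, ∃ y, S i x y) →
      (∀ ε > 0, ∃ i, ∃ δ > 0, ∀ x x' y', S i x' y' → dist x x' < δ → dist y' (a x) ≤ ε) →
      (∀ ε > 0, ∃ i, ∃ δ > 0, ∀ x x' y', S i y' x' → dist x x' < δ → dist y' (b x) ≤ ε) →
      ∀ x, b (a x) = x := by
    intro S a b hS hful ha hb x
    refine (eq_of_forall_dist_le fun ε hε => ?_).symm
    obtain ⟨i, δ, hδ, H⟩ := hb ε hε
    obtain ⟨i2, δ2, hδ2, H2⟩ := ha (δ / 2) (by positivity)
    obtain ⟨y', hy'⟩ := hful (max i i2) x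
    have h1 := H2 x x y' (hS i2 _ _ _ (le_max_right _ _) hy') (by rw [dist_self]; exact hδ2)
    refine H (a x) y' x (hS i _ _ _ (le_max_left _ _) hy') ?_
    rw [dist_comm]
    linarith
  refine ⟨{ toFun := h, invFun := g, left_inv := ?_, right_inv := ?_,
            continuous_toFun := hcont, continuous_invFun := gcont }, ?_⟩
  · exact inv R h g anti' ful1 hkey gkey
  · exact inv (fun i x y => R i y x) g h anti'' ful2 gkey hkey
  · intro x y hxy
    refine (eq_of_forall_dist_le fun ε hε => ?_).symm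
    obtain ⟨i, δ, hδ, H⟩ := hkey ε hε
    exact H x x y (hxy i) (by rw [dist_self]; exact hδ)

end Pool.B595.Arc
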