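import Pool.Agent.B595.Arc.Defs

set_option autoImplicit false


namespace Pool.B595.Arc

open Relation

theorem Ov.of_iso {V W : Type} {G : Obj V} {K : Obj W} (e : V ≃ W)
    (hadj : ∀ x y, G.adj x y ↔ K.adj (e x) (e y)) :
    ∀ m : List W, m ≠ [] → m.IsChain K.adj → Ov G.adj e (m.map e.symm) m := by
  intro m
  induction m with
  | nil => intro h; exact absurd rfl h
  | cons v m ih =>
    intro _ hc
    cases m with
    | nil =>
      have h1 := Ov.single (r := G.adj) (f := e) (e.symm v)
      rw [e.apply_symm_apply] at h1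
      exact h1
    | cons w m =>
      rw [List.isChain_cons_cons] at hc
      have h1 := ih (List.cons_ne_nil _ _) hc.2
      have h2 : G.adj (e.symm v) (e.symm w) := by
        rw [hadj, e.apply_symm_apply, e.apply_symm_apply]
        exact hc.1
      have h3 := Ov.step (r := G.adj) (f := e) (e.symm v) (e.symm w) (m.map e.symm) (w :: m) h2 h1
      rw [e.apply_symm_apply] at h3
      exact h3

theorem Mor.of_iso {V W : Type} (G : Obj V) (K : Obj W) (e : V ≃ W)
    (hadj : ∀ x y, G.adj x y ↔ K.adj (e x) (e y))
    (hH : ∀ h : Equiv.Perm V, h ∈ G.H ↔ (e.symm.trans (h.trans e) : Equiv.Perm W) ∈ K.H) :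
    Mor G K e where
  hom x y h := (hadj x y).1 h
  edge x y h := by
    refine ⟨e.symm x, e.symm y, ?_, e.apply_symm_apply x, e.apply_symm_apply y⟩
    rw [hadj, e.apply_symm_apply, e.apply_symm_apply]
    exact h
  eq1 h hh := by
    refine ⟨_, (hH h).1 hh, fun x => ?_⟩
    show e (h x) = e (h (e.symm (e x)))
    rw [e.symm_apply_apply]
  eq2 k hk := by
    refine ⟨e.trans (k.trans e.symm), ?_, fun x => ?_⟩
    · rw [hH]
      have h1 : (e.symm.trans ((e.trans (k.trans e.symm)).trans e) : Equiv.Perm W) = k := by
        ext x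
        show e (e.symm (k (e (e.symm x)))) = k x
        rw [e.apply_symm_apply, e.apply_symm_apply]
      rw [h1]
      exact hk
    · show e (e.symm (k (e x))) = k (e x)
      rw [e.apply_symm_apply]
  mon x y h := by
    have hxy := e.injective h
    subst hxy
    exact ⟨1, G.H.one_mem, fun _ => rfl, ReflTransGen.refl⟩
  lift x y m hm _ := by
    obtain ⟨h1, h2, h3⟩ := hm
    refine ⟨m.map e.symm, ⟨?_, ?_, ?_⟩, Ov.of_iso e hadj m ?_ h1⟩
    · rw [List.isChain_map]
      refine h1.imp ?_
      intro a b hab
      rw [hadj, e.apply_symm_apply, e.apply_symm_apply]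
      exact hab
    · rw [List.head?_map, h2]
      show some (e.symm (e x)) = some x
      rw [e.symm_apply_apply]
    · rw [List.getLast?_map, h3]
      show some (e.symm (e y)) = some y
      rw [e.symm_apply_apply]
    · rintro rfl
      simp at h2

/-- the transported structure -/
def Obj.tr {V W : Type} (G : Obj V) (e : V ≃ W) : Obj W where
  adj x y := G.adj (e.symm x) (e.symm y)
  refl x := G.refl _
  symm x y h := G.symm _ _ h
  H :=
    { carrier := {π | (e.trans (π.trans e.symm) : Equiv.Perm V) ∈ G.H}
      mul_mem' := by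
        intro a b ha hb
        have h1 : (e.trans ((a * b).trans e.symm) : Equiv.Perm V)
            = (e.trans (a.trans e.symm) : Equiv.Perm V) * (e.trans (b.trans e.symm)) := by
          ext x
          show e.symm (a (b (e x))) = e.symm (a (e (e.symm (b (e x)))))
          rw [e.apply_symm_apply]
        show (e.trans ((a * b).trans e.symm) : Equiv.Perm V) ∈ G.H
        rw [h1]
        exact G.H.mul_mem ha hb
      one_mem' := by
        have h1 : (e.trans ((1 : Equiv.Perm W).trans e.symm) : Equiv.Perm V) = 1 := by
          ext x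
          show e.symm (e x) = x
          rw [e.symm_apply_apply]
        show (e.trans ((1 : Equiv.Perm W).trans e.symm) : Equiv.Perm V) ∈ G.H
        rw [h1]
        exact G.H.one_mem
      inv_mem' := by
        intro a ha
        have h1 : (e.trans ((a⁻¹ : Equiv.Perm W).trans e.symm) : Equiv.Perm V)
            = (e.trans (a.trans e.symm) : Equiv.Perm V)⁻¹ := by
          ext x
          rfl
        show (e.trans ((a⁻¹ : Equiv.Perm W).trans e.symm) : Equiv.Perm V) ∈ G.H
        rw [h1]
        exact G.H.inv_mem ha }
  hadj h hh x y hxy := by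
    have h1 := G.hadj _ hh _ _ hxy
    have h2 : ∀ z, (e.trans (h.trans e.symm) : Equiv.Perm V) (e.symm z) = e.symm (h z) := by
      intro z
      show e.symm (h (e (e.symm z))) = e.symm (h z)
      rw [e.apply_symm_apply]
    rw [h2, h2] at h1
    exact h1
  free h hh x hx := by
    have h2 : ∀ z, (e.trans (h.trans e.symm) : Equiv.Perm V) (e.symm z) = e.symm (h z) := by
      intro z
      show e.symm (h (e (e.symm z))) = e.symm (h z)
      rw [e.apply_symm_apply]
    have h3 := G.free _ hh (e.symm x) (by rw [h2]; exact hx)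
    ext z
    have h4 := h2 z
    rw [h3] at h4
    exact e.symm.injective h4.symm
  conn x y := by
    have h1 := G.conn (e.symm x) (e.symm y)
    have h2 := ReflTransGen.lift (p := fun a b => G.adj (e.symm a) (e.symm b)) e (by
      intro a b hab
      show G.adj (e.symm (e a)) (e.symm (e b))
      rw [e.symm_apply_apply, e.symm_apply_apply]
      exact hab) _ _ h1
    have h3 : ReflTransGen (fun a b => G.adj (e.symm a) (e.symm b)) (e (e.symm x)) (e (e.symm y)) :=
      h2
    rw [e.apply_symm_apply, e.apply_symm_apply] at h3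
    exact h3

/-! TARGET: prove this (auxiliary lemmas allowed before it) -/

theorem Mor.aut {V : Type} (G : Obj V) (k : Equiv.Perm V) (hk : k ∈ G.H) : Mor G G k := by
  apply Mor.of_iso
  · intro x y
    refine ⟨G.hadj k hk x y, fun h => ?_⟩
    have h1 := G.hadj k⁻¹ (G.H.inv_mem hk) _ _ h
    have h2 : ∀ z, k⁻¹ (k z) = z := fun z => k.symm_apply_apply z
    rw [h2, h2] at h1
    exact h1
  · intro h
    have h1 : (k.symm.trans (h.trans k) : Equiv.Perm V) = k * h * k⁻¹ := rfl
    rw [h1]
    constructor
    · intro hh
      exact G.H.mul_mem (G.H.mul_mem hk hh) (G.H.inv_mem hk)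
    · intro hh
      have h2 := G.H.mul_mem (G.H.mul_mem (G.H.inv_mem hk) hh) hk
      have h3 : k⁻¹ * (k * h * k⁻¹) * k = h := by group
      rwa [h3] at h2

theorem transport {V W : Type} (G : Obj V) (e : V ≃ W) : ∃ K : Obj W, Mor G K e ∧ Mor K G e.symm ∧
    ∀ x y, K.adj x y ↔ G.adj (e.symm x) (e.symm y) := by
  refine ⟨G.tr e, ?_, ?_, fun x y => Iff.rfl⟩
  · apply Mor.of_iso
    · intro x y
      show G.adj x y ↔ G.adj (e.symm (e x)) (e.symm (e y))
      rw [e.symm_apply_apply, e.symm_apply_apply]
    · intro h
      have h1 : (e.trans ((e.symm.trans (h.trans e)).trans e.symm) : Equiv.Perm V) = h := by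
        ext x
        show e.symm (e (h (e.symm (e x)))) = h x
        rw [e.symm_apply_apply, e.symm_apply_apply]
      show h ∈ G.H ↔ (e.trans ((e.symm.trans (h.trans e)).trans e.symm) : Equiv.Perm V) ∈ G.H
      rw [h1]
  · apply Mor.of_iso
    · intro x y
      exact Iff.rfl
    · intro h
      exact Iff.rfl

end Pool.B595.Arc
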