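import Pool.Agent.B595.Arc.Defs

set_option autoImplicit false


namespace Pool.B595.Arc

open Relation

/-! TARGET: prove this (auxiliary lemmas allowed before it) -/

theorem Mor.cin_lift {W V : Type} {K : Obj W} {G : Obj V} {f : W → V} (hf : Mor K G f)
    (S : Set V) (x : W) (y : V) (h : CIn G S (f x) y) :
    ∃ z, f z = y ∧ CIn K (f ⁻¹' S) x z := by
  unfold CIn at h
  induction h with
  | refl => exact ⟨x, rfl, ReflTransGen.refl⟩
  | tail hab hbc ih =>
    rename_i b c
    obtain ⟨z, hz, hxz⟩ := ih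
    obtain ⟨e1, e2, he, h1, h2⟩ := hf.edge b c hbc.2.2
    obtain ⟨k, hk, hfk, hc⟩ := hf.mon z e1 (by rw [hz, h1])
    refine ⟨k e2, by rw [hfk, h2], ?_⟩
    have h3 : CIn K (f ⁻¹' S) z (k e1) := by
      refine ReflTransGen.mono ?_ _ _ hc
      rintro p q ⟨hp, hq, hpq⟩
      refine ⟨?_, ?_, hpq⟩
      · have : f p = f z := hp
        show f p ∈ S
        rw [this, hz]; exact hbc.1
      · have : f q = f z := hq
        show f q ∈ S
        rw [this, hz]; exact hbc.1
    refine (ReflTransGen.trans hxz h3).tail ⟨?_, ?_, K.hadj k hk _ _ he⟩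
    · show f (k e1) ∈ S
      rw [hfk, h1]; exact hbc.1
    · show f (k e2) ∈ S
      rw [hfk, h2]; exact hbc.2.1

theorem Ov.prepend {W V : Type} {K : Obj W} {f : W → V} {a : V} {x z : W} (h : CIn K (f ⁻¹' {a}) x z) 
    (l : List W) (m : List V) (ho : Ov K.adj f (z :: l) m) (hc : (z :: l).IsChain K.adj) :
    ∃ l', Ov K.adj f (x :: l') m ∧ (x :: l').IsChain K.adj ∧ (x :: l').getLast? = (z :: l).getLast? := by
  unfold CIn at h
  induction h using ReflTransGen.head_induction_on with
  | refl => exact ⟨l, ho, hc, rfl⟩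
  | head hab hbc ih =>
    rename_i b c
    obtain ⟨l', h1, h2, h3⟩ := ih
    have hb : f b = a := hab.1
    have hc' : f c = a := hab.2.1
    refine ⟨c :: l', Ov.stay b c l' m hab.2.2 (by rw [hb, hc']) h1, ?_, ?_⟩
    · exact List.isChain_cons_cons.mpr ⟨hab.2.2, h2⟩
    · rw [List.getLast?_cons_cons]; exact h3

theorem Mor.walk_lift {W V : Type} {K : Obj W} {G : Obj V} {f : W → V} (hf : Mor K G f)
    (x : W) (y : V) (m : List V) (h : Wk G m (f x) y) :
    ∃ z l, f z = y ∧ Wk K l x z ∧ Ov K.adj f l m := by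
  induction m generalizing x with
  | nil => exact absurd h.2.1 (by simp)
  | cons a m ih =>
    obtain ⟨hch, hhd, hlast⟩ := h
    have ha : a = f x := by simpa using hhd
    cases m with
    | nil =>
      have hy : a = y := by simpa using hlast
      refine ⟨x, [x], by rw [← ha, hy], ⟨List.isChain_singleton _, rfl, rfl⟩, ?_⟩
      rw [ha]
      exact Ov.single x
    | cons b m =>
      obtain ⟨hab, hch'⟩ := List.isChain_cons_cons.mp hch
      obtain ⟨e1, e2, he, h1, h2⟩ := hf.edge a b hab
      obtain ⟨k, hk, hfk, hc⟩ := hf.mon x e1 (by rw [h1, ha])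
      have hfe : f (k e2) = b := by rw [hfk, h2]
      obtain ⟨z, l, hz, ⟨hl1, hl2, hl3⟩, hov⟩ := ih (k e2) ⟨hch', by rw [hfe]; rfl, by rw [List.getLast?_cons_cons] at hlast; exact hlast⟩
      cases l with
      | nil => exact absurd hl2 (by simp)
      | cons w l =>
        have hw : w = k e2 := by simpa using hl2
        subst hw
        have hadj : K.adj (k e1) (k e2) := K.hadj k hk _ _ he
        have hov2 : Ov K.adj f (k e1 :: k e2 :: l) (a :: b :: m) := by
          have := Ov.step (r := K.adj) (f := f) (k e1) (k e2) l (b :: m) hadj hov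
          rw [hfk, h1] at this
          exact this
        obtain ⟨l', h3, h4, h5⟩ := Ov.prepend hc _ _ hov2 (List.isChain_cons_cons.mpr ⟨hadj, hl1⟩)
        refine ⟨z, x :: l', hz, ⟨h4, rfl, ?_⟩, h3⟩
        rw [h5, List.getLast?_cons_cons]; exact hl3

end Pool.B595.Arc
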