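import Pool.Agent.B595.Arc.Defs

set_option autoImplicit false


namespace Pool.B595.Arc

open Relation

/-! TARGET: prove this (auxiliary lemmas allowed before it) -/

lemma Ov.isChain {W V : Type} {r : W → W → Prop} {f : W → V} {l : List W} {m : List V}
    (h : Ov r f l m) : l.IsChain r := by
  induction h with
  | single b => exact List.isChain_singleton b
  | stay b c l m hr he h ih => exact List.isChain_cons_cons.2 ⟨hr, ih⟩
  | step b c l m hr h ih => exact List.isChain_cons_cons.2 ⟨hr, ih⟩

lemma Ov.mem_exists {W V : Type} {r : W → W → Prop} {f : W → V} {l : List W} {m : List V}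
    (h : Ov r f l m) : ∀ a ∈ m, ∃ b ∈ l, f b = a := by
  induction h with
  | single b =>
    intro a ha
    rw [List.mem_singleton] at ha
    exact ⟨b, List.mem_singleton_self b, ha.symm⟩
  | stay b c l m hr he h ih =>
    intro a ha
    obtain ⟨d, hd, hda⟩ := ih a ha
    exact ⟨d, List.mem_cons_of_mem _ hd, hda⟩
  | step b c l m hr h ih =>
    intro a ha
    rcases List.mem_cons.1 ha with rfl | ha
    · exact ⟨b, List.mem_cons_self, rfl⟩
    · obtain ⟨d, hd, hda⟩ := ih a ha
      exact ⟨d, List.mem_cons_of_mem _ hd, hda⟩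

/-- prepending a walk inside the fibre -/
lemma Ov.prependle {W V : Type} {r : W → W → Prop} {f : W → V} {b : W} {l : List W} {m : List V}
    (h : Ov r f (b :: l) m) : ∀ (E : List W), (E ++ [b]).IsChain r → (∀ a ∈ E, f a = f b) →
      Ov r f (E ++ b :: l) m := by
  intro E
  induction E with
  | nil => intro _ _; exact h
  | cons a E ih =>
    intro hc hE
    have hc' : (E ++ [b]).IsChain r := by
      have : (a :: (E ++ [b])).IsChain r := hc
      exact this.tail
    have ih' := ih hc' (fun x hx => hE x (List.mem_cons_of_mem _ hx))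
    cases E with
    | nil =>
      have : r a b := by
        have h2 : ([a, b] : List W).IsChain r := hc
        exact (List.isChain_cons_cons.1 h2).1
      exact Ov.stay a b l m this (hE a List.mem_cons_self) h
    | cons c E =>
      have h2 : (a :: c :: (E ++ [b])).IsChain r := hc
      have h3 : r a c := (List.isChain_cons_cons.1 h2).1
      have e1 : f a = f b := hE a List.mem_cons_self
      have e2 : f c = f b := hE c (List.mem_cons_of_mem _ List.mem_cons_self)
      exact Ov.stay a c (E ++ b :: l) m h3 (e1.trans e2.symm) ih'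

/-- a closed walk at `b` in the fibre -/
def CW {W V : Type} (K : Obj W) (f : W → V) (b : W) (L : List W) : Prop :=
  Wk K L b b ∧ ∀ a ∈ L, f a = f b

lemma exists_cw_one {W V : Type} {K : Obj W} {f : W → V} {v : V} {z : W} {b : W}
    (h : CIn K (f ⁻¹' {v}) b z) : f b = v → ∃ L, CW K f b L ∧ z ∈ L := by
  unfold CIn at h
  induction h using Relation.ReflTransGen.head_induction_on with
  | refl =>
    intro hz
    exact ⟨[z], ⟨⟨List.isChain_singleton z, rfl, rfl⟩, by simp⟩, by simp⟩
  | head h' h ih =>
    rename_i a c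
    intro ha
    have hc : f c = v := h'.2.1
    obtain ⟨L, ⟨⟨h1, h2, h3⟩, h4⟩, h5⟩ := ih hc
    refine ⟨a :: (L ++ [a]), ⟨⟨?_, rfl, ?_⟩, ?_⟩, ?_⟩
    · obtain ⟨t, rfl⟩ : ∃ t, L = c :: t := by
        cases L with
        | nil => simp at h2
        | cons d t => simp at h2; subst h2; exact ⟨t, rfl⟩
      have hl : (c :: t ++ [a]).IsChain K.adj := by
        rw [List.isChain_append]
        refine ⟨h1, List.isChain_singleton a, ?_⟩
        intro u hu w hw
        rw [h3] at hu
        simp at hu hw
        subst hu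
        subst hw
        exact K.symm _ _ h'.2.2
      exact List.isChain_cons_cons.2 ⟨h'.2.2, hl⟩
    · rw [← List.cons_append, List.getLast?_append]
      simp
    · intro d hd
      simp only [List.mem_cons, List.mem_append, List.not_mem_nil, or_false] at hd
      rcases hd with rfl | hd | rfl
      · rfl
      · rw [h4 d hd, hc, ha]
      · rfl
    · simp [h5]

lemma exists_cw_finset {W V : Type} [Finite W] {K : Obj W} {f : W → V} (b : W) (s : Set W)
    (hs : ∀ z ∈ s, CIn K (f ⁻¹' {f b}) b z) : ∃ L, CW K f b L ∧ ∀ z ∈ s, z ∈ L := by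
  have hfin : s.Finite := Set.toFinite s
  induction s, hfin using Set.Finite.induction_on with
  | empty =>
    exact ⟨[b], ⟨⟨List.isChain_singleton b, rfl, rfl⟩, by simp⟩, by simp⟩
  | insert ha hfin ih =>
    rename_i a s
    obtain ⟨L, ⟨⟨h1, h2, h3⟩, h4⟩, h5⟩ := ih (fun z hz => hs z (Set.mem_insert_of_mem _ hz))
    obtain ⟨M, ⟨⟨g1, g2, g3⟩, g4⟩, g5⟩ := exists_cw_one (hs a (Set.mem_insert _ _)) rfl
    refine ⟨L ++ M, ⟨⟨?_, ?_, ?_⟩, ?_⟩, ?_⟩
    · rw [List.isChain_append]
      refine ⟨h1, g1, ?_⟩
      intro u hu w hw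
      rw [h3] at hu
      rw [g2] at hw
      simp at hu hw
      subst hu
      subst hw
      exact K.refl _
    · rw [List.head?_append, h2]; rfl
    · rw [List.getLast?_append, g3]; rfl
    · intro d hd
      rcases List.mem_append.1 hd with hd | hd
      · exact h4 d hd
      · exact g4 d hd
    · intro z hz
      rcases Set.mem_insert_iff.1 hz with rfl | hz
      · exact List.mem_append_right _ g5
      · exact List.mem_append_left _ (h5 z hz)

lemma Ov.flatMap {W V : Type} {K : Obj W} {f : W → V} {E : W → List W}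
    (hE : ∀ b, CW K f b (E b)) {l : List W} {m : List V}
    (h : Ov K.adj f l m) : Ov K.adj f (l.flatMap E) m := by
  have hlast : ∀ b, ∃ t, E b = t ++ [b] := by
    intro b
    have h3 := (hE b).1.2.2
    exact ⟨(E b).dropLast, (List.dropLast_append_getLast? b h3).symm⟩
  have hhead : ∀ b, ∃ t, E b = b :: t := by
    intro b
    have h2 := (hE b).1.2.1
    cases hL : E b with
    | nil => rw [hL] at h2; simp at h2
    | cons d t => rw [hL] at h2; simp at h2; subst h2; exact ⟨t, rfl⟩
  have pre : ∀ (b : W) (l : List W) (m : List V), Ov K.adj f (b :: l) m →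
      Ov K.adj f (E b ++ l) m := by
    intro b l m h
    obtain ⟨t, ht⟩ := hlast b
    have hc := (hE b).1.1
    have hf := (hE b).2
    rw [ht] at hc hf ⊢
    rw [List.append_assoc]
    exact h.prependle t hc (fun a ha => hf a (List.mem_append_left _ ha))
  induction h with
  | single b =>
    have := pre b [] [f b] (Ov.single b)
    simpa using this
  | stay b c l m hr he h ih =>
    rw [List.flatMap_cons] at ih ⊢
    rw [List.flatMap_cons]
    obtain ⟨t, ht⟩ := hhead c
    rw [ht, List.cons_append] at ih ⊢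
    exact pre b _ m (Ov.stay b c _ m hr he ih)
  | step b c l m hr h ih =>
    rw [List.flatMap_cons] at ih ⊢
    rw [List.flatMap_cons]
    obtain ⟨t, ht⟩ := hhead c
    rw [ht, List.cons_append] at ih ⊢
    exact pre b _ _ (Ov.step b c _ m hr ih)

theorem Mor.lift_exh {W V : Type} [Finite W] {K : Obj W} {G : Obj V} {f : W → V} (hf : Mor K G f)
    (x y : W) (m : List V) (h : Wk G m (f x) (f y)) (he : Exh G m) :
    ∃ l, Wk K l x y ∧ Ov K.adj f l m ∧ Exh K l := by
  obtain ⟨l0, ⟨hw1, hw2, hw3⟩, hov⟩ := hf.lift x y m h he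
  have hex : ∀ b : W, ∃ L, CW K f b L ∧
      ∀ z ∈ {z : W | CIn K (f ⁻¹' {f b}) b z}, z ∈ L := fun b =>
    exists_cw_finset b _ (fun z hz => hz)
  choose E hE hEm using hex
  have hov' := hov.flatMap hE
  refine ⟨l0.flatMap E, ⟨hov'.isChain, ?_, ?_⟩, hov', ?_⟩
  · cases l0 with
    | nil => simp at hw2
    | cons d t =>
      simp at hw2
      subst hw2
      rw [List.flatMap_cons, List.head?_append, (hE d).1.2.1]
      rfl
  · have hl : l0 = l0.dropLast ++ [y] := (List.dropLast_append_getLast? y hw3).symm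
    rw [hl, List.flatMap_append, List.getLast?_append]
    simp [(hE y).1.2.2]
  · intro v
    obtain ⟨g, hg, hgm⟩ := he (f v)
    obtain ⟨b, hb, hbe⟩ := hov.mem_exists _ hgm
    obtain ⟨k, hk, hkf⟩ := hf.eq2 g hg
    have e1 : f b = f (k v) := by rw [hkf, hbe]
    obtain ⟨k', hk', hk'f, hcin⟩ := hf.mon b (k v) e1
    refine ⟨k' * k, K.H.mul_mem hk' hk, ?_⟩
    rw [List.mem_flatMap]
    exact ⟨b, hb, hEm b _ hcin⟩

end Pool.B595.Arc
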