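import Pool.Agent.B595.Arc.Defs

set_option autoImplicit false


namespace Pool.B595.Arc

open Relation

/-! TARGET: prove this (auxiliary lemmas allowed before it) -/

theorem Ov.head {W V : Type} {r : W → W → Prop} {f : W → V} {l : List W} {m : List V}
    (h : Ov r f l m) : l.head?.map f = m.head? := by
  induction h with
  | single b => rfl
  | stay b c l m hr hf h ih =>
    rw [← ih]
    simp [hf]
  | step b c l m hr h ih => rfl

theorem Ov.last {W V : Type} {r : W → W → Prop} {f : W → V} {l : List W} {m : List V}
    (h : Ov r f l m) : l.getLast?.map f = m.getLast? := by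
  induction h with
  | single b => rfl
  | stay b c l m hr hf h ih =>
    rw [List.getLast?_cons_cons]
    exact ih
  | step b c l m hr h ih =>
    rw [List.getLast?_cons_cons, ih]
    have hh := h.head
    cases m with
    | nil => simp at hh
    | cons y m' => rw [List.getLast?_cons_cons]

theorem Ov.trans {U W V : Type} {r : U → U → Prop} {r' : W → W → Prop} {g : U → W} {f : W → V}
    {a : List U} {b : List W} {c : List V}
    (h1 : Ov r g a b) (h2 : Ov r' f b c) : Ov r (f ∘ g) a c := by
  induction h1 generalizing c with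
  | single x =>
    cases h2 with
    | single => exact Ov.single x
  | stay b d l m hr hg h ih =>
    exact Ov.stay b d l c hr (congrArg f hg) (ih h2)
  | step b d l m hr h ih =>
    have hhead := h.head
    cases m with
    | nil => simp at hhead
    | cons y m' =>
      have hy : g d = y := by simpa using hhead
      subst hy
      cases h2 with
      | stay _ _ _ _ h3 h4 h5 => exact Ov.stay b d l c hr h4 (ih h5)
      | step _ _ _ _ h3 h4 => exact Ov.step b d l _ hr (ih h4)

theorem Wk.append {V : Type} {G : Obj V} {l l' : List V} {x y y' z : V} (h : Wk G l x y)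
    (h' : Wk G l' y' z) (hadj : G.adj y y') : Wk G (l ++ l') x z := by
  obtain ⟨h1, h2, h3⟩ := h
  obtain ⟨h1', h2', h3'⟩ := h'
  refine ⟨?_, ?_, ?_⟩
  · rw [List.isChain_append]
    refine ⟨h1, h1', ?_⟩
    intro a ha b hb
    rw [h3] at ha
    rw [h2'] at hb
    rw [Option.mem_def, Option.some.injEq] at ha hb
    rw [← ha, ← hb]
    exact hadj
  · rw [List.head?_append, h2]
    rfl
  · rw [List.getLast?_append, h3']
    rfl

theorem Wk.single {V : Type} (G : Obj V) (x : V) : Wk G [x] x x :=
  ⟨List.isChain_singleton x, rfl, rfl⟩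

theorem exists_wk {V : Type} (G : Obj V) {x y : V} (h : ReflTransGen G.adj x y) :
    ∃ l, Wk G l x y := by
  induction h with
  | refl => exact ⟨[x], Wk.single G x⟩
  | tail _ hbc ih =>
    obtain ⟨l, hl⟩ := ih
    exact ⟨_, hl.append (Wk.single G _) hbc⟩

theorem exists_wk_list {V : Type} (G : Obj V) (S : List V) :
    ∀ x y : V, ∃ l, Wk G l x y ∧ ∀ v ∈ S, v ∈ l := by
  induction S with
  | nil =>
    intro x y
    obtain ⟨l, hl⟩ := exists_wk G (G.conn x y)
    exact ⟨l, hl, by simp⟩
  | cons s S ih =>
    intro x y
    obtain ⟨l1, hl1⟩ := exists_wk G (G.conn x s)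
    obtain ⟨l2, hl2, hS⟩ := ih s y
    refine ⟨l1 ++ l2, hl1.append hl2 (G.refl s), ?_⟩
    intro v hv
    rw [List.mem_append]
    rw [List.mem_cons] at hv
    rcases hv with rfl | hv
    · left
      exact List.mem_of_getLast? hl1.2.2
    · exact Or.inr (hS v hv)

theorem exists_exh {V : Type} [Finite V] (G : Obj V) (x y : V) : ∃ l, Wk G l x y ∧ Exh G l := by
  classical
  have : Fintype V := Fintype.ofFinite V
  obtain ⟨l, hl, hS⟩ := exists_wk_list G (Finset.univ : Finset V).toList x y
  refine ⟨l, hl, fun v => ⟨1, G.H.one_mem, ?_⟩⟩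
  rw [Equiv.Perm.one_apply]
  exact hS v (by simp)

end Pool.B595.Arc
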