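import Pool.Agent.B595.Arc.Defs
import Pool.Agent.B595.Arc.JWalks
import Pool.Agent.B595.Arc.JLift1
import Pool.Agent.B595.Arc.JLiftexh

set_option autoImplicit false


namespace Pool.B595.Arc

open Relation

/-! The following statements are already proved elsewhere: use them freely, do not prove them. -/




/-! TARGET: prove this (auxiliary lemmas allowed before it) -/

theorem j8824_cin_mono {V : Type} (G : Obj V) {S T : Set V} (hST : S ⊆ T) {x y : V}
    (h : CIn G S x y) : CIn G T x y := by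
  induction h with
  | refl => exact ReflTransGen.refl
  | tail _ hab ih => exact ReflTransGen.tail ih ⟨hST hab.1, hST hab.2.1, hab.2.2⟩

theorem Mor.comp {U W V : Type} [Finite W] {L : Obj U} {K : Obj W} {G : Obj V} {g : U → W} {f : W → V}
    (hf : Mor K G f) (hg : Mor L K g) : Mor L G (f ∘ g) := by
  refine ⟨?_, ?_, ?_, ?_, ?_, ?_⟩
  · intro x y h
    exact hf.hom _ _ (hg.hom _ _ h)
  · intro x y h
    obtain ⟨x', y', h1, rfl, rfl⟩ := hf.edge x y h
    obtain ⟨x'', y'', h2, rfl, rfl⟩ := hg.edge x' y' h1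
    exact ⟨x'', y'', h2, rfl, rfl⟩
  · intro h hh
    obtain ⟨k, hk, hk2⟩ := hg.eq1 h hh
    obtain ⟨k', hk', hk2'⟩ := hf.eq1 k hk
    refine ⟨k', hk', fun x => ?_⟩
    show f (g (h x)) = k' (f (g x))
    rw [hk2, hk2']
  · intro h hh
    obtain ⟨k, hk, hk2⟩ := hf.eq2 h hh
    obtain ⟨k', hk', hk2'⟩ := hg.eq2 k hk
    refine ⟨k', hk', fun x => ?_⟩
    show f (g (k' x)) = h (f (g x))
    rw [hk2', hk2]
  · intro x y hxy
    obtain ⟨k, hk, hkf, hkc⟩ := hf.mon (g x) (g y) hxy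
    obtain ⟨k', hk', hk2⟩ := hg.eq2 k hk
    obtain ⟨z, hz, hzc⟩ := hg.cin_lift _ x _ hkc
    obtain ⟨k2, hk2m, hk2g, hk2c⟩ := hg.mon z (k' y) (by rw [hz, hk2])
    refine ⟨k2 * k', L.H.mul_mem hk2m hk', ?_, ?_⟩
    · intro w
      show f (g (k2 (k' w))) = f (g w)
      rw [hk2g, hk2, hkf]
    · refine ReflTransGen.trans hzc ?_
      refine j8824_cin_mono L ?_ hk2c
      intro w hw
      have hw' : g w = g z := hw
      show f (g w) = f (g x)
      rw [hw', hz, hkf]
      exact hxy.symm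
  · intro x y m hm he
    obtain ⟨l1, h1, h2, h3⟩ := hf.lift_exh (g x) (g y) m hm he
    obtain ⟨l, h4, h5⟩ := hg.lift x y l1 h1 h3
    exact ⟨l, h4, Ov.trans h5 h2⟩

end Pool.B595.Arc
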