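import Pool.Agent.B595.Arc.Defs

set_option autoImplicit false


namespace Pool.B595.Arc

open Relation

theorem fibre_walk_8825 {W V : Type} {K : Obj W} {f : W → V} {a : V} {x z y : W} {m : List V}
    (h : CIn K (f ⁻¹' {a}) x z) (hl : ∃ l, Wk K l z y ∧ Ov K.adj f l m) :
    ∃ l, Wk K l x y ∧ Ov K.adj f l m := by
  unfold CIn at h
  induction h using ReflTransGen.head_induction_on with
  | refl => exact hl
  | @head p q hxy _ ih =>
    obtain ⟨l, ⟨h1, h2, h3⟩, hov⟩ := ih
    obtain ⟨hp, hq, hadj⟩ := hxy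
    cases l with
    | nil => simp at h2
    | cons c t =>
      simp only [List.head?_cons, Option.some.injEq] at h2
      subst h2
      have hf : f p = f c := by
        simp only [Set.mem_preimage, Set.mem_singleton_iff] at hp hq
        rw [hp, hq]
      refine ⟨p :: c :: t, ⟨?_, rfl, ?_⟩, Ov.stay p c t m hadj hf hov⟩
      · exact List.isChain_cons_cons.mpr ⟨hadj, h1⟩
      · rw [List.getLast?_cons_cons]; exact h3

theorem lift_walk_8825 {W V : Type} {K : Obj W} {G : Obj V} (f : W → V)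
    (edge : ∀ x y, G.adj x y → ∃ x' y', K.adj x' y' ∧ f x' = x ∧ f y' = y)
    (con : ∀ x y, f x = f y → CIn K (f ⁻¹' {f x}) x y) (y : W) :
    ∀ (m : List V) (x : W), Wk G m (f x) (f y) → ∃ l, Wk K l x y ∧ Ov K.adj f l m := by
  intro m
  induction m with
  | nil =>
    rintro x ⟨_, h2, _⟩
    simp at h2
  | cons a m ih =>
    rintro x ⟨h1, h2, h3⟩
    simp only [List.head?_cons, Option.some.injEq] at h2
    subst h2
    cases m with
    | nil =>
      simp only [List.getLast?_singleton, Option.some.injEq] at h3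
      refine fibre_walk_8825 (con x y h3) ⟨[y], ⟨?_, rfl, rfl⟩, ?_⟩
      · simp
      · rw [h3]; exact Ov.single y
    | cons b m' =>
      rw [List.isChain_cons_cons] at h1
      obtain ⟨x1, y1, hxy, hx1, hy1⟩ := edge _ _ h1.1
      subst hy1
      rw [List.getLast?_cons_cons] at h3
      obtain ⟨l, ⟨g1, g2, g3⟩, hov⟩ := ih y1 ⟨h1.2, rfl, h3⟩
      refine fibre_walk_8825 (con x x1 hx1.symm) ?_
      cases l with
      | nil => simp at g2
      | cons c t =>
        simp only [List.head?_cons, Option.some.injEq] at g2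
        subst g2
        refine ⟨x1 :: c :: t, ⟨?_, rfl, ?_⟩, ?_⟩
        · exact List.isChain_cons_cons.mpr ⟨hxy, g1⟩
        · rw [List.getLast?_cons_cons]; exact g3
        · rw [← hx1]
          exact Ov.step x1 c t _ hxy hov

/-! TARGET: prove this (auxiliary lemmas allowed before it) -/

theorem Mor.of_conn {W V : Type} {K : Obj W} {G : Obj V} (f : W → V)
    (hom : ∀ x y, K.adj x y → G.adj (f x) (f y))
    (edge : ∀ x y, G.adj x y → ∃ x' y', K.adj x' y' ∧ f x' = x ∧ f y' = y)
    (eq1 : ∀ h ∈ K.H, ∃ k ∈ G.H, ∀ x, f (h x) = k (f x))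
    (eq2 : ∀ k ∈ G.H, ∃ h ∈ K.H, ∀ x, f (h x) = k (f x))
    (con : ∀ x y, f x = f y → CIn K (f ⁻¹' {f x}) x y) : Mor K G f where
  hom := hom
  edge := edge
  eq1 := eq1
  eq2 := eq2
  mon := fun x y hxy => ⟨1, K.H.one_mem, fun z => rfl, con x y hxy⟩
  lift := fun x y m hm _ => lift_walk_8825 f edge con y m x hm

end Pool.B595.Arc
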