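import Pool.Agent.B595.Arc.Defs
import Pool.Agent.B595.Arc.JOfconn

set_option autoImplicit false


namespace Pool.B595.Arc

open Relation

/-! The following statements are already proved elsewhere: use them freely, do not prove them. -/


/-! TARGET: prove this (auxiliary lemmas allowed before it) -/

section MoveAux

theorem perm_inv_self {V : Type} (h : Equiv.Perm V) (x : V) : h⁻¹ (h x) = x :=
  Equiv.symm_apply_apply h x

variable {V : Type} (G : Obj V)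

/-- vertices of the covering graph -/
abbrev MW : Type := {w : V × V × Bool // G.adj w.1 w.2.1}

/-- the adjacency of the covering graph -/
def MS (p q : V × V × Bool) : Prop :=
  (p.1 = q.1 ∧ (p.2.1 = p.1 ∨ q.2.1 = q.1 ∨ p.2.1 = q.2.1)) ∨ (q.1 = p.2.1 ∧ q.2.1 = p.1)

theorem MS.symm {p q : V × V × Bool} (h : MS p q) : MS q p := by
  rcases h with ⟨h1, h2⟩ | ⟨h1, h2⟩
  · refine Or.inl ⟨h1.symm, ?_⟩
    rcases h2 with h2 | h2 | h2
    · exact Or.inr (Or.inl h2)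
    · exact Or.inl h2
    · exact Or.inr (Or.inr h2.symm)
  · exact Or.inr ⟨h2.symm, h1.symm⟩

/-- the lift of an automorphism -/
def mlft (h : G.H) : Equiv.Perm (MW G) where
  toFun w := ⟨(h.1 w.1.1, h.1 w.1.2.1, w.1.2.2), G.hadj h.1 h.2 _ _ w.2⟩
  invFun w := ⟨(h.1⁻¹ w.1.1, h.1⁻¹ w.1.2.1, w.1.2.2), G.hadj _ (G.H.inv_mem h.2) _ _ w.2⟩
  left_inv w := by
    apply Subtype.ext
    simp
  right_inv w := by
    apply Subtype.ext
    simp

def MK : Obj (MW G) where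
  adj p q := MS p.1 q.1
  refl p := Or.inl ⟨rfl, Or.inr (Or.inr rfl)⟩
  symm p q h := MS.symm h
  H :=
    { carrier := {π | ∃ h ∈ G.H, ∀ w, (π w).1 = (h w.1.1, h w.1.2.1, w.1.2.2)}
      mul_mem' := by
        rintro a b ⟨h, hh, ha⟩ ⟨k, hk, hb⟩
        refine ⟨h * k, G.H.mul_mem hh hk, fun w => ?_⟩
        rw [Equiv.Perm.mul_apply, ha, hb]
        rfl
      one_mem' := ⟨1, G.H.one_mem, fun w => rfl⟩
      inv_mem' := by
        rintro a ⟨h, hh, ha⟩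
        refine ⟨h⁻¹, G.H.inv_mem hh, fun w => ?_⟩
        have h1 := ha (a⁻¹ w)
        rw [show a (a⁻¹ w) = w from Equiv.apply_symm_apply a w] at h1
        rw [h1]
        simp }
  hadj := by
    rintro a ⟨h, hh, ha⟩ x y hxy
    show MS (a x).1 (a y).1
    rw [ha, ha]
    rcases hxy with ⟨h1, h2⟩ | ⟨h1, h2⟩
    · refine Or.inl ⟨by simp [h1], ?_⟩
      rcases h2 with h2 | h2 | h2
      · exact Or.inl (by simp [h2])
      · exact Or.inr (Or.inl (by simp [h2]))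
      · exact Or.inr (Or.inr (by simp [h2]))
    · exact Or.inr ⟨by simp [h1], by simp [h2]⟩
  free := by
    rintro a ⟨h, hh, ha⟩ x hx
    have h1 : h = 1 := by
      change MS x.1 (a x).1 at hx
      rw [ha] at hx
      rcases hx with ⟨h1, h2⟩ | ⟨h1, h2⟩
      · apply G.free h hh x.1.1
        have h3 : x.1.1 = h x.1.1 := h1
        rw [← h3]
        exact G.refl _
      · apply G.free h hh x.1.1
        have h3 : h x.1.1 = x.1.2.1 := h1
        rw [h3]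
        exact x.2
    subst h1
    apply Equiv.ext
    intro w
    apply Subtype.ext
    rw [ha]
    rfl
  conn := by
    have key : ∀ x y, ReflTransGen G.adj x y → ∀ i,
        ReflTransGen (fun p q : MW G => MS p.1 q.1) ⟨(x, x, i), G.refl x⟩ ⟨(y, y, i), G.refl y⟩ := by
      intro x y h i
      induction h with
      | refl => exact ReflTransGen.refl
      | @tail b c hab hbc ih =>
        refine ih.trans ?_
        refine ReflTransGen.head (b := (⟨(b, c, i), hbc⟩ : MW G)) ?_ ?_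
        · exact Or.inl ⟨rfl, Or.inl rfl⟩
        refine ReflTransGen.head (b := (⟨(c, b, i), G.symm _ _ hbc⟩ : MW G)) ?_ ?_
        · exact Or.inr ⟨rfl, rfl⟩
        refine ReflTransGen.single ?_
        exact Or.inl ⟨rfl, Or.inr (Or.inl rfl)⟩
    rintro ⟨⟨x, y, i⟩, hx⟩ ⟨⟨x', y', j⟩, hx'⟩
    refine ReflTransGen.head (b := (⟨(x, x, i), G.refl x⟩ : MW G)) ?_ ?_
    · exact Or.inl ⟨rfl, Or.inr (Or.inl rfl)⟩
    refine (key x x' (G.conn x x') i).trans ?_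
    refine ReflTransGen.single ?_
    exact Or.inl ⟨rfl, Or.inl rfl⟩

theorem mlft_mem (h : G.H) : mlft G h ∈ (MK G).H := ⟨h.1, h.2, fun _ => rfl⟩

/-- the projection -/
def mu (w : MW G) : V := w.1.1

theorem mu_mor : Mor (MK G) G (mu G) := by
  apply Mor.of_conn
  · rintro ⟨⟨x, y, i⟩, hx⟩ ⟨⟨x', y', j⟩, hx'⟩ h
    rcases h with ⟨h1, h2⟩ | ⟨h1, h2⟩
    · show G.adj x x'
      have h3 : x = x' := h1
      rw [h3]
      exact G.refl _
    · show G.adj x x'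
      have h3 : x' = y := h1
      rw [h3]
      exact hx
  · intro x y hxy
    exact ⟨⟨(x, y, false), hxy⟩, ⟨(y, x, false), G.symm _ _ hxy⟩, Or.inr ⟨rfl, rfl⟩, rfl, rfl⟩
  · rintro a ⟨h, hh, ha⟩
    refine ⟨h, hh, fun x => ?_⟩
    show (a x).1.1 = _
    rw [ha]
    rfl
  · intro k hk
    exact ⟨mlft G ⟨k, hk⟩, mlft_mem G _, fun x => rfl⟩
  · rintro ⟨⟨x, y, i⟩, hx⟩ ⟨⟨x', y', j⟩, hx'⟩ h
    have h0 : x = x' := h
    subst h0
    refine ReflTransGen.head (b := (⟨(x, x, i), G.refl x⟩ : MW G)) ⟨rfl, rfl, ?_⟩ ?_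
    · exact Or.inl ⟨rfl, Or.inr (Or.inl rfl)⟩
    refine ReflTransGen.single ⟨rfl, rfl, ?_⟩
    exact Or.inl ⟨rfl, Or.inl rfl⟩

variable {G}

theorem Obj.uniq {h h' : Equiv.Perm V} (hh : h ∈ G.H) (hh' : h' ∈ G.H) {b : V}
    (e : G.adj (h b) (h' b)) : h' = h := by
  have h1 := G.hadj h⁻¹ (G.H.inv_mem hh) _ _ e
  rw [← Equiv.Perm.mul_apply, ← Equiv.Perm.mul_apply, inv_mul_cancel] at h1
  have h2 := G.free (h⁻¹ * h') (G.H.mul_mem (G.H.inv_mem hh) hh') b h1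
  have h3 : h * (h⁻¹ * h') = h := by rw [h2, mul_one]
  rwa [mul_inv_cancel_left] at h3

theorem Obj.uniq' {h h' : Equiv.Perm V} (hh : h ∈ G.H) (hh' : h' ∈ G.H) {b : V}
    (e : h b = h' b) : h' = h := by
  apply Obj.uniq hh hh' (b := b)
  rw [e]
  exact G.refl _

/-- if `c` is adjacent to `b` and is in the orbit, it is equal -/
theorem Obj.orb {h h' : Equiv.Perm V} (hh : h ∈ G.H) (hh' : h' ∈ G.H) {b c : V}
    (hbc : G.adj b c) (e : h b = h' c) : c = b := by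
  have h1 : G.adj (h b) (h' b) := by
    rw [e]
    exact G.symm _ _ (G.hadj h' hh' _ _ hbc)
  have h2 := Obj.uniq hh hh' h1
  subst h2
  exact (h'.injective e).symm

def T1 (b0 b1 z : V) (i0 : Bool) (w : V × V × Bool) (h : Equiv.Perm V) : Prop :=
  w.1 = h b0 ∧ w.2.2 = i0 ∧ (w.2.1 = h b1 ∨ w.2.1 = h b0 ∨ w.2.1 = h z)

def T2 (b0 b1 z : V) (w : V × V × Bool) (h : Equiv.Perm V) : Prop :=
  z ≠ b0 ∧ z ≠ b1 ∧ w.1 = h z ∧ w.2.1 = h b0

open Classical in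
/-- the modified projection -/
noncomputable def mu' (G : Obj V) (b0 b1 z : V) (i0 : Bool) (w : MW G) : V :=
  if H : ∃ h ∈ G.H, T1 b0 b1 z i0 w.1 h then H.choose b1
  else if ∃ h ∈ G.H, T2 b0 b1 z w.1 h then w.1.2.1 else w.1.1

variable {b0 b1 z : V} {i0 : Bool}

theorem mu'_1 (w : MW G) (h : Equiv.Perm V) (hh : h ∈ G.H) (ht : T1 b0 b1 z i0 w.1 h) :
    mu' G b0 b1 z i0 w = h b1 := by
  have H : ∃ h ∈ G.H, T1 b0 b1 z i0 w.1 h := ⟨h, hh, ht⟩
  rw [mu', dif_pos H]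
  have h1 := H.choose_spec
  rw [Obj.uniq' hh h1.1 (ht.1.symm.trans h1.2.1)]

theorem T1.not_T2 (hz : G.adj b0 z) (w : MW G) {h h' : Equiv.Perm V} (hh : h ∈ G.H)
    (hh' : h' ∈ G.H) (ht : T1 b0 b1 z i0 w.1 h) (ht' : T2 b0 b1 z w.1 h') : False := by
  have e : h b0 = h' z := ht.1.symm.trans ht'.2.2.1
  exact ht'.1 (Obj.orb hh hh' hz e)

theorem mu'_2 (hz : G.adj b0 z) (w : MW G) (h : Equiv.Perm V) (hh : h ∈ G.H)
    (ht : T2 b0 b1 z w.1 h) : mu' G b0 b1 z i0 w = h b0 := by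
  have H : ¬ ∃ h ∈ G.H, T1 b0 b1 z i0 w.1 h := by
    rintro ⟨h', hh', ht'⟩
    exact T1.not_T2 hz w hh' hh ht' ht
  rw [mu', dif_neg H, if_pos ⟨h, hh, ht⟩]
  exact ht.2.2.2

theorem mu'_3 (w : MW G) (h1 : ∀ h ∈ G.H, ¬ T1 b0 b1 z i0 w.1 h)
    (h2 : ∀ h ∈ G.H, ¬ T2 b0 b1 z w.1 h) : mu' G b0 b1 z i0 w = w.1.1 := by
  have H : ¬ ∃ h ∈ G.H, T1 b0 b1 z i0 w.1 h := by
    rintro ⟨h', hh', ht'⟩
    exact h1 h' hh' ht'
  have H2 : ¬ ∃ h ∈ G.H, T2 b0 b1 z w.1 h := by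
    rintro ⟨h', hh', ht'⟩
    exact h2 h' hh' ht'
  rw [mu', dif_neg H, if_neg H2]

theorem mu'_cases (hz : G.adj b0 z) (w : MW G) :
    (∃ h ∈ G.H, T1 b0 b1 z i0 w.1 h ∧ mu' G b0 b1 z i0 w = h b1) ∨
    (∃ h ∈ G.H, T2 b0 b1 z w.1 h ∧ mu' G b0 b1 z i0 w = h b0) ∨
    ((∀ h ∈ G.H, ¬ T1 b0 b1 z i0 w.1 h) ∧ (∀ h ∈ G.H, ¬ T2 b0 b1 z w.1 h) ∧
      mu' G b0 b1 z i0 w = w.1.1) := by
  by_cases H : ∃ h ∈ G.H, T1 b0 b1 z i0 w.1 h
  · obtain ⟨h, hh, ht⟩ := H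
    exact Or.inl ⟨h, hh, ht, mu'_1 w h hh ht⟩
  · by_cases H2 : ∃ h ∈ G.H, T2 b0 b1 z w.1 h
    · obtain ⟨h, hh, ht⟩ := H2
      exact Or.inr (Or.inl ⟨h, hh, ht, mu'_2 hz w h hh ht⟩)
    · push Not at H H2
      exact Or.inr (Or.inr ⟨H, H2, mu'_3 w H H2⟩)

/-- value over `h b0` -/
theorem mu'_b0 (hz : G.adj b0 z) (w : MW G) (h : Equiv.Perm V) (hh : h ∈ G.H)
    (e : w.1.1 = h b0) : mu' G b0 b1 z i0 w = h b0 ∨ mu' G b0 b1 z i0 w = h b1 := by
  rcases mu'_cases (b1 := b1) (i0 := i0) hz w with ⟨k, hk, ht, he⟩ | ⟨k, hk, ht, he⟩ | ⟨_, _, he⟩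
  · right
    rw [he, Obj.uniq' hh hk (e.symm.trans ht.1)]
  · exfalso
    exact ht.1 (Obj.orb hh hk hz (e.symm.trans ht.2.2.1))
  · left
    rw [he, e]

/-- value over a point outside the orbit of `b0` -/
theorem mu'_nb0 (hz : G.adj b0 z) (w : MW G) (hn : ∀ h ∈ G.H, w.1.1 ≠ h b0) :
    (∃ h ∈ G.H, T2 b0 b1 z w.1 h ∧ mu' G b0 b1 z i0 w = w.1.2.1) ∨
    ((∀ h ∈ G.H, ¬ T2 b0 b1 z w.1 h) ∧ mu' G b0 b1 z i0 w = w.1.1) := by
  rcases mu'_cases (b1 := b1) (i0 := i0) hz w with ⟨k, hk, ht, he⟩ | ⟨k, hk, ht, he⟩ | ⟨_, h2, he⟩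
  · exact absurd ht.1 (hn k hk)
  · left
    exact ⟨k, hk, ht, he.trans ht.2.2.2.symm⟩
  · right
    exact ⟨h2, he⟩

/-- the centre is not of type 2 -/
theorem T2.center {w : V × V × Bool} {h : Equiv.Perm V} (ht : T2 b0 b1 z w h)
    (e : w.2.1 = w.1) : False := by
  have h1 : h z = h b0 := by rw [← ht.2.2.1, ← ht.2.2.2, e]
  exact ht.1 (h.injective h1)

theorem mu'_centre (w : MW G) (e : w.1.2.1 = w.1.1)
    (hi : w.1.2.2 ≠ i0) : mu' G b0 b1 z i0 w = w.1.1 :=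
  mu'_3 w (fun _ _ ht => hi ht.2.1) (fun _ _ ht => ht.center e)

theorem mu'_hom_aux (hb : G.adj b0 b1) (hz : G.adj b0 z) (p q : MW G) (e : p.1.1 = q.1.1)
    (h : p.1.2.1 = p.1.1 ∨ p.1.2.1 = q.1.2.1) :
    G.adj (mu' G b0 b1 z i0 p) (mu' G b0 b1 z i0 q) := by
  by_cases H : ∃ k ∈ G.H, p.1.1 = k b0
  · obtain ⟨k, hk, ek⟩ := H
    have hkb : G.adj (k b0) (k b1) := G.hadj k hk _ _ hb
    rcases mu'_b0 (b1 := b1) (i0 := i0) hz p k hk ek with h1 | h1 <;>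
    rcases mu'_b0 (b1 := b1) (i0 := i0) hz q k hk (e.symm.trans ek) with h2 | h2 <;>
    rw [h1, h2]
    · exact G.refl _
    · exact hkb
    · exact G.symm _ _ hkb
    · exact G.refl _
  · push Not at H
    rcases mu'_nb0 (b1 := b1) (i0 := i0) hz p H with ⟨k, hk, hT, h1⟩ | ⟨hT, h1⟩
    · have h' : p.1.2.1 = q.1.2.1 := by
        rcases h with h | h
        · exact (hT.center h).elim
        · exact h
      have hTq : T2 b0 b1 z q.1 k := ⟨hT.1, hT.2.1, e.symm.trans hT.2.2.1, h'.symm.trans hT.2.2.2⟩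
      rw [h1, mu'_2 hz q k hk hTq, hT.2.2.2]
      exact G.refl _
    · rcases mu'_nb0 (b1 := b1) (i0 := i0) hz q (fun k hk => by rw [← e]; exact H k hk) with
        ⟨k, hk, hTq, h2⟩ | ⟨hTq, h2⟩
      · rw [h1, h2, e]
        exact q.2
      · rw [h1, h2, e]
        exact G.refl _

theorem mu'_flip_aux (hb : G.adj b0 b1) (hz : G.adj b0 z) (p q : MW G) (e1 : q.1.1 = p.1.2.1)
    (e2 : q.1.2.1 = p.1.1) (hne : p.1.1 ≠ p.1.2.1) (k : Equiv.Perm V) (hk : k ∈ G.H)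
    (ek : p.1.1 = k b0) :
    G.adj (mu' G b0 b1 z i0 p) (mu' G b0 b1 z i0 q) := by
  have hkb : G.adj (k b0) (k b1) := G.hadj k hk _ _ hb
  have hq : ∀ h ∈ G.H, q.1.1 ≠ h b0 := by
    intro h hh he
    have h1 : G.adj (k b0) (h b0) := by
      rw [← ek, ← he, e1]
      exact p.2
    have h2 := Obj.uniq hk hh h1
    apply hne
    rw [ek, ← e1, he, h2]
  rcases mu'_nb0 (b1 := b1) (i0 := i0) hz q hq with ⟨h, hh, hT, h2⟩ | ⟨hT, h2⟩
  · rw [h2, e2, ek]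
    rcases mu'_b0 (b1 := b1) (i0 := i0) hz p k hk ek with h1 | h1 <;> rw [h1]
    · exact G.refl _
    · exact G.symm _ _ hkb
  · rw [h2, e1]
    rcases mu'_cases (b1 := b1) (i0 := i0) hz p with ⟨h, hh, ht, he⟩ | ⟨h, hh, ht, he⟩ | ⟨_, _, he⟩
    · have hhk : h = k := Obj.uniq' hk hh (ek.symm.trans ht.1)
      subst hhk
      rw [he]
      rcases ht.2.2 with h3 | h3 | h3
      · rw [h3]; exact G.refl _
      · exact absurd (ek.trans h3.symm) hne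
      · by_cases hz0 : z = b0
        · rw [hz0] at h3
          exact absurd (ek.trans h3.symm) hne
        · by_cases hz1 : z = b1
          · rw [h3, hz1]; exact G.refl _
          · exact absurd ⟨hz0, hz1, e1.trans h3, e2.trans ek⟩ (hT h hh)
    · exfalso
      exact ht.1 (Obj.orb hk hh hz (ek.symm.trans ht.2.2.1))
    · rw [he]
      exact p.2

theorem mu'_hom (hb : G.adj b0 b1) (hz : G.adj b0 z) (p q : MW G) (h : MS p.1 q.1) :
    G.adj (mu' G b0 b1 z i0 p) (mu' G b0 b1 z i0 q) := by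
  rcases h with ⟨h1, h2⟩ | ⟨h1, h2⟩
  · rcases h2 with h2 | h2 | h2
    · exact mu'_hom_aux hb hz p q h1 (Or.inl h2)
    · exact G.symm _ _ (mu'_hom_aux hb hz q p h1.symm (Or.inl h2))
    · exact mu'_hom_aux hb hz p q h1 (Or.inr h2)
  · by_cases hne : p.1.1 = p.1.2.1
    · exact mu'_hom_aux hb hz p q (hne.trans h1.symm) (Or.inl hne.symm)
    · by_cases H : ∃ k ∈ G.H, p.1.1 = k b0
      · obtain ⟨k, hk, ek⟩ := H
        exact mu'_flip_aux hb hz p q h1 h2 hne k hk ek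
      · by_cases H' : ∃ k ∈ G.H, q.1.1 = k b0
        · obtain ⟨k, hk, ek⟩ := H'
          refine G.symm _ _ (mu'_flip_aux hb hz q p h2.symm h1.symm ?_ k hk ek)
          rw [h1, h2]
          exact fun hh => hne hh.symm
        · push Not at H H'
          have hp : mu' G b0 b1 z i0 p = p.1.1 := by
            apply mu'_3
            · intro h hh ht
              exact H h hh ht.1
            · intro h hh ht
              exact H' h hh (h1.trans ht.2.2.2)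
          have hq : mu' G b0 b1 z i0 q = q.1.1 := by
            apply mu'_3
            · intro h hh ht
              exact H' h hh ht.1
            · intro h hh ht
              exact H h hh (h2.symm.trans ht.2.2.2)
          rw [hp, hq, h1]
          exact p.2

theorem mu'_edge (hz : G.adj b0 z) (x y : V) (hxy : G.adj x y) :
    ∃ x' y' : MW G, MS x'.1 y'.1 ∧ mu' G b0 b1 z i0 x' = x ∧ mu' G b0 b1 z i0 y' = y := by
  have hi : (!i0) ≠ i0 := by cases i0 <;> simp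
  by_cases H : ∃ h ∈ G.H, z ≠ b0 ∧ z ≠ b1 ∧ x = h z ∧ y = h b0
  · obtain ⟨h, hh, hz0, hz1, ex, ey⟩ := H
    refine ⟨⟨(x, x, !i0), G.refl x⟩, ⟨(x, y, !i0), hxy⟩, Or.inl ⟨rfl, Or.inl rfl⟩, ?_, ?_⟩
    · exact mu'_centre _ rfl hi
    · exact (mu'_2 hz _ h hh ⟨hz0, hz1, ex, ey⟩).trans ey.symm
  · by_cases H' : ∃ h ∈ G.H, z ≠ b0 ∧ z ≠ b1 ∧ y = h z ∧ x = h b0
    · obtain ⟨h, hh, hz0, hz1, ex, ey⟩ := H'
      refine ⟨⟨(y, x, !i0), G.symm _ _ hxy⟩, ⟨(y, y, !i0), G.refl y⟩,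
        Or.inl ⟨rfl, Or.inr (Or.inl rfl)⟩, ?_, ?_⟩
      · exact (mu'_2 hz _ h hh ⟨hz0, hz1, ex, ey⟩).trans ey.symm
      · exact mu'_centre _ rfl hi
    · refine ⟨⟨(x, y, !i0), hxy⟩, ⟨(y, x, !i0), G.symm _ _ hxy⟩, Or.inr ⟨rfl, rfl⟩, ?_, ?_⟩
      · exact mu'_3 _ (fun _ _ ht => hi ht.2.1)
          (fun h hh ht => H ⟨h, hh, ht.1, ht.2.1, ht.2.2.1, ht.2.2.2⟩)
      · exact mu'_3 _ (fun _ _ ht => hi ht.2.1)
          (fun h hh ht => H' ⟨h, hh, ht.1, ht.2.1, ht.2.2.1, ht.2.2.2⟩)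

theorem mu'_eqv (hz : G.adj b0 z) (a : Equiv.Perm (MW G)) (h : Equiv.Perm V) (hh : h ∈ G.H)
    (ha : ∀ w, (a w).1 = (h w.1.1, h w.1.2.1, w.1.2.2)) (w : MW G) :
    mu' G b0 b1 z i0 (a w) = h (mu' G b0 b1 z i0 w) := by
  rcases mu'_cases (b1 := b1) (i0 := i0) hz w with ⟨k, hk, ht, he⟩ | ⟨k, hk, ht, he⟩ | ⟨h1, h2, he⟩
  · rw [he, ← Equiv.Perm.mul_apply]
    apply mu'_1 _ _ (G.H.mul_mem hh hk)
    rw [ha]
    refine ⟨?_, ht.2.1, ?_⟩
    · show h w.1.1 = _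
      rw [ht.1]; rfl
    · rcases ht.2.2 with h3 | h3 | h3
      · left
        show h w.1.2.1 = _
        rw [h3]; rfl
      · right; left
        show h w.1.2.1 = _
        rw [h3]; rfl
      · right; right
        show h w.1.2.1 = _
        rw [h3]; rfl
  · rw [he, ← Equiv.Perm.mul_apply]
    apply mu'_2 hz _ _ (G.H.mul_mem hh hk)
    rw [ha]
    refine ⟨ht.1, ht.2.1, ?_, ?_⟩
    · show h w.1.1 = _
      rw [ht.2.2.1]; rfl
    · show h w.1.2.1 = _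
      rw [ht.2.2.2]; rfl
  · rw [he, mu'_3, ha]
    · intro k hk ht
      rw [ha] at ht
      apply h1 (h⁻¹ * k) (G.H.mul_mem (G.H.inv_mem hh) hk)
      refine ⟨?_, ht.2.1, ?_⟩
      · have h3 : h w.1.1 = k b0 := ht.1
        rw [Equiv.Perm.mul_apply, ← h3, perm_inv_self]
      · rcases ht.2.2 with h3 | h3 | h3
        · left
          have h3 : h w.1.2.1 = k b1 := h3
          rw [Equiv.Perm.mul_apply, ← h3, perm_inv_self]
        · right; left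
          have h3 : h w.1.2.1 = k b0 := h3
          rw [Equiv.Perm.mul_apply, ← h3, perm_inv_self]
        · right; right
          have h3 : h w.1.2.1 = k z := h3
          rw [Equiv.Perm.mul_apply, ← h3, perm_inv_self]
    · intro k hk ht
      rw [ha] at ht
      apply h2 (h⁻¹ * k) (G.H.mul_mem (G.H.inv_mem hh) hk)
      refine ⟨ht.1, ht.2.1, ?_, ?_⟩
      · have h3 : h w.1.1 = k z := ht.2.2.1
        rw [Equiv.Perm.mul_apply, ← h3, perm_inv_self]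
      · have h3 : h w.1.2.1 = k b0 := ht.2.2.2
        rw [Equiv.Perm.mul_apply, ← h3, perm_inv_self]

theorem CIn.symm' {W : Type} {K : Obj W} {S : Set W} {x y : W} (h : CIn K S x y) : CIn K S y x := by
  haveI : Std.Symm (fun a b => a ∈ S ∧ b ∈ S ∧ K.adj a b) :=
    ⟨fun a b hab => ⟨hab.2.1, hab.1, K.symm _ _ hab.2.2⟩⟩
  exact (ReflTransGen.stdSymm (r := fun a b => a ∈ S ∧ b ∈ S ∧ K.adj a b)).symm _ _ h

theorem mu'_conn_aux (hne : b1 ≠ b0) (hb : G.adj b0 b1) (hz : G.adj b0 z) (w : MW G) (v : V)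
    (e : mu' G b0 b1 z i0 w = v) :
    CIn (MK G) ((mu' G b0 b1 z i0) ⁻¹' {v}) w ⟨(v, v, !i0), G.refl v⟩ := by
  have hi : (!i0) ≠ i0 := by cases i0 <;> simp
  have hc : ∀ v, mu' G b0 b1 z i0 ⟨(v, v, !i0), G.refl v⟩ = v := fun v => mu'_centre _ rfl hi
  rcases mu'_cases (b1 := b1) (i0 := i0) hz w with ⟨k, hk, ht, he⟩ | ⟨k, hk, ht, he⟩ | ⟨h1, h2, he⟩
  · have hv : v = k b1 := e.symm.trans he
    subst hv
    have hadj : G.adj (k b0) (k b1) := G.hadj k hk _ _ hb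
    have m1 : mu' G b0 b1 z i0 ⟨(k b0, k b0, i0), G.refl _⟩ = k b1 :=
      mu'_1 _ k hk ⟨rfl, rfl, Or.inr (Or.inl rfl)⟩
    have m2 : mu' G b0 b1 z i0 ⟨(k b0, k b1, i0), hadj⟩ = k b1 :=
      mu'_1 _ k hk ⟨rfl, rfl, Or.inl rfl⟩
    have m3 : mu' G b0 b1 z i0 ⟨(k b1, k b0, i0), G.symm _ _ hadj⟩ = k b1 := by
      apply mu'_3
      · intro h hh ht
        have h3 : k b1 = h b0 := ht.1
        exact hne (Obj.orb hh hk hb h3.symm)
      · intro h hh ht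
        have h3 : k b1 = h z := ht.2.2.1
        have h4 : k b0 = h b0 := ht.2.2.2
        have h5 := Obj.uniq' hk hh h4
        subst h5
        exact ht.2.1 (h.injective h3).symm
    refine ReflTransGen.head (b := (⟨(k b0, k b0, i0), G.refl _⟩ : MW G)) ⟨e, m1, ?_⟩ ?_
    · exact Or.inl ⟨ht.1, Or.inr (Or.inl rfl)⟩
    refine ReflTransGen.head (b := (⟨(k b0, k b1, i0), hadj⟩ : MW G)) ⟨m1, m2, ?_⟩ ?_
    · exact Or.inl ⟨rfl, Or.inl rfl⟩
    refine ReflTransGen.head (b := (⟨(k b1, k b0, i0), G.symm _ _ hadj⟩ : MW G)) ⟨m2, m3, ?_⟩ ?_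
    · exact Or.inr ⟨rfl, rfl⟩
    refine ReflTransGen.single ⟨m3, hc _, ?_⟩
    exact Or.inl ⟨rfl, Or.inr (Or.inl rfl)⟩
  · have hv : v = k b0 := e.symm.trans he
    subst hv
    have hadj : G.adj (k b0) (k z) := G.hadj k hk _ _ hz
    have m1 : mu' G b0 b1 z i0 ⟨(k b0, k z, !i0), hadj⟩ = k b0 := by
      apply mu'_3
      · intro h hh ht
        exact hi ht.2.1
      · intro h hh ht'
        have h3 : k b0 = h z := ht'.2.2.1
        exact ht'.1 (Obj.orb hk hh hz h3)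
    refine ReflTransGen.head (b := (⟨(k b0, k z, !i0), hadj⟩ : MW G)) ⟨e, m1, ?_⟩ ?_
    · exact Or.inr ⟨ht.2.2.2.symm, ht.2.2.1.symm⟩
    refine ReflTransGen.single ⟨m1, hc _, ?_⟩
    exact Or.inl ⟨rfl, Or.inr (Or.inl rfl)⟩
  · have hv : v = w.1.1 := e.symm.trans he
    subst hv
    refine ReflTransGen.single ⟨e, hc _, ?_⟩
    exact Or.inl ⟨rfl, Or.inr (Or.inl rfl)⟩

theorem mu'_mor (hne : b1 ≠ b0) (hb : G.adj b0 b1) (hz : G.adj b0 z) :
    Mor (MK G) G (mu' G b0 b1 z i0) := by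
  apply Mor.of_conn
  · intro x y hxy
    exact mu'_hom hb hz x y hxy
  · intro x y hxy
    exact mu'_edge hz x y hxy
  · rintro a ⟨h, hh, ha⟩
    exact ⟨h, hh, fun x => mu'_eqv hz a h hh ha x⟩
  · intro k hk
    exact ⟨mlft G ⟨k, hk⟩, mlft_mem G _, fun x => mu'_eqv hz _ k hk (fun _ => rfl) x⟩
  · intro x y hxy
    exact (mu'_conn_aux hne hb hz x _ rfl).trans
      (CIn.symm' (mu'_conn_aux hne hb hz y _ hxy.symm))

end MoveAux

theorem move {V : Type} [Finite V] (G : Obj V) (b0 b1 : V) (hb : G.adj b0 b1) :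
    ∃ (W : Type) (_ : Finite W) (K : Obj W) (u : W → V), Mor K G u ∧
      ∀ c, u c = b0 → ∃ u' : W → V, Mor K G u' ∧ u' c = b1 ∧
        ∀ t, u' t = u t ∨ ∃ h ∈ G.H, (u' t = h b0 ∨ u' t = h b1) ∧ G.adj (u t) (h b0) := by
  by_cases hne : b1 = b0
  · subst hne
    have hid : Mor G G (id : V → V) := by
      apply Mor.of_conn
      · intro x y h; exact h
      · intro x y h; exact ⟨x, y, h, rfl, rfl⟩
      · intro h hh; exact ⟨h, hh, fun x => rfl⟩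
      · intro h hh; exact ⟨h, hh, fun x => rfl⟩
      · intro x y h
        have h' : x = y := h
        subst h'
        exact ReflTransGen.refl
    exact ⟨V, inferInstance, G, id, hid, fun c hc => ⟨id, hid, hc, fun t => Or.inl rfl⟩⟩
  · refine ⟨MW G, inferInstance, MK G, mu G, mu_mor G, ?_⟩
    rintro ⟨⟨x, z, i0⟩, hc⟩ hx
    have hx' : x = b0 := hx
    subst hx'
    have hz : G.adj x z := hc
    refine ⟨mu' G x b1 z i0, mu'_mor hne hb hz, ?_, ?_⟩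
    · exact mu'_1 _ 1 G.H.one_mem ⟨rfl, rfl, Or.inr (Or.inr rfl)⟩
    · intro t
      rcases mu'_cases (b1 := b1) (i0 := i0) hz t with
        ⟨k, hk, ht, he⟩ | ⟨k, hk, ht, he⟩ | ⟨h1, h2, he⟩
      · right
        refine ⟨k, hk, Or.inr he, ?_⟩
        show G.adj t.1.1 _
        rw [ht.1]
        exact G.refl _
      · right
        refine ⟨k, hk, Or.inl he, ?_⟩
        show G.adj t.1.1 _
        rw [ht.2.2.1]
        exact G.symm _ _ (G.hadj k hk _ _ hz)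
      · left
        exact he

end Pool.B595.Arc
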