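import Pool.Agent.B595.Arc.Defs

set_option autoImplicit false


namespace Pool.B595.Arc

open Relation

/-! TARGET: prove this (auxiliary lemmas allowed before it) -/

section kill
variable {V : Type} {N : ℕ}

/-- the labellings -/
abbrev AA (V : Type) (N : ℕ) : Type :=
  {σ : V → V → Equiv.Perm (Fin N) // (∀ x y, σ x y * σ y x = 1) ∧ ∀ x, σ x x = 1}

abbrev QQ (V : Type) (N : ℕ) : Type := AA V N → Equiv.Perm (Fin N)

def cc (x y : V) : QQ V N := fun σ => σ.1 x y

theorem cc_mul (x y : V) : (cc x y * cc y x : QQ V N) = 1 := by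
  funext σ
  exact σ.2.1 x y

theorem cc_self (x : V) : (cc x x : QQ V N) = 1 := by
  funext σ
  exact σ.2.2 x

def tw (h : Equiv.Perm V) (σ : AA V N) : AA V N :=
  ⟨fun x y => σ.1 (h x) (h y), fun _ _ => σ.2.1 _ _, fun _ => σ.2.2 _⟩

def ac (h : Equiv.Perm V) (q : QQ V N) : QQ V N := fun σ => q (tw h σ)

theorem ac_one (q : QQ V N) : ac 1 q = q := rfl
theorem ac_mul (h h' : Equiv.Perm V) (q : QQ V N) : ac (h * h') q = ac h (ac h' q) := rfl
theorem ac_map_mul (h : Equiv.Perm V) (q q' : QQ V N) : ac h (q * q') = ac h q * ac h q' := rfl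
theorem ac_map_inv (h : Equiv.Perm V) (q : QQ V N) : ac h q⁻¹ = (ac h q)⁻¹ := rfl
theorem ac_map_one (h : Equiv.Perm V) : ac h (1 : QQ V N) = 1 := rfl
theorem ac_cc (h : Equiv.Perm V) (x y : V) : ac h (cc x y : QQ V N) = cc (h x) (h y) := rfl
theorem ac_inv_ac (h : Equiv.Perm V) (q : QQ V N) : ac h⁻¹ (ac h q) = q := by
  rw [← ac_mul, inv_mul_cancel, ac_one]
theorem ac_ac_inv (h : Equiv.Perm V) (q : QQ V N) : ac h (ac h⁻¹ q) = q := by
  rw [← ac_mul, mul_inv_cancel, ac_one]

abbrev WW (V : Type) (N : ℕ) : Type := V × QQ V N × Option (QQ V N)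

/-- basic edges -/
inductive RRkill (G : Obj V) (v0 : V) : WW V N → WW V N → Prop
  | cov (x y : V) (q : QQ V N) : G.adj x y → RRkill G v0 (x, q, none) (y, q * cc x y, none)
  | hair (x : V) (q s : QQ V N) : RRkill G v0 (x, q, none) (x, q, some s)
  | ext (x : V) (q s : QQ V N) : (∃ h ∈ G.H, x = h v0) → RRkill G v0 (x, q, some s) (x, q * s, none)

def KA (G : Obj V) (v0 : V) (a b : WW V N) : Prop := a = b ∨ RRkill G v0 a b ∨ RRkill G v0 b a

theorem KA.symm {G : Obj V} {v0 : V} {a b : WW V N} (h : KA G v0 a b) : KA G v0 b a := by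
  rcases h with h | h | h
  · exact Or.inl h.symm
  · exact Or.inr (Or.inr h)
  · exact Or.inr (Or.inl h)

def pm (h : Equiv.Perm V) (r : QQ V N) : Equiv.Perm (WW V N) where
  toFun w := (h w.1, r * ac h w.2.1, w.2.2.map (ac h))
  invFun w := (h⁻¹ w.1, ac h⁻¹ r⁻¹ * ac h⁻¹ w.2.1, w.2.2.map (ac h⁻¹))
  left_inv := by
    rintro ⟨x, q, o⟩
    refine Prod.ext ?_ (Prod.ext ?_ ?_)
    · exact Equiv.symm_apply_apply h x
    · show ac h⁻¹ r⁻¹ * ac h⁻¹ (r * ac h q) = q
      rw [ac_map_mul, ac_inv_ac, ac_map_inv, inv_mul_cancel_left]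
    · show (o.map (ac h)).map (ac h⁻¹) = o
      rw [Option.map_map]
      have : (ac h⁻¹ ∘ ac h : QQ V N → QQ V N) = id := by
        funext q; exact ac_inv_ac h q
      rw [this, Option.map_id]
      rfl
  right_inv := by
    rintro ⟨x, q, o⟩
    refine Prod.ext ?_ (Prod.ext ?_ ?_)
    · exact Equiv.apply_symm_apply h x
    · show r * ac h (ac h⁻¹ r⁻¹ * ac h⁻¹ q) = q
      rw [ac_map_mul, ac_ac_inv, ac_ac_inv, mul_inv_cancel_left]
    · show (o.map (ac h⁻¹)).map (ac h) = o
      rw [Option.map_map]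
      have : (ac h ∘ ac h⁻¹ : QQ V N → QQ V N) = id := by
        funext q; exact ac_ac_inv h q
      rw [this, Option.map_id]
      rfl

theorem pm_apply (h : Equiv.Perm V) (r : QQ V N) (x : V) (q : QQ V N) (o : Option (QQ V N)) :
    pm h r (x, q, o) = (h x, r * ac h q, o.map (ac h)) := rfl

theorem pm_mul (h h' : Equiv.Perm V) (r r' : QQ V N) :
    pm h r * pm h' r' = pm (h * h') (r * ac h r') := by
  ext1 ⟨x, q, o⟩
  show pm h r (pm h' r' (x, q, o)) = _
  rw [pm_apply, pm_apply, pm_apply]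
  refine Prod.ext rfl (Prod.ext ?_ ?_)
  · show r * ac h (r' * ac h' q) = r * ac h r' * ac (h * h') q
    rw [ac_map_mul, ac_mul, mul_assoc]
  · show (o.map (ac h')).map (ac h) = o.map (ac (h * h'))
    rw [Option.map_map]
    rfl

theorem pm_one : pm (1 : Equiv.Perm V) (1 : QQ V N) = 1 := by
  ext1 ⟨x, q, o⟩
  rw [pm_apply]
  refine Prod.ext rfl (Prod.ext ?_ ?_)
  · show 1 * ac 1 q = q
    rw [one_mul, ac_one]
  · show o.map (ac 1) = o
    have : (ac 1 : QQ V N → QQ V N) = id := by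
      funext q; exact ac_one q
    rw [this, Option.map_id]
    rfl

/-- the group upstairs -/
def HH (G : Obj V) (N : ℕ) : Subgroup (Equiv.Perm (WW V N)) where
  carrier := {π | ∃ h ∈ G.H, ∃ r : QQ V N, π = pm h r}
  mul_mem' := by
    rintro _ _ ⟨h, hh, r, rfl⟩ ⟨h', hh', r', rfl⟩
    exact ⟨h * h', G.H.mul_mem hh hh', _, pm_mul _ _ _ _⟩
  one_mem' := ⟨1, G.H.one_mem, 1, pm_one.symm⟩
  inv_mem' := by
    rintro _ ⟨h, hh, r, rfl⟩
    refine ⟨h⁻¹, G.H.inv_mem hh, ac h⁻¹ r⁻¹, ?_⟩
    rw [inv_eq_iff_mul_eq_one, pm_mul, mul_inv_cancel, ac_ac_inv, mul_inv_cancel, pm_one]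

theorem RR_pm {G : Obj V} {v0 : V} {h : Equiv.Perm V} (hh : h ∈ G.H) (r : QQ V N) {a b : WW V N}
    (hab : RRkill G v0 a b) : RRkill G v0 (pm h r a) (pm h r b) := by
  rcases hab with ⟨x, y, q, hxy⟩ | ⟨x, q, s⟩ | ⟨x, q, s, h', hh', hx⟩
  · rw [pm_apply, pm_apply, ac_map_mul, ac_cc, ← mul_assoc]
    exact RRkill.cov _ _ _ (G.hadj h hh x y hxy)
  · exact RRkill.hair _ _ _
  · rw [pm_apply, pm_apply, ac_map_mul, ← mul_assoc]
    refine RRkill.ext _ _ _ ⟨h * h', G.H.mul_mem hh hh', ?_⟩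
    rw [hx]
    rfl

theorem KA_fst {G : Obj V} {v0 : V} {a b : WW V N} (h : KA G v0 a b) : G.adj a.1 b.1 := by
  have key : ∀ a b : WW V N, RRkill G v0 a b → G.adj a.1 b.1 := by
    intro a b hab
    rcases hab with ⟨x, y, q, hxy⟩ | ⟨x, q, s⟩ | ⟨x, q, s, h', hh', hx⟩
    · exact hxy
    · exact G.refl x
    · exact G.refl x
  rcases h with h | h | h
  · rw [h]; exact G.refl _
  · exact key _ _ h
  · exact G.symm _ _ (key _ _ h)

theorem KA_free {G : Obj V} {v0 : V} {h : Equiv.Perm V} (hh : h ∈ G.H) (r : QQ V N) {a : WW V N}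
    (hab : KA G v0 a (pm h r a)) : pm h r = 1 := by
  have h1 : h = 1 := G.free h hh a.1 (KA_fst hab)
  subst h1
  suffices hr : r = 1 by rw [hr, pm_one]
  obtain ⟨x, q, o⟩ := a
  rw [pm_apply, ac_one] at hab
  have hx : (1 : Equiv.Perm V) x = x := rfl
  have ho : o.map (ac 1 : QQ V N → QQ V N) = o := by
    have : (ac 1 : QQ V N → QQ V N) = id := by
      funext q; exact ac_one q
    rw [this, Option.map_id]
    rfl
  rw [hx, ho] at hab
  have key : ∀ q q' : QQ V N, RRkill G v0 (x, q, o) (x, q', o) → q' = q := by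
    intro q q' h
    generalize ha : ((x, q, o) : WW V N) = a at h
    generalize hb : ((x, q', o) : WW V N) = b at h
    rcases h with ⟨x1, y1, q1, hxy⟩ | ⟨x1, q1, s⟩ | ⟨x1, q1, s, h', hh', hx1⟩
    · simp only [Prod.mk.injEq] at ha hb
      obtain ⟨rfl, rfl, -⟩ := ha
      obtain ⟨rfl, rfl, -⟩ := hb
      rw [cc_self, mul_one]
    · simp only [Prod.mk.injEq] at ha hb
      rw [ha.2.2] at hb
      exact absurd hb.2.2 (by simp)
    · simp only [Prod.mk.injEq] at ha hb
      rw [ha.2.2] at hb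
      exact absurd hb.2.2 (by simp)
  have hq : r * q = q := by
    rcases hab with h | h | h
    · simp only [Prod.mk.injEq] at h
      exact h.2.1.symm
    · exact key _ _ h
    · exact (key _ _ h).symm
  exact mul_eq_right.1 hq

/-- the walk lemmas -/
theorem cons_wk {W : Type} {K : Obj W} {l : List W} {a a1 b : W} (h : Wk K l a1 b)
    (hadj : K.adj a a1) : Wk K (a :: l) a b := by
  obtain ⟨h1, h2, h3⟩ := h
  cases l with
  | nil => simp at h2
  | cons c l =>
    simp only [List.head?_cons, Option.some.injEq] at h2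
    subst h2
    refine ⟨?_, rfl, ?_⟩
    · rw [List.isChain_cons_cons]
      exact ⟨hadj, h1⟩
    · rw [List.getLast?_cons_cons]
      exact h3

theorem cons_stay {W : Type} {r : W → W → Prop} {f : W → V} {l : List W} {m : List V} {a a1 : W}
    (h : Ov r f l m) (hh : l.head? = some a1) (hr : r a a1) (hf : f a = f a1) :
    Ov r f (a :: l) m := by
  cases l with
  | nil => simp at hh
  | cons c l =>
    simp only [List.head?_cons, Option.some.injEq] at hh
    subst hh
    exact Ov.stay _ _ _ _ hr hf h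

theorem cons_step {W : Type} {r : W → W → Prop} {f : W → V} {l : List W} {m : List V} {a a1 : W}
    (h : Ov r f l m) (hh : l.head? = some a1) (hr : r a a1) :
    Ov r f (a :: l) (f a :: m) := by
  cases l with
  | nil => simp at hh
  | cons c l =>
    simp only [List.head?_cons, Option.some.injEq] at hh
    subst hh
    exact Ov.step _ _ _ _ hr h

theorem KA_conn (G : Obj V) (v0 : V) (a b : WW V N) : ReflTransGen (KA G v0) a b := by
  have hsymm : ∀ {a b : WW V N}, ReflTransGen (KA G v0) a b → ReflTransGen (KA G v0) b a := by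
    intro a b h
    induction h with
    | refl => exact ReflTransGen.refl
    | tail _ h1 ih => exact ReflTransGen.head h1.symm ih
  -- to the base vertex
  have h1 : ∀ a : WW V N, ∃ q : QQ V N, ReflTransGen (KA G v0) a (v0, q, none) := by
    rintro ⟨x, q, o⟩
    have h2 : ReflTransGen (KA G v0) ((x, q, o) : WW V N) (x, q, none) := by
      cases o with
      | none => exact ReflTransGen.refl
      | some s => exact ReflTransGen.single (Or.inr (Or.inr (RRkill.hair _ _ _)))
    have h3 : ∀ y, ReflTransGen G.adj x y → ∃ q' : QQ V N,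
        ReflTransGen (KA G v0) ((x, q, none) : WW V N) (y, q', none) := by
      intro y hy
      induction hy with
      | refl => exact ⟨q, ReflTransGen.refl⟩
      | tail _ hbc ih =>
        obtain ⟨q', hq'⟩ := ih
        exact ⟨_, hq'.tail (Or.inr (Or.inl (RRkill.cov _ _ _ hbc)))⟩
    obtain ⟨q', hq'⟩ := h3 v0 (G.conn x v0)
    exact ⟨q', h2.trans hq'⟩
  obtain ⟨q1, hq1⟩ := h1 a
  obtain ⟨q2, hq2⟩ := h1 b
  have h4 : ReflTransGen (KA G v0) ((v0, q1, none) : WW V N) (v0, q2, none) := by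
    have e : q2 = q1 * (q1⁻¹ * q2) := by rw [mul_inv_cancel_left]
    have s1 : KA G v0 ((v0, q1, none) : WW V N) (v0, q1, some (q1⁻¹ * q2)) :=
      Or.inr (Or.inl (RRkill.hair _ _ _))
    have s2 : KA G v0 ((v0, q1, some (q1⁻¹ * q2)) : WW V N) (v0, q2, none) := by
      refine Or.inr (Or.inl ?_)
      conv_rhs => rw [e]
      exact RRkill.ext _ _ _ ⟨1, G.H.one_mem, rfl⟩
    exact (ReflTransGen.single s1).tail s2
  exact hq1.trans (h4.trans (hsymm hq2))

/-- the object upstairs -/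
def KK (G : Obj V) (N : ℕ) (v0 : V) : Obj (WW V N) where
  adj := KA G v0
  refl := fun _ => Or.inl rfl
  symm := fun _ _ h => h.symm
  H := HH G N
  hadj := by
    rintro _ ⟨h, hh, r, rfl⟩ a b hab
    rcases hab with h1 | h1 | h1
    · exact Or.inl (by rw [h1])
    · exact Or.inr (Or.inl (RR_pm hh r h1))
    · exact Or.inr (Or.inr (RR_pm hh r h1))
  free := by
    rintro _ ⟨h, hh, r, rfl⟩ a hab
    exact KA_free hh r hab
  conn := KA_conn G v0

theorem lift1 (G : Obj V) (v0 : V) (m : List V) : ∀ x y : V, Wk G m x y → ∃ g : QQ V N,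
    ∀ (q : QQ V N) (o : Option (QQ V N)), ∃ l, Wk (KK G N v0) l (x, q, none) (y, q * g, o) ∧
      Ov (KK G N v0).adj Prod.fst l m := by
  induction m with
  | nil =>
    intro x y h
    exact absurd h.2.1 (by simp)
  | cons z m ih =>
    intro x y h
    obtain ⟨h1, h2, h3⟩ := h
    simp only [List.head?_cons, Option.some.injEq] at h2
    subst h2
    cases m with
    | nil =>
      simp only [List.getLast?_singleton, Option.some.injEq] at h3
      subst h3
      refine ⟨1, fun q o => ?_⟩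
      rw [mul_one]
      cases o with
      | none => exact ⟨[(z, q, none)], ⟨List.isChain_singleton _, rfl, rfl⟩, Ov.single _⟩
      | some s =>
        have hb : Wk (KK G N v0) [((z, q, some s) : WW V N)] (z, q, some s) (z, q, some s) :=
          ⟨List.isChain_singleton _, rfl, rfl⟩
        have hadj : (KK G N v0).adj (z, q, none) (z, q, some s) := Or.inr (Or.inl (RRkill.hair _ _ _))
        exact ⟨_, cons_wk hb hadj, cons_stay (Ov.single (f := Prod.fst) _) rfl hadj rfl⟩
    | cons u m =>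
      rw [List.isChain_cons_cons] at h1
      rw [List.getLast?_cons_cons] at h3
      obtain ⟨g, hg⟩ := ih u y ⟨h1.2, rfl, h3⟩
      refine ⟨cc z u * g, fun q o => ?_⟩
      obtain ⟨l, hl1, hl2⟩ := hg (q * cc z u) o
      have hadj : (KK G N v0).adj (z, q, none) (u, q * cc z u, none) :=
        Or.inr (Or.inl (RRkill.cov _ _ _ h1.1))
      refine ⟨_, ?_, cons_step hl2 hl1.2.1 hadj⟩
      rw [← mul_assoc]
      exact cons_wk hl1 hadj

theorem lift2 (G : Obj V) (v0 : V) (m : List V) : ∀ x y : V, Wk G m x y →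
    (∃ h ∈ G.H, h v0 ∈ m) → ∀ (q q' : QQ V N) (o : Option (QQ V N)),
      ∃ l, Wk (KK G N v0) l (x, q, none) (y, q', o) ∧ Ov (KK G N v0).adj Prod.fst l m := by
  induction m with
  | nil =>
    intro x y h
    exact absurd h.2.1 (by simp)
  | cons z m ih =>
    intro x y h hv q q' o
    have hw := h
    obtain ⟨h1, h2, h3⟩ := h
    simp only [List.head?_cons, Option.some.injEq] at h2
    subst h2
    by_cases hz : ∃ h ∈ G.H, z = h v0
    · obtain ⟨g, hg⟩ := lift1 (N := N) G v0 (z :: m) z y hw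
      obtain ⟨l, hl1, hl2⟩ := hg (q * (q⁻¹ * (q' * g⁻¹))) o
      have e : q * (q⁻¹ * (q' * g⁻¹)) * g = q' := by
        rw [mul_inv_cancel_left, inv_mul_cancel_right]
      rw [e] at hl1
      have a1 : (KK G N v0).adj (z, q, none) (z, q, some (q⁻¹ * (q' * g⁻¹))) :=
        Or.inr (Or.inl (RRkill.hair _ _ _))
      have a2 : (KK G N v0).adj (z, q, some (q⁻¹ * (q' * g⁻¹)))
          (z, q * (q⁻¹ * (q' * g⁻¹)), none) := Or.inr (Or.inl (RRkill.ext _ _ _ hz))
      have w2 := cons_wk hl1 a2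
      exact ⟨_, cons_wk w2 a1, cons_stay (cons_stay hl2 hl1.2.1 a2 rfl) w2.2.1 a1 rfl⟩
    · obtain ⟨h, hh, hmem⟩ := hv
      rw [List.mem_cons] at hmem
      rcases hmem with hmem | hmem
      · exact absurd ⟨h, hh, hmem.symm⟩ hz
      · cases m with
        | nil => simp at hmem
        | cons u m =>
          rw [List.isChain_cons_cons] at h1
          rw [List.getLast?_cons_cons] at h3
          obtain ⟨l, hl1, hl2⟩ := ih u y ⟨h1.2, rfl, h3⟩ ⟨h, hh, hmem⟩ (q * cc z u) q' o
          have hadj : (KK G N v0).adj (z, q, none) (u, q * cc z u, none) :=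
            Or.inr (Or.inl (RRkill.cov _ _ _ h1.1))
          exact ⟨_, cons_wk hl1 hadj, cons_step hl2 hl1.2.1 hadj⟩

theorem KA_q {G : Obj V} {v0 : V} {a b : WW V N} (h : KA G v0 a b)
    (hb : ∀ h ∈ G.H, b.1 ≠ h v0) : b.2.1 = a.2.1 * cc a.1 b.1 := by
  rcases h with h | h | h
  · rw [h, cc_self, mul_one]
  · rcases h with ⟨x, y, q, hxy⟩ | ⟨x, q, s⟩ | ⟨x, q, s, h', hh', hx⟩
    · rfl
    · show q = q * cc x x
      rw [cc_self, mul_one]
    · exact absurd hx (hb h' hh')
  · rcases h with ⟨x, y, q, hxy⟩ | ⟨x, q, s⟩ | ⟨x, q, s, h', hh', hx⟩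
    · show q = q * cc x y * cc y x
      rw [mul_assoc, cc_mul, mul_one]
    · show q = q * cc x x
      rw [cc_self, mul_one]
    · exact absurd hx (hb h' hh')

end kill

theorem kill {V : Type} [Finite V] (G : Obj V) (N : ℕ) (v0 : V) :
    ∃ (W : Type) (_ : Finite W) (K : Obj W) (f : W → V), Mor K G f ∧
      ∀ (k : ℕ) (w : ℕ → W), (∀ i < k, K.adj (w i) (w (i + 1))) → w k = w 0 →
        (∀ i ≤ k, ∀ h ∈ G.H, f (w i) ≠ h v0) →
        ∀ σ : V → V → Equiv.Perm (Fin N), (∀ x y, σ x y * σ y x = 1) → (∀ x, σ x x = 1) →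
          ((List.range k).map (fun i => σ (f (w i)) (f (w (i + 1))))).prod = 1 := by
  refine ⟨WW V N, inferInstance, KK G N v0, Prod.fst, ?_, ?_⟩
  · refine ⟨fun a b h => KA_fst h, ?_, ?_, ?_, ?_, ?_⟩
    · intro x y hxy
      exact ⟨(x, 1, none), (y, 1 * cc x y, none), Or.inr (Or.inl (RRkill.cov _ _ _ hxy)), rfl, rfl⟩
    · rintro _ ⟨h, hh, r, rfl⟩
      exact ⟨h, hh, fun _ => rfl⟩
    · intro h hh
      exact ⟨pm h 1, ⟨h, hh, 1, rfl⟩, fun _ => rfl⟩
    · rintro ⟨x, q, o⟩ ⟨x', q', o'⟩ hxx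
      have hxx' : x = x' := hxx
      subst hxx'
      refine ⟨pm 1 (q * q'⁻¹), ⟨1, G.H.one_mem, _, rfl⟩, fun _ => rfl, ?_⟩
      have e : pm (1 : Equiv.Perm V) (q * q'⁻¹) (x, q', o') = (x, q, o') := by
        rw [pm_apply]
        refine Prod.ext rfl (Prod.ext ?_ ?_)
        · show q * q'⁻¹ * ac 1 q' = q
          rw [ac_one, inv_mul_cancel_right]
        · show o'.map (ac 1) = o'
          have : (ac 1 : QQ V N → QQ V N) = id := by
            funext q; exact ac_one q
          rw [this, Option.map_id]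
          rfl
      rw [e]
      have t1 : CIn (KK G N v0) (Prod.fst ⁻¹' {x}) ((x, q, o) : WW V N) (x, q, none) := by
        cases o with
        | none => exact ReflTransGen.refl
        | some s =>
          exact ReflTransGen.single ⟨rfl, rfl, Or.inr (Or.inr (RRkill.hair _ _ _))⟩
      have t2 : CIn (KK G N v0) (Prod.fst ⁻¹' {x}) ((x, q, none) : WW V N) (x, q, o') := by
        cases o' with
        | none => exact ReflTransGen.refl
        | some s =>
          exact ReflTransGen.single ⟨rfl, rfl, Or.inr (Or.inl (RRkill.hair _ _ _))⟩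
      exact t1.trans t2
    · rintro ⟨x, q, o⟩ ⟨y, q', o'⟩ m hm hex
      obtain ⟨l, hl1, hl2⟩ := lift2 (N := N) G v0 m x y hm (hex v0) q q' o'
      cases o with
      | none => exact ⟨l, hl1, hl2⟩
      | some s =>
        have a1 : (KK G N v0).adj (x, q, some s) (x, q, none) :=
          Or.inr (Or.inr (RRkill.hair _ _ _))
        exact ⟨_, cons_wk hl1 a1, cons_stay hl2 hl1.2.1 a1 rfl⟩
  · intro k w hadj hcl hav σ hσ1 hσ2
    have key : ∀ i ≤ k, (w i).2.1 = (w 0).2.1 *
        ((List.range i).map (fun j => (cc (w j).1 (w (j + 1)).1 : QQ V N))).prod := by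
      intro i
      induction i with
      | zero => intro _; simp
      | succ i ih =>
        intro hi
        have h1 := KA_q (hadj i (by omega)) (fun h hh => hav (i + 1) hi h hh)
        rw [List.prod_range_succ, ← mul_assoc, ← ih (by omega)]
        exact h1
    have h1 := key k le_rfl
    rw [hcl] at h1
    have h2 : ((List.range k).map (fun j => (cc (w j).1 (w (j + 1)).1 : QQ V N))).prod = 1 :=
      (mul_eq_left.1 h1.symm)
    have h3 := congrFun h2 ⟨σ, hσ1, hσ2⟩
    have h4 := map_list_prod (Pi.evalMonoidHom (fun _ : AA V N => Equiv.Perm (Fin N))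
      ⟨σ, hσ1, hσ2⟩) ((List.range k).map (fun j => (cc (w j).1 (w (j + 1)).1 : QQ V N)))
    rw [List.map_map] at h4
    have h5 : (Pi.evalMonoidHom (fun _ : AA V N => Equiv.Perm (Fin N)) ⟨σ, hσ1, hσ2⟩)
      ((List.range k).map (fun j => (cc (w j).1 (w (j + 1)).1 : QQ V N))).prod = 1 := h3
    rw [h5] at h4
    exact h4.symm

end Pool.B595.Arc
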