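import Pool.Agent.B595.Arc.Defs2
import Pool.Agent.B595.Arc.JComp
import Pool.Agent.B595.Arc.JOfconn
import Pool.Agent.B595.Arc.JKill

set_option autoImplicit false


namespace Pool.B595.Arc

open Relation


/-! The following statements are already proved elsewhere: use them freely, do not prove them. -/




/-! TARGET: prove this (auxiliary lemmas allowed before it) -/

theorem proj (T : Tower) (m n : ℕ) (h : m ≤ n) : ∃ P : T.V n → T.V m,
    Mor (T.G n) (T.G m) P ∧ ∀ x : Thr T.p, P (x.1 n) = x.1 m := by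
  induction n, h using Nat.le_induction with
  | base =>
    refine ⟨id, ?_, fun x => rfl⟩
    apply Mor.of_conn
    · intro x y h; exact h
    · intro x y h; exact ⟨x, y, h, rfl, rfl⟩
    · intro h hh; exact ⟨h, hh, fun x => rfl⟩
    · intro h hh; exact ⟨h, hh, fun x => rfl⟩
    · intro x y h
      have h' : x = y := h
      subst h'
      exact ReflTransGen.refl
  | succ n hmn ih =>
    obtain ⟨P, hP, hx⟩ := ih
    have := T.fin n
    refine ⟨P ∘ T.p n, Mor.comp hP (T.mor n), ?_⟩
    intro x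
    show P (T.p n (x.1 (n + 1))) = x.1 m
    rw [x.2 n, hx]

theorem kill_thread (T : Tower) (n N : ℕ) (v0 : T.V n) :
    ∃ m, n < m ∧ ∃ π : T.V m → T.V n, (∀ x : Thr T.p, π (x.1 m) = x.1 n) ∧
      ∀ (k : ℕ) (w : ℕ → T.V m), (∀ i < k, (T.G m).adj (w i) (w (i + 1))) → w k = w 0 →
        (∀ i ≤ k, ∀ h ∈ (T.G n).H, π (w i) ≠ h v0) →
        ∀ σ : T.V n → T.V n → Equiv.Perm (Fin N), (∀ x y, σ x y * σ y x = 1) →
          (∀ x, σ x x = 1) →
          ((List.range k).map (fun i => σ (π (w i)) (π (w (i + 1))))).prod = 1 := by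
  have := T.fin n
  obtain ⟨W, hW, K, f, hf, hkill⟩ := kill (T.G n) N v0
  obtain ⟨m, -, hnm, g, hg, hx⟩ := T.ext n N W hW K f hf
  refine ⟨m, hnm, f ∘ g, hx, ?_⟩
  intro k w hw hcl hav σ hσ1 hσ2
  exact hkill k (fun i => g (w i)) (fun i hi => hg.hom _ _ (hw i hi))
    (by show g (w k) = g (w 0); rw [hcl]) hav σ hσ1 hσ2

theorem exists_thread {V : ℕ → Type} (p : ∀ n, V (n + 1) → V n)
    (surj : ∀ n, Function.Surjective (p n)) (n : ℕ) (v : V n) : ∃ x : Thr p, x.1 n = v := by
  induction n generalizing V p with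
  | zero =>
    refine ⟨⟨fun k => Nat.rec v (fun k xk => (surj k xk).choose) k, ?_⟩, rfl⟩
    intro k
    exact (surj k _).choose_spec
  | succ n ih =>
    obtain ⟨x, hx⟩ := ih (V := fun k => V (k + 1)) (fun k => p (k + 1)) (fun k => surj (k + 1)) v
    refine ⟨⟨fun k => match k with
      | 0 => p 0 (x.1 0)
      | k + 1 => x.1 k, ?_⟩, hx⟩
    intro k
    cases k with
    | zero => rfl
    | succ k => exact x.2 k

end Pool.B595.Arc
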