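import Pool.Agent.B595.Arc.Defs
import Pool.Agent.B595.Arc.JWalks

set_option autoImplicit false


namespace Pool.B595.Arc

open Relation

/-! The following statements are already proved elsewhere: use them freely, do not prove them. -/


/-! TARGET: prove this (auxiliary lemmas allowed before it) -/

theorem Ov.pb_chain {W V : Type} {r : W → W → Prop} {f : W → V} {l : List W} {m : List V}
    (h : Ov r f l m) : l.IsChain r := by
  induction h with
  | single b => exact List.IsChain.singleton b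
  | stay b c l m hr _ _ ih => exact List.IsChain.cons_cons hr ih
  | step b c l m hr _ ih => exact List.IsChain.cons_cons hr ih

theorem Ov.pb_head {W V : Type} {r : W → W → Prop} {f : W → V} {l : List W} {m : List V}
    (h : Ov r f l m) : m.head? = l.head?.map f := by
  induction h with
  | single b => rfl
  | stay b c l m _ he _ ih => rw [ih]; simp [he]
  | step b c l m _ _ _ => rfl

theorem Ov.pb_last {W V : Type} {r : W → W → Prop} {f : W → V} {l : List W} {m : List V}
    (h : Ov r f l m) : m.getLast? = l.getLast?.map f := by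
  induction h with
  | single b => rfl
  | stay b c l m _ _ _ ih => rw [ih]; simp
  | step b c l m _ h ih =>
    have hm : m ≠ [] := by
      intro h0
      have := h.pb_head
      rw [h0] at this
      simp at this
    obtain ⟨a, m', rfl⟩ := List.exists_cons_of_ne_nil hm
    rw [List.getLast?_cons_cons, ih, List.getLast?_cons_cons]

theorem pb_zip {A B C D : Type} (rB : B → B → Prop) (rC : C → C → Prop) (rD : D → D → Prop)
    (f : B → A) (g : C → A) (p : D → B) (q : D → C) (hrefl : ∀ b, rB b b)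
    (hfg : ∀ d, f (p d) = g (q d)) (mk : ∀ b c, f b = g c → ∃ d, p d = b ∧ q d = c)
    (hr : ∀ d d', rB (p d) (p d') → rC (q d) (q d') → rD d d') (γ : List C) (m : List A)
    (h : Ov rC g γ m) : ∀ β : List B, β.map f = m → β.IsChain rB →
      ∃ δ : List D, δ.map q = γ ∧ Ov rD p δ β := by
  induction h with
  | single c =>
    intro β hβ _
    obtain ⟨b, rfl⟩ : ∃ b, β = [b] := by
      have hl : β.length = 1 := by
        have := congrArg List.length hβ
        simpa using this
      exact List.length_eq_one_iff.mp hl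
    have hb : f b = g c := by simpa using hβ
    obtain ⟨d, hd1, hd2⟩ := mk b c hb
    refine ⟨[d], by simp [hd2], ?_⟩
    rw [← hd1]
    exact Ov.single d
  | stay c c' l m hcc hg _ ih =>
    intro β hβ hch
    obtain ⟨δ', h1, h2⟩ := ih β hβ hch
    have hne : δ' ≠ [] := by
      intro h0; rw [h0] at h1; simp at h1
    obtain ⟨d', δ'', rfl⟩ := List.exists_cons_of_ne_nil hne
    rw [List.map_cons, List.cons.injEq] at h1
    have hfd : f (p d') = g c := by rw [hfg, h1.1, hg]
    obtain ⟨d, hd1, hd2⟩ := mk (p d') c hfd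
    refine ⟨d :: d' :: δ'', ?_, ?_⟩
    · simp [hd2, h1.1, h1.2]
    · apply Ov.stay d d' δ'' β _ hd1 h2
      apply hr
      · rw [hd1]; exact hrefl _
      · rw [hd2, h1.1]; exact hcc
  | step c c' l m hcc hov ih =>
    intro β hβ hch
    have hβne : β ≠ [] := by
      intro h0; rw [h0] at hβ; simp at hβ
    obtain ⟨b, β', rfl⟩ := List.exists_cons_of_ne_nil hβne
    rw [List.map_cons, List.cons.injEq] at hβ
    have hch' : β'.IsChain rB := hch.tail
    obtain ⟨δ', h1, h2⟩ := ih β' hβ.2 hch'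
    have hne : δ' ≠ [] := by
      intro h0; rw [h0] at h1; simp at h1
    obtain ⟨d', δ'', rfl⟩ := List.exists_cons_of_ne_nil hne
    rw [List.map_cons, List.cons.injEq] at h1
    obtain ⟨d, hd1, hd2⟩ := mk b c hβ.1
    refine ⟨d :: d' :: δ'', ?_, ?_⟩
    · simp [hd2, h1.1, h1.2]
    · rw [← hd1]
      apply Ov.step d d' δ'' β' _ h2
      have hh := h2.pb_head
      have hβ' : β' ≠ [] := by
        intro h0; rw [h0] at hh; simp at hh
      obtain ⟨b', β'', rfl⟩ := List.exists_cons_of_ne_nil hβ'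
      have hb' : b' = p d' := by simpa using hh
      apply hr
      · rw [hd1, ← hb']
        exact (List.isChain_cons_cons.mp hch).1
      · rw [hd2, h1.1]; exact hcc

theorem pb_lift {A B C D : Type} {GA : Obj A} {GB : Obj B} {GC : Obj C}
    {f : B → A} {g : C → A} (hf : Mor GB GA f) (hg : Mor GC GA g) (rD : D → D → Prop)
    (p : D → B) (q : D → C)
    (hfg : ∀ d, f (p d) = g (q d)) (mk : ∀ b c, f b = g c → ∃ d, p d = b ∧ q d = c)
    (inj : ∀ d d', p d = p d' → q d = q d' → d = d')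
    (hr : ∀ d d', GB.adj (p d) (p d') → GC.adj (q d) (q d') → rD d d')
    (x y : D) (β : List B) (hβ : Wk GB β (p x) (p y)) (hE : Exh GB β) :
    ∃ l : List D, (l.IsChain rD ∧ l.head? = some x ∧ l.getLast? = some y) ∧ Ov rD p l β := by
  have hW : Wk GA (β.map f) (g (q x)) (g (q y)) := by
    obtain ⟨w1, w2, w3⟩ := hβ
    refine ⟨?_, ?_, ?_⟩
    · rw [List.isChain_map]
      exact w1.imp (fun a b h => hf.hom a b h)
    · rw [List.head?_map, w2, ← hfg]; rfl
    · rw [List.getLast?_map, w3, ← hfg]; rfl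
  have hE' : Exh GA (β.map f) := by
    intro v
    obtain ⟨x', y', _, hx', _⟩ := hf.edge v v (GA.refl v)
    obtain ⟨h, hh, hm⟩ := hE x'
    obtain ⟨k, hk, hk'⟩ := hf.eq1 h hh
    refine ⟨k, hk, ?_⟩
    rw [← hx', ← hk']
    exact List.mem_map_of_mem hm
  obtain ⟨γ, hγ, hOv⟩ := hg.lift (q x) (q y) (β.map f) hW hE'
  obtain ⟨δ, hδ1, hδ2⟩ := pb_zip GB.adj GC.adj rD f g p q GB.refl hfg mk hr γ (β.map f) hOv β rfl hβ.1
  refine ⟨δ, ⟨hδ2.pb_chain, ?_, ?_⟩, hδ2⟩
  · have h1 := hδ2.pb_head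
    rw [hβ.2.1] at h1
    have h2 : δ.head?.map q = some (q x) := by
      rw [← List.head?_map, hδ1]; exact hγ.2.1
    cases hd : δ.head? with
    | none => rw [hd] at h1; simp at h1
    | some d =>
      rw [hd] at h1 h2
      simp only [Option.map_some, Option.some.injEq] at h1 h2
      rw [inj d x h1.symm h2]
  · have h1 := hδ2.pb_last
    rw [hβ.2.2] at h1
    have h2 : δ.getLast?.map q = some (q y) := by
      rw [← List.getLast?_map, hδ1]; exact hγ.2.2
    cases hd : δ.getLast? with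
    | none => rw [hd] at h1; simp at h1
    | some d =>
      rw [hd] at h1 h2
      simp only [Option.map_some, Option.some.injEq] at h1 h2
      rw [inj d y h1.symm h2]

theorem pb_conn {D : Type} (r : D → D → Prop) (l : List D) (hl : l.IsChain r) :
    ∀ x y, l.head? = some x → l.getLast? = some y → ReflTransGen r x y := by
  induction l with
  | nil => intro x y h; simp at h
  | cons a l ih =>
    intro x y hx hy
    have hax : a = x := by simpa using hx
    subst hax
    cases l with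
    | nil =>
      have : a = y := by simpa using hy
      subst this
      exact ReflTransGen.refl
    | cons b l =>
      rw [List.isChain_cons_cons] at hl
      rw [List.getLast?_cons_cons] at hy
      exact ReflTransGen.head hl.1 (ih hl.2 b y rfl hy)

/-- all of the data of a fibre product -/
structure PB {A B C D : Type} (GA : Obj A) (GB : Obj B) (GC : Obj C) (DO : Obj D)
    (f : B → A) (g : C → A) (p : D → B) (q : D → C) : Prop where
  hfg : ∀ d, f (p d) = g (q d)
  cons : ∀ b c, f b = g c → ∃ d, p d = b ∧ q d = c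
  inj : ∀ d d', p d = p d' → q d = q d' → d = d'
  adj : ∀ d d', DO.adj d d' ↔ GB.adj (p d) (p d') ∧ GC.adj (q d) (q d')
  mem : ∀ π : Equiv.Perm D, π ∈ DO.H ↔ ∃ h ∈ GB.H, ∃ k ∈ GC.H, ∀ d, p (π d) = h (p d) ∧ q (π d) = k (q d)

theorem PB.swap {A B C D : Type} {GA : Obj A} {GB : Obj B} {GC : Obj C} {DO : Obj D}
    {f : B → A} {g : C → A} {p : D → B} {q : D → C} (h : PB GA GB GC DO f g p q) :
    PB GA GC GB DO g f q p where
  hfg := fun d => (h.hfg d).symm
  cons := fun c b hh => by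
    obtain ⟨d, h1, h2⟩ := h.cons b c hh.symm
    exact ⟨d, h2, h1⟩
  inj := fun d d' h1 h2 => h.inj d d' h2 h1
  adj := fun d d' => by rw [h.adj]; exact and_comm
  mem := fun π => by
    rw [h.mem]
    constructor
    · rintro ⟨a, ha, k, hk, hd⟩
      exact ⟨k, hk, a, ha, fun d => ⟨(hd d).2, (hd d).1⟩⟩
    · rintro ⟨a, ha, k, hk, hd⟩
      exact ⟨k, hk, a, ha, fun d => ⟨(hd d).2, (hd d).1⟩⟩

theorem PB.perm {A B C D : Type} [Finite D] {GA : Obj A} {GB : Obj B} {GC : Obj C} {DO : Obj D}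
    {f : B → A} {g : C → A} {p : D → B} {q : D → C} (H : PB GA GB GC DO f g p q)
    (h : Equiv.Perm B) (hh : h ∈ GB.H) (k : Equiv.Perm C) (hk : k ∈ GC.H)
    (hc : ∀ d, f (h (p d)) = g (k (q d))) :
    ∃ π ∈ DO.H, ∀ d, p (π d) = h (p d) ∧ q (π d) = k (q d) := by
  choose φ h1 h2 using fun d => H.cons (h (p d)) (k (q d)) (hc d)
  have hinj : Function.Injective φ := by
    intro a b hab
    apply H.inj
    · apply h.injective
      rw [← h1 a, ← h1 b, hab]
    · apply k.injective
      rw [← h2 a, ← h2 b, hab]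
  have hbij : Function.Bijective φ := (Finite.injective_iff_bijective).mp hinj
  refine ⟨Equiv.ofBijective φ hbij, ?_, fun d => ⟨h1 d, h2 d⟩⟩
  rw [H.mem]
  exact ⟨h, hh, k, hk, fun d => ⟨h1 d, h2 d⟩⟩

theorem PB.mor {A B C D : Type} [Finite D] {GA : Obj A} {GB : Obj B} {GC : Obj C} {DO : Obj D}
    {f : B → A} {g : C → A} {p : D → B} {q : D → C} (H : PB GA GB GC DO f g p q)
    (hf : Mor GB GA f) (hg : Mor GC GA g) : Mor DO GB p where
  hom := fun x y h => ((H.adj x y).mp h).1
  edge := fun x y h => by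
    obtain ⟨c, c', h1, h2, h3⟩ := hg.edge (f x) (f y) (hf.hom x y h)
    obtain ⟨d, hd1, hd2⟩ := H.cons x c h2.symm
    obtain ⟨d', hd1', hd2'⟩ := H.cons y c' h3.symm
    refine ⟨d, d', ?_, hd1, hd1'⟩
    rw [H.adj, hd1, hd2, hd1', hd2']
    exact ⟨h, h1⟩
  eq1 := fun π hπ => by
    obtain ⟨h, hh, k, hk, hd⟩ := (H.mem π).mp hπ
    exact ⟨h, hh, fun d => (hd d).1⟩
  eq2 := fun h hh => by
    obtain ⟨l, hl, hl'⟩ := hf.eq1 h hh
    obtain ⟨k, hk, hk'⟩ := hg.eq2 l hl
    obtain ⟨π, hπ, hd⟩ := H.perm h hh k hk (fun d => by rw [hl', hk', H.hfg])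
    exact ⟨π, hπ, fun d => (hd d).1⟩
  mon := fun x y hxy => by
    have hq : g (q x) = g (q y) := by rw [← H.hfg, ← H.hfg, hxy]
    obtain ⟨k, hk, hk1, hk2⟩ := hg.mon (q x) (q y) hq
    obtain ⟨π, hπ, hd⟩ := H.perm 1 GB.H.one_mem k hk (fun d => by
      rw [hk1, ← H.hfg]; rfl)
    refine ⟨π, hπ, fun z => (hd z).1, ?_⟩
    have key : ∀ c, CIn GC (g ⁻¹' {g (q x)}) (q x) c →
        ∃ d, p d = p x ∧ q d = c ∧ CIn DO (p ⁻¹' {p x}) x d := by
      intro c hc
      induction hc with
      | refl => exact ⟨x, rfl, rfl, ReflTransGen.refl⟩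
      | @tail c1 c2 _ hstep ih =>
        obtain ⟨d, hd1, hd2, hd3⟩ := ih
        obtain ⟨s1, s2, s3⟩ := hstep
        have hc2 : f (p x) = g c2 := by
          rw [H.hfg]; exact s2.symm
        obtain ⟨d', hd1', hd2'⟩ := H.cons (p x) c2 hc2
        refine ⟨d', hd1', hd2', ReflTransGen.tail hd3 ⟨hd1, hd1', ?_⟩⟩
        rw [H.adj, hd1, hd1', hd2, hd2']
        exact ⟨GB.refl _, s3⟩
    obtain ⟨d, hd1, hd2, hd3⟩ := key _ hk2
    have hdπ : d = π y := by
      apply H.inj
      · rw [hd1, (hd y).1, hxy]; rfl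
      · rw [hd2, (hd y).2]
    rw [← hdπ]
    exact hd3
  lift := fun x y m hm hE =>
    pb_lift hf hg DO.adj p q H.hfg H.cons H.inj (fun d d' h1 h2 => (H.adj d d').mpr ⟨h1, h2⟩) x y m hm hE

theorem pullback {A B C : Type} [Finite B] [Finite C] {GA : Obj A} {GB : Obj B} {GC : Obj C}
    {f : B → A} {g : C → A} (hf : Mor GB GA f) (hg : Mor GC GA g) :
    ∃ D : Obj {d : B × C // f d.1 = g d.2},
      Mor D GB (fun d => d.1.1) ∧ Mor D GC (fun d => d.1.2) := by
  let p : {d : B × C // f d.1 = g d.2} → B := fun d => d.1.1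
  let q : {d : B × C // f d.1 = g d.2} → C := fun d => d.1.2
  have hfg : ∀ d, f (p d) = g (q d) := fun d => d.2
  have mk : ∀ b c, f b = g c → ∃ d, p d = b ∧ q d = c := fun b c h => ⟨⟨(b, c), h⟩, rfl, rfl⟩
  have inj : ∀ d d', p d = p d' → q d = q d' → d = d' := fun d d' h1 h2 =>
    Subtype.ext (Prod.ext h1 h2)
  let rD : {d : B × C // f d.1 = g d.2} → {d : B × C // f d.1 = g d.2} → Prop :=
    fun d d' => GB.adj (p d) (p d') ∧ GC.adj (q d) (q d')
  let HD : Subgroup (Equiv.Perm {d : B × C // f d.1 = g d.2}) :=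
    { carrier := {π | ∃ h ∈ GB.H, ∃ k ∈ GC.H, ∀ d, p (π d) = h (p d) ∧ q (π d) = k (q d)}
      one_mem' := ⟨1, GB.H.one_mem, 1, GC.H.one_mem, fun d => ⟨rfl, rfl⟩⟩
      mul_mem' := by
        rintro π1 π2 ⟨h1, hh1, k1, hk1, e1⟩ ⟨h2, hh2, k2, hk2, e2⟩
        refine ⟨h1 * h2, GB.H.mul_mem hh1 hh2, k1 * k2, GC.H.mul_mem hk1 hk2, fun d => ⟨?_, ?_⟩⟩
        · rw [Equiv.Perm.mul_apply, Equiv.Perm.mul_apply, (e1 _).1, (e2 _).1]
        · rw [Equiv.Perm.mul_apply, Equiv.Perm.mul_apply, (e1 _).2, (e2 _).2]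
      inv_mem' := by
        rintro π ⟨h, hh, k, hk, e⟩
        refine ⟨h⁻¹, GB.H.inv_mem hh, k⁻¹, GC.H.inv_mem hk, fun d => ⟨?_, ?_⟩⟩
        · rw [Equiv.Perm.eq_inv_iff_eq, ← (e _).1]
          exact congrArg p (π.apply_symm_apply d)
        · rw [Equiv.Perm.eq_inv_iff_eq, ← (e _).2]
          exact congrArg q (π.apply_symm_apply d) }
  have hconn : ∀ x y, ReflTransGen rD x y := by
    intro x y
    obtain ⟨β, hβ, hE⟩ := exists_exh GB (p x) (p y)
    obtain ⟨l, ⟨h1, h2, h3⟩, _⟩ := pb_lift hf hg rD p q hfg mk inj (fun d d' h1 h2 => ⟨h1, h2⟩) x y β hβ hE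
    exact pb_conn rD l h1 x y h2 h3
  let DO : Obj {d : B × C // f d.1 = g d.2} :=
    { adj := rD
      refl := fun x => ⟨GB.refl _, GC.refl _⟩
      symm := fun x y h => ⟨GB.symm _ _ h.1, GC.symm _ _ h.2⟩
      H := HD
      hadj := by
        rintro π ⟨h, hh, k, hk, e⟩ x y hxy
        refine ⟨?_, ?_⟩
        · rw [(e x).1, (e y).1]; exact GB.hadj h hh _ _ hxy.1
        · rw [(e x).2, (e y).2]; exact GC.hadj k hk _ _ hxy.2
      free := by
        rintro π ⟨h, hh, k, hk, e⟩ x hx
        have h1 : h = 1 := GB.free h hh (p x) (by rw [← (e x).1]; exact hx.1)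
        have k1 : k = 1 := GC.free k hk (q x) (by rw [← (e x).2]; exact hx.2)
        apply Equiv.ext
        intro z
        apply inj
        · rw [(e z).1, h1]; rfl
        · rw [(e z).2, k1]; rfl
      conn := hconn }
  have HPB : PB GA GB GC DO f g p q :=
    { hfg := hfg
      cons := mk
      inj := inj
      adj := fun d d' => Iff.rfl
      mem := fun π => Iff.rfl }
  exact ⟨DO, HPB.mor hf hg, HPB.swap.mor hg hf⟩

end Pool.B595.Arc
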