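import Pool.Agent.B595.Arc.Defs2
import Pool.Agent.B595.Arc.JComp
import Pool.Agent.B595.Arc.JAuttr
import Pool.Agent.B595.Arc.JPullback
import Pool.Agent.B595.Arc.JMove
import Pool.Agent.B595.Arc.JProjkt

set_option autoImplicit false


namespace Pool.B595.Arc

open Relation


/-! The following statements are already proved elsewhere: use them freely, do not prove them. -/






/-! TARGET -/

/-- strong approximation property -/
def SA747 (T : Tower) (n n1 m : ℕ) (f : T.V n1 → T.V n) (y : Thr T.p) (g : T.V m → T.V n1) : Prop :=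
  ∀ x : Thr T.p, f (g (x.1 m)) = x.1 n ∨
    ∃ h ∈ (T.G n).H, f (g (x.1 m)) = h (y.1 n) ∧ (T.G n).adj (x.1 n) (h (y.1 n))

/-- good points -/
def Good747 (T : Tower) (n n1 : ℕ) (f : T.V n1 → T.V n) (y : Thr T.p) (b : T.V n1) : Prop :=
  f b = y.1 n ∧ ∃ m, n1 < m ∧ ∃ g : T.V m → T.V n1, Mor (T.G m) (T.G n1) g ∧ g (y.1 m) = b ∧
    SA747 T n n1 m f y g

theorem good747_step (T : Tower) (n n1 : ℕ) (f : T.V n1 → T.V n) (hf : Mor (T.G n1) (T.G n) f)
    (y : Thr T.p) (b b' : T.V n1) (hb : Good747 T n n1 f y b) (hadj : (T.G n1).adj b b')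
    (hb' : f b' = y.1 n) : Good747 T n n1 f y b' := by
  have hfin := T.fin
  obtain ⟨hfb, m, hm, g, hg, hgy, hSA⟩ := hb
  obtain ⟨W, hW, K, u, hu, hmove⟩ := move (T.G n1) b b' hadj
  obtain ⟨D, hD1, hD2⟩ := pullback hg hu
  obtain ⟨m', hm1, hm2, s, hs, hsx⟩ := T.ext m n1 {d : T.V m × W // g d.1 = u d.2} inferInstance D
    (fun d => d.1.1) hD1
  have hs2 : Mor (T.G m') K ((fun d : {d : T.V m × W // g d.1 = u d.2} => d.1.2) ∘ s) :=
    Mor.comp hD2 hs
  have hus : ∀ x : Thr T.p, u ((s (x.1 m')).1.2) = g (x.1 m) := by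
    intro x
    rw [← (s (x.1 m')).2, hsx x]
  obtain ⟨u', hu', hu'c, hu't⟩ := hmove ((s (y.1 m')).1.2) (by rw [hus, hgy])
  refine ⟨hb', m', hm1, u' ∘ ((fun d : {d : T.V m × W // g d.1 = u d.2} => d.1.2) ∘ s),
    Mor.comp hu' hs2, hu'c, ?_⟩
  intro x
  have hx := hSA x
  rcases hu't ((s (x.1 m')).1.2) with h1 | ⟨h, hh, h2, h3⟩
  · have e : (u' ∘ ((fun d : {d : T.V m × W // g d.1 = u d.2} => d.1.2) ∘ s)) (x.1 m') =
        g (x.1 m) := by
      show u' ((s (x.1 m')).1.2) = _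
      rw [h1, hus]
    rw [e]
    exact hx
  · obtain ⟨k, hk, hfk⟩ := hf.eq1 h hh
    have e : f ((u' ∘ ((fun d : {d : T.V m × W // g d.1 = u d.2} => d.1.2) ∘ s)) (x.1 m')) =
        k (y.1 n) := by
      show f (u' ((s (x.1 m')).1.2)) = _
      rcases h2 with h2 | h2
      · rw [h2, hfk, hfb]
      · rw [h2, hfk, hb']
    rw [hus] at h3
    have h4 := hf.hom _ _ h3
    rw [hfk, hfb] at h4
    right
    rcases hx with hx | ⟨h', hh', hx1, hx2⟩
    · refine ⟨k, hk, e, ?_⟩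
      rw [hx] at h4
      exact h4
    · have h5 := (T.G n).hadj h'⁻¹ ((T.G n).H.inv_mem hh') _ _ h4
      rw [hx1, ← Equiv.Perm.mul_apply, inv_mul_cancel, Equiv.Perm.one_apply] at h5
      have h6 := (T.G n).free (h'⁻¹ * k) ((T.G n).H.mul_mem ((T.G n).H.inv_mem hh') hk) _ h5
      have h7 : k = h' := by
        rw [inv_mul_eq_one] at h6
        exact h6.symm
      refine ⟨h', hh', ?_, hx2⟩
      rw [e, h7]

theorem good747_aut (T : Tower) (n n1 : ℕ) (f : T.V n1 → T.V n)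
    (y : Thr T.p) (b : T.V n1) (hb : Good747 T n n1 f y b) (k : Equiv.Perm (T.V n1))
    (hk : k ∈ (T.G n1).H) (hfk : ∀ z, f (k z) = f z) : Good747 T n n1 f y (k b) := by
  have hfin := T.fin
  obtain ⟨hfb, m, hm, g, hg, hgy, hSA⟩ := hb
  refine ⟨by rw [hfk, hfb], m, hm, k ∘ g, Mor.comp (Mor.aut _ k hk) hg, ?_, ?_⟩
  · show k (g _) = _
    rw [hgy]
  · intro x
    have := hSA x
    show f (k (g (x.1 m))) = _ ∨ ∃ h ∈ _, f (k (g (x.1 m))) = _ ∧ _
    rw [hfk]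
    exact this

theorem good (T : Tower) (n n1 : ℕ) (f : T.V n1 → T.V n) (hf : Mor (T.G n1) (T.G n) f)
    (y : Thr T.p) (b : T.V n1) (hb : f b = y.1 n) :
    ∃ m, n1 < m ∧ ∃ g : T.V m → T.V n1, Mor (T.G m) (T.G n1) g ∧
      (∀ a b c, (T.G m).adj a b → (T.G m).adj b c → (T.G n1).adj (g a) (g c)) ∧
      g (y.1 m) = b ∧ ∀ x : Thr T.p, (T.G n).adj (f (g (x.1 m))) (x.1 n) := by
  have hfin := T.fin
  obtain ⟨m0, hm0, hm0', g0, hg0, hg0x⟩ := T.ext n n1 (T.V n1) (T.fin n1) (T.G n1) f hf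
  have hb0 : Good747 T n n1 f y (g0 (y.1 m0)) :=
    ⟨hg0x y, m0, hm0, g0, hg0, rfl, fun x => Or.inl (hg0x x)⟩
  obtain ⟨k, hk, hfk, hcin⟩ := hf.mon (g0 (y.1 m0)) b (by rw [hg0x, hb])
  have hkb : Good747 T n n1 f y (k b) := by
    unfold CIn at hcin
    generalize k b = kb at hcin
    induction hcin with
    | refl => exact hb0
    | tail _ hbc ih =>
      refine good747_step T n n1 f hf y _ _ ih hbc.2.2 ?_
      have := hbc.2.1
      simp only [Set.mem_preimage, Set.mem_singleton_iff] at this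
      rw [this, hg0x]
  have hfk' : ∀ z, f (k⁻¹ z) = f z := by
    intro z
    have := hfk (k⁻¹ z)
    rw [← Equiv.Perm.mul_apply, mul_inv_cancel, Equiv.Perm.one_apply] at this
    exact this.symm
  have hbg := good747_aut T n n1 f y _ hkb k⁻¹ ((T.G n1).H.inv_mem hk) hfk'
  rw [← Equiv.Perm.mul_apply, inv_mul_cancel, Equiv.Perm.one_apply] at hbg
  obtain ⟨-, m, hm, g, hg, hgy, hSA⟩ := hbg
  refine ⟨m + 1, by omega, g ∘ T.p m, Mor.comp hg (T.mor m), ?_, ?_, ?_⟩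
  · intro a b c hab hbc
    exact hg.hom _ _ (T.con m a b c hab hbc)
  · show g (T.p m (y.1 (m + 1))) = b
    rw [y.2 m, hgy]
  · intro x
    show (T.G n).adj (f (g (T.p m (x.1 (m + 1))))) _
    rw [x.2 m]
    rcases hSA x with h | ⟨h, hh, h1, h2⟩
    · rw [h]
      exact (T.G n).refl _
    · rw [h1]
      exact (T.G n).symm _ _ h2

end Pool.B595.Arc
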