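import Pool.Agent.B595.Arc.Defs2
import Pool.Agent.B595.Arc.JGood

set_option autoImplicit false


namespace Pool.B595.Arc

open Relation


/-! The following statements are already proved elsewhere: use them freely, do not prove them. -/


/-! TARGET: prove this (auxiliary lemmas allowed before it) -/

structure LState (T : Tower) (z : ℕ → Thr T.p) (i : ℕ) where
  a : ℕ
  b : ℕ
  hab : a < b
  g : T.V b → T.V a
  mor : Mor (T.G b) (T.G a) g
  con : ∀ x y w, (T.G b).adj x y → (T.G b).adj y w → (T.G a).adj (g x) (g w)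
  pt : g ((z i).1 b) = (z (i + 1)).1 a

theorem lstep_ex (T : Tower) (z : ℕ → Thr T.p) (hz : ∀ i, z (i + 2) = z i) (i : ℕ)
    (s : LState T z i) :
    ∃ m, ∃ g : T.V m → T.V s.b, s.b < m ∧ Mor (T.G m) (T.G s.b) g ∧
      (∀ x y w, (T.G m).adj x y → (T.G m).adj y w → (T.G s.b).adj (g x) (g w)) ∧
      g ((z (i + 1)).1 m) = (z (i + 1 + 1)).1 s.b ∧
      ∀ x : Thr T.p, (T.G s.a).adj (s.g (g (x.1 m))) (x.1 s.a) := by
  obtain ⟨m, hm, g, h1, h2, h3, h4⟩ := good T s.a s.b s.g s.mor (z (i + 1)) ((z i).1 s.b) s.pt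
  refine ⟨m, g, hm, h1, h2, ?_, h4⟩
  rw [h3, ← hz i]

open Classical in
noncomputable def lstep (T : Tower) (z : ℕ → Thr T.p) (hz : ∀ i, z (i + 2) = z i) (i : ℕ)
    (s : LState T z i) : LState T z (i + 1) where
  a := s.b
  b := (lstep_ex T z hz i s).choose
  hab := (lstep_ex T z hz i s).choose_spec.choose_spec.1
  g := (lstep_ex T z hz i s).choose_spec.choose
  mor := (lstep_ex T z hz i s).choose_spec.choose_spec.2.1
  con := (lstep_ex T z hz i s).choose_spec.choose_spec.2.2.1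
  pt := (lstep_ex T z hz i s).choose_spec.choose_spec.2.2.2.1

theorem lstep_adj (T : Tower) (z : ℕ → Thr T.p) (hz : ∀ i, z (i + 2) = z i) (i : ℕ)
    (s : LState T z i) (x : Thr T.p) :
    (T.G s.a).adj (s.g ((lstep T z hz i s).g (x.1 (lstep T z hz i s).b))) (x.1 s.a) :=
  (lstep_ex T z hz i s).choose_spec.choose_spec.2.2.2.2 x

noncomputable def lstart (T : Tower) (z : ℕ → Thr T.p) : LState T z 0 where
  a := 0
  b := 1
  hab := by norm_num
  g := T.p 0
  mor := T.mor 0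
  con := T.con 0
  pt := T.zero.elim _ _

noncomputable def lseq (T : Tower) (z : ℕ → Thr T.p) (hz : ∀ i, z (i + 2) = z i) :
    ∀ i, LState T z i
  | 0 => lstart T z
  | i + 1 => lstep T z hz i (lseq T z hz i)

theorem ladder (T : Tower) (z : ℕ → Thr T.p) (hz : ∀ i, z (i + 2) = z i) :
    ∃ (n : ℕ → ℕ) (g : ∀ i, T.V (n (i + 1)) → T.V (n i)),
      (∀ i, n i < n (i + 1)) ∧ (∀ i, Mor (T.G (n (i + 1))) (T.G (n i)) (g i)) ∧
      (∀ i a b c, (T.G (n (i + 1))).adj a b → (T.G (n (i + 1))).adj b c →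
        (T.G (n i)).adj (g i a) (g i c)) ∧
      (∀ i, g i ((z i).1 (n (i + 1))) = (z (i + 1)).1 (n i)) ∧
      (∀ i (x : Thr T.p), (T.G (n i)).adj (g i (g (i + 1) (x.1 (n (i + 2))))) (x.1 (n i))) := by
  refine ⟨fun i => (lseq T z hz i).a, fun i => (lseq T z hz i).g, fun i => (lseq T z hz i).hab,
    fun i => (lseq T z hz i).mor, fun i => (lseq T z hz i).con, fun i => (lseq T z hz i).pt, ?_⟩
  intro i x
  exact lstep_adj T z hz i (lseq T z hz i) x

end Pool.B595.Arc
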