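import Pool.Agent.B595.Arc.Defs2
import Pool.Agent.B595.Arc.JLadder
import Pool.Agent.B595.Arc.JHomeo
import Pool.Agent.B595.Arc.JProjkt

set_option autoImplicit false


namespace Pool.B595.Arc

open Relation


/-! The following statements are already proved elsewhere: use them freely, do not prove them. -/




/-! TARGET: prove this (auxiliary lemmas allowed before it) -/

lemma homog_down (T : Tower) (b b' : Thr T.p) (N M : ℕ) (hNM : N ≤ M)
    (h : (T.G M).adj (b.1 M) (b'.1 M)) : (T.G N).adj (b.1 N) (b'.1 N) := by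
  induction M, hNM using Nat.le_induction with
  | base => exact h
  | succ M _ ih =>
    apply ih
    have := (T.mor M).hom _ _ h
    rw [b.2 M, b'.2 M] at this
    exact this

lemma homog_five (T : Tower) (b b' : Thr T.p) (M : ℕ) (v1 v2 v3 v4 : T.V (M + 3))
    (h0 : (T.G (M + 3)).adj (b.1 (M + 3)) v1) (h1 : (T.G (M + 3)).adj v1 v2)
    (h2 : (T.G (M + 3)).adj v2 v3) (h3 : (T.G (M + 3)).adj v3 v4)
    (h4 : (T.G (M + 3)).adj v4 (b'.1 (M + 3))) : (T.G M).adj (b.1 M) (b'.1 M) := by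
  have a1 := T.con (M + 2) _ _ _ h0 h1
  have a2 := T.con (M + 2) _ _ _ h2 h3
  have a3 := (T.mor (M + 2)).hom _ _ h4
  rw [b.2 (M + 2)] at a1
  rw [b'.2 (M + 2)] at a3
  have c1 := T.con (M + 1) _ _ _ a1 a2
  have c2 := (T.mor (M + 1)).hom _ _ a3
  rw [b.2 (M + 1)] at c1
  rw [b'.2 (M + 1)] at c2
  have d1 := T.con M _ _ _ c1 c2
  rw [b.2 M, b'.2 M] at d1
  exact d1

theorem homog (T : Tower) {X : Type} [MetricSpace X] [CompactSpace X] (q : Thr T.p → X)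
    (hq : IsLim (fun n => (T.G n).adj) T.p q) (x y : Thr T.p) : ∃ h : X ≃ₜ X, h (q x) = q y := by
  classical
  obtain ⟨c, hc⟩ : ∃ c : ℕ → Thr T.p → Thr T.p → Thr T.p, ∀ i a b,
      c i a b = if Even i then a else b := ⟨_, fun _ _ _ => rfl⟩
  have hc2 : ∀ i a b, c (i + 2) a b = c i a b := by
    intro i a b
    rw [hc, hc]
    have : Even (i + 2) ↔ Even i := by
      rw [Nat.even_add]; simp
    simp only [this]
  obtain ⟨n, g, hn, hmor, hcon, hzi, hlad⟩ := ladder T (fun i => c i x y) (fun i => hc2 i x y)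
  obtain ⟨D, hD⟩ : ∃ D : ℕ → Thr T.p → Thr T.p → Prop, ∀ i a b, D i a b ↔
      ∃ w, (T.G (n i)).adj (g i (a.1 (n (i + 1)))) w ∧ (T.G (n i)).adj w (b.1 (n i)) :=
    ⟨_, fun _ _ _ => Iff.rfl⟩
  have nest : ∀ i a b, D (i + 1) b a → D i a b := by
    intro i a b h
    rw [hD] at h ⊢
    obtain ⟨w, h1, h2⟩ := h
    refine ⟨g i (g (i + 1) (b.1 (n (i + 1 + 1)))), ?_, hlad i b⟩
    exact (T.G (n i)).symm _ _ (hcon i _ _ _ h1 h2)
  have ne1 : ∀ m, Function.Surjective (T.p m) := by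
    intro m v
    obtain ⟨x', _, _, h, _⟩ := (T.mor m).edge v v ((T.G m).refl v)
    exact ⟨x', h⟩
  have F1 : ∀ i a, ∃ b, D i a b := by
    intro i a
    obtain ⟨b, hb⟩ := exists_thread T.p ne1 (n i) (g i (a.1 (n (i + 1))))
    refine ⟨b, (hD _ _ _).2 ⟨_, (T.G (n i)).refl _, ?_⟩⟩
    rw [hb]
    exact (T.G (n i)).refl _
  have F2 : ∀ i b, ∃ a, D i a b := by
    intro i b
    obtain ⟨v, _, _, hv, _⟩ := (hmor i).edge (b.1 (n i)) (b.1 (n i)) ((T.G _).refl _)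
    obtain ⟨a, ha⟩ := exists_thread T.p ne1 (n (i + 1)) v
    refine ⟨a, (hD _ _ _).2 ⟨_, (T.G (n i)).refl _, ?_⟩⟩
    rw [ha, hv]
    exact (T.G (n i)).refl _
  have hnle : ∀ i, i ≤ n i := by
    intro i
    induction i with
    | zero => exact Nat.zero_le _
    | succ i ih => exact lt_of_le_of_lt ih (hn i)
  have U : ∀ ε > 0, ∃ N, ∀ i ≥ N, ∃ δ > 0, ∀ a b a' b', D i a b → D i a' b' →
      dist (q a) (q a') < δ → dist (q b) (q b') < ε := by
    intro ε hε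
    obtain ⟨N, hN⟩ := hq.small ε hε
    refine ⟨N + 3, ?_⟩
    intro i hi
    obtain ⟨δ, hδ, hδ2⟩ := hq.near (n (i + 1))
    refine ⟨δ, hδ, ?_⟩
    intro a b a' b' h h' hd
    rw [hD] at h h'
    obtain ⟨w, h1, h2⟩ := h
    obtain ⟨w', h3, h4⟩ := h'
    have h5 := (hmor i).hom _ _ (hδ2 a a' hd)
    obtain ⟨M, hM⟩ : ∃ M, n i = M + 3 := ⟨n i - 3, by have := hnle i; omega⟩
    have hNM : N ≤ M := by have := hnle i; omega
    apply hN
    refine homog_down T b b' N M hNM ?_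
    have k1 := (T.G (n i)).symm _ _ h2
    have k2 := (T.G (n i)).symm _ _ h1
    have gen : ∀ L, L = M + 3 → ∀ v1 v2 v3 v4 : T.V L, (T.G L).adj (b.1 L) v1 →
        (T.G L).adj v1 v2 → (T.G L).adj v2 v3 → (T.G L).adj v3 v4 →
        (T.G L).adj v4 (b'.1 L) → (T.G M).adj (b.1 M) (b'.1 M) := by
      rintro L rfl v1 v2 v3 v4 e0 e1 e2 e3 e4
      exact homog_five T b b' M v1 v2 v3 v4 e0 e1 e2 e3 e4
    exact gen (n i) hM _ _ _ _ k1 k2 h5 h3 h4
  -- the relations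
  obtain ⟨S, hS⟩ : ∃ S : ℕ → Thr T.p → Thr T.p → Prop, ∀ i a b, S i a b ↔
      D i (c i a b) (c (i + 1) a b) := ⟨_, fun _ _ _ => Iff.rfl⟩
  have hSe : ∀ i, Even i → ∀ a b, S i a b ↔ D i a b := by
    intro i hi a b
    have hi' : ¬ Even (i + 1) := by
      rw [Nat.even_add_one]; exact not_not.2 hi
    rw [hS, hc, hc, if_pos hi, if_neg hi']
  have hSo : ∀ i, ¬ Even i → ∀ a b, S i a b ↔ D i b a := by
    intro i hi a b
    have hi' : Even (i + 1) := by
      rw [Nat.even_add_one]; exact hi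
    rw [hS, hc, hc, if_neg hi, if_pos hi']
  have Santi : ∀ i a b, S (i + 1) a b → S i a b := by
    intro i a b h
    by_cases hi : Even i
    · have hi' : ¬ Even (i + 1) := by
        rw [Nat.even_add_one]; exact not_not.2 hi
      rw [hSe i hi]
      rw [hSo (i + 1) hi'] at h
      exact nest i a b h
    · have hi' : Even (i + 1) := by
        rw [Nat.even_add_one]; exact hi
      rw [hSo i hi]
      rw [hSe (i + 1) hi'] at h
      exact nest i b a h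
  have Sful1 : ∀ i a, ∃ b, S i a b := by
    intro i a
    by_cases hi : Even i
    · obtain ⟨b, hb⟩ := F1 i a
      exact ⟨b, (hSe i hi a b).2 hb⟩
    · obtain ⟨b, hb⟩ := F2 i a
      exact ⟨b, (hSo i hi a b).2 hb⟩
  have Sful2 : ∀ i b, ∃ a, S i a b := by
    intro i b
    by_cases hi : Even i
    · obtain ⟨a, ha⟩ := F2 i b
      exact ⟨a, (hSe i hi a b).2 ha⟩
    · obtain ⟨a, ha⟩ := F1 i b
      exact ⟨a, (hSo i hi a b).2 ha⟩
  obtain ⟨h, hh⟩ := homeo_of_rel (X := X) (fun i u v => ∃ a b, q a = u ∧ q b = v ∧ S i a b)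
    (by
      rintro i u v ⟨a, b, ha, hb, h⟩
      exact ⟨a, b, ha, hb, Santi i a b h⟩)
    (by
      intro i u
      obtain ⟨a, rfl⟩ := hq.surj u
      obtain ⟨b, hb⟩ := Sful1 i a
      exact ⟨q b, a, b, rfl, rfl, hb⟩)
    (by
      intro i v
      obtain ⟨b, rfl⟩ := hq.surj v
      obtain ⟨a, ha⟩ := Sful2 i b
      exact ⟨q a, a, b, rfl, rfl, ha⟩)
    (by
      intro ε hε
      obtain ⟨N, hN⟩ := U ε hε
      obtain ⟨δ, hδ, h⟩ := hN (2 * N) (by omega)
      refine ⟨2 * N, δ, hδ, ?_⟩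
      rintro _ _ _ _ ⟨a, b, rfl, rfl, h1⟩ ⟨a', b', rfl, rfl, h2⟩ hd
      rw [hSe _ (even_two_mul N)] at h1 h2
      exact h a b a' b' h1 h2 hd)
    (by
      intro ε hε
      obtain ⟨N, hN⟩ := U ε hε
      obtain ⟨δ, hδ, h⟩ := hN (2 * N + 1) (by omega)
      refine ⟨2 * N + 1, δ, hδ, ?_⟩
      rintro _ _ _ _ ⟨a, b, rfl, rfl, h1⟩ ⟨a', b', rfl, rfl, h2⟩ hd
      have ho : ¬ Even (2 * N + 1) := by
        rw [Nat.even_add_one]; exact not_not.2 (even_two_mul N)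
      rw [hSo _ ho] at h1 h2
      exact h b a b' a' h1 h2 hd)
  refine ⟨h, hh _ _ ?_⟩
  intro i
  refine ⟨x, y, rfl, rfl, ?_⟩
  rw [hS, hD]
  refine ⟨_, (T.G (n i)).refl _, ?_⟩
  have h7 : g i ((c i x y).1 (n (i + 1))) = (c (i + 1) x y).1 (n i) := hzi i
  rw [h7]
  exact (T.G (n i)).refl _

end Pool.B595.Arc
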