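import Pool.Agent.B595.Arc.Defs

set_option autoImplicit false


namespace Pool.B595.Arc

open Relation

noncomputable def mu8836 (L : ℕ → ℕ) (r : ℕ → ℕ → ℕ) : ℕ → ℕ → ℝ
  | 0, _ => 1 / ((L 0 : ℝ) + 1)
  | n + 1, i => mu8836 L r n (r n i) /
      ((Finset.range (L (n + 1) + 1)).filter (fun i' => r n i' = r n i)).card

noncomputable def cum8836 (L : ℕ → ℕ) (r : ℕ → ℕ → ℕ) (n j : ℕ) : ℝ :=
  ∑ i ∈ Finset.range j, mu8836 L r n i

theorem mono8836 (L : ℕ → ℕ) (r : ℕ → ℕ → ℕ)
    (rs : ∀ n i, i < L (n + 1) → r n (i + 1) = r n i ∨ r n (i + 1) = r n i + 1)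
    (n i i' : ℕ) (h : i ≤ i') (h' : i' ≤ L (n + 1)) : r n i ≤ r n i' := by
  induction i', h using Nat.le_induction with
  | base => exact le_rfl
  | succ k hk ih =>
    have h1 := ih (by omega)
    rcases rs n k (by omega) with h2 | h2 <;> omega

theorem surj8836 (L : ℕ → ℕ) (r : ℕ → ℕ → ℕ) (r0 : ∀ n, r n 0 = 0)
    (rs : ∀ n i, i < L (n + 1) → r n (i + 1) = r n i ∨ r n (i + 1) = r n i + 1)
    (n i : ℕ) : i ≤ L (n + 1) → ∀ j ≤ r n i, ∃ i' ≤ i, r n i' = j := by
  induction i with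
  | zero =>
    intro _ j hj
    rw [r0] at hj
    exact ⟨0, le_rfl, by rw [r0]; omega⟩
  | succ i ih =>
    intro hi j hj
    rcases rs n i (by omega) with h2 | h2
    · rw [h2] at hj
      obtain ⟨i', hi', h⟩ := ih (by omega) j hj
      exact ⟨i', by omega, h⟩
    · rcases Nat.lt_or_ge (r n i) j with h3 | h3
      · exact ⟨i + 1, le_rfl, by omega⟩
      · obtain ⟨i', hi', h⟩ := ih (by omega) j h3
        exact ⟨i', by omega, h⟩

theorem nonneg8836 (L : ℕ → ℕ) (r : ℕ → ℕ → ℕ) (n : ℕ) : ∀ j, 0 ≤ mu8836 L r n j := by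
  induction n with
  | zero => intro j; unfold mu8836; positivity
  | succ n ih => intro j; unfold mu8836; exact div_nonneg (ih _) (Nat.cast_nonneg _)

theorem bound8836 (L : ℕ → ℕ) (r : ℕ → ℕ → ℕ) (rL : ∀ n, r n (L (n + 1)) = L n)
    (rs : ∀ n i, i < L (n + 1) → r n (i + 1) = r n i ∨ r n (i + 1) = r n i + 1)
    (n i : ℕ) (h : i ≤ L (n + 1)) : r n i ≤ L n := by
  rw [← rL n]
  exact mono8836 L r rs n i _ h le_rfl

theorem pos8836 (L : ℕ → ℕ) (r : ℕ → ℕ → ℕ) (rL : ∀ n, r n (L (n + 1)) = L n)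
    (rs : ∀ n i, i < L (n + 1) → r n (i + 1) = r n i ∨ r n (i + 1) = r n i + 1)
    (n : ℕ) : ∀ j ≤ L n, 0 < mu8836 L r n j := by
  induction n with
  | zero => intro j _; unfold mu8836; positivity
  | succ n ih =>
    intro j hj
    unfold mu8836
    apply div_pos (ih _ (bound8836 L r rL rs n j hj))
    rw [Nat.cast_pos, Finset.card_pos]
    exact ⟨j, by rw [Finset.mem_filter, Finset.mem_range]; exact ⟨by omega, rfl⟩⟩

theorem fiber8836 (L : ℕ → ℕ) (r : ℕ → ℕ → ℕ) (r0 : ∀ n, r n 0 = 0)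
    (rL : ∀ n, r n (L (n + 1)) = L n)
    (rs : ∀ n i, i < L (n + 1) → r n (i + 1) = r n i ∨ r n (i + 1) = r n i + 1)
    (n j : ℕ) (hj : j ≤ L n) :
    ∑ i ∈ (Finset.range (L (n + 1) + 1)).filter (fun i' => r n i' = j), mu8836 L r (n + 1) i =
      mu8836 L r n j := by
  obtain ⟨i0, hi0, hi1⟩ := surj8836 L r r0 rs n (L (n + 1)) le_rfl j (by rw [rL]; exact hj)
  have hcard : 0 < ((Finset.range (L (n + 1) + 1)).filter (fun i' => r n i' = j)).card := by
    rw [Finset.card_pos]
    exact ⟨i0, by rw [Finset.mem_filter, Finset.mem_range]; exact ⟨by omega, hi1⟩⟩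
  have h1 : ∀ i ∈ (Finset.range (L (n + 1) + 1)).filter (fun i' => r n i' = j),
      mu8836 L r (n + 1) i = mu8836 L r n j /
        ((Finset.range (L (n + 1) + 1)).filter (fun i' => r n i' = j)).card := by
    intro i hi
    rw [Finset.mem_filter] at hi
    show mu8836 L r n (r n i) /
      ((Finset.range (L (n + 1) + 1)).filter (fun i' => r n i' = r n i)).card = _
    rw [hi.2]
  rw [Finset.sum_congr rfl h1, Finset.sum_const, nsmul_eq_mul]
  have h2 : ((((Finset.range (L (n + 1) + 1)).filter (fun i' => r n i' = j)).card : ℕ) : ℝ) ≠ 0 :=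
    by exact_mod_cast hcard.ne'
  field_simp

theorem cumrel8836 (L : ℕ → ℕ) (r : ℕ → ℕ → ℕ) (r0 : ∀ n, r n 0 = 0)
    (rL : ∀ n, r n (L (n + 1)) = L n)
    (rs : ∀ n i, i < L (n + 1) → r n (i + 1) = r n i ∨ r n (i + 1) = r n i + 1)
    (n j : ℕ) : j ≤ L n + 1 → cum8836 L r n j =
      ∑ i ∈ (Finset.range (L (n + 1) + 1)).filter (fun i' => r n i' < j),
        mu8836 L r (n + 1) i := by
  induction j with
  | zero => intro _; unfold cum8836; simp
  | succ j ih =>
    intro hj
    have h1 := ih (by omega)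
    unfold cum8836 at h1 ⊢
    rw [Finset.sum_range_succ, h1, ← fiber8836 L r r0 rL rs n j (by omega)]
    have h2 : (Finset.range (L (n + 1) + 1)).filter (fun i' => r n i' < j + 1) =
        (Finset.range (L (n + 1) + 1)).filter (fun i' => r n i' < j) ∪
        (Finset.range (L (n + 1) + 1)).filter (fun i' => r n i' = j) := by
      ext i
      simp only [Finset.mem_filter, Finset.mem_union]
      constructor
      · rintro ⟨h3, h4⟩
        rcases Nat.lt_or_ge (r n i) j with h5 | h5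
        · exact Or.inl ⟨h3, h5⟩
        · exact Or.inr ⟨h3, by omega⟩
      · rintro (⟨h3, h4⟩ | ⟨h3, h4⟩)
        · exact ⟨h3, by omega⟩
        · exact ⟨h3, by omega⟩
    rw [h2, Finset.sum_union]
    rw [Finset.disjoint_left]
    intro i h3 h4
    rw [Finset.mem_filter] at h3 h4
    omega

theorem total8836 (L : ℕ → ℕ) (r : ℕ → ℕ → ℕ) (r0 : ∀ n, r n 0 = 0)
    (rL : ∀ n, r n (L (n + 1)) = L n)
    (rs : ∀ n i, i < L (n + 1) → r n (i + 1) = r n i ∨ r n (i + 1) = r n i + 1)
    (n : ℕ) : cum8836 L r n (L n + 1) = 1 := by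
  induction n with
  | zero =>
    unfold cum8836
    have h1 : ∀ i ∈ Finset.range (L 0 + 1), mu8836 L r 0 i = 1 / ((L 0 : ℝ) + 1) :=
      fun i _ => rfl
    rw [Finset.sum_congr rfl h1, Finset.sum_const, Finset.card_range, nsmul_eq_mul]
    push_cast
    have : (L 0 : ℝ) + 1 ≠ 0 := by positivity
    field_simp
  | succ n ih =>
    rw [← ih, cumrel8836 L r r0 rL rs n (L n + 1) le_rfl]
    unfold cum8836
    congr 1
    ext i
    simp only [Finset.mem_filter, Finset.mem_range]
    constructor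
    · intro h
      have := bound8836 L r rL rs n i (by omega)
      exact ⟨h, by omega⟩
    · exact fun h => h.1

theorem cummono8836 (L : ℕ → ℕ) (r : ℕ → ℕ → ℕ) (n : ℕ) : Monotone (cum8836 L r n) := by
  apply monotone_nat_of_le_succ
  intro j
  unfold cum8836
  rw [Finset.sum_range_succ]
  have := nonneg8836 L r n j
  linarith

/-! TARGET: prove this (auxiliary lemmas allowed before it) -/

theorem times (L : ℕ → ℕ) (r : ℕ → ℕ → ℕ) (r0 : ∀ n, r n 0 = 0) (rL : ∀ n, r n (L (n + 1)) = L n)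
    (rs : ∀ n i, i < L (n + 1) → r n (i + 1) = r n i ∨ r n (i + 1) = r n i + 1) :
    ∃ s : ℕ → ℝ → ℕ, (∀ n t, s n t ≤ L n) ∧ (∀ n t, r n (s (n + 1) t) = s n t) ∧
      (∀ n, s n 0 = 0) ∧ (∀ n, s n 1 = L n) ∧
      ∀ n, ∃ δ > 0, ∀ t t' : ℝ, 0 ≤ t → t ≤ t' → t' ≤ 1 → t' - t < δ →
        s n t ≤ s n t' ∧ s n t' ≤ s n t + 1 := by
  classical
  obtain ⟨s, hs⟩ : ∃ s : ℕ → ℝ → ℕ,
    s = fun n t => Nat.findGreatest (fun j => cum8836 L r n j ≤ t) (L n) := ⟨_, rfl⟩
  have spec : ∀ n t, s n t ≤ L n ∧ (s n t ≠ 0 → cum8836 L r n (s n t) ≤ t) ∧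
      ∀ j, s n t < j → j ≤ L n → ¬ cum8836 L r n j ≤ t := by
    intro n t
    have h : Nat.findGreatest (fun j => cum8836 L r n j ≤ t) (L n) = s n t := by rw [hs]
    rw [Nat.findGreatest_eq_iff] at h
    exact ⟨h.1, h.2.1, fun j h1 h2 => h.2.2 h1 h2⟩
  have uniq : ∀ n t m, m ≤ L n → (m ≠ 0 → cum8836 L r n m ≤ t) →
      (∀ j, m < j → j ≤ L n → ¬ cum8836 L r n j ≤ t) → s n t = m := by
    intro n t m h1 h2 h3
    rw [hs]
    exact Nat.findGreatest_eq_iff.2 ⟨h1, h2, fun j h4 h5 => h3 j h4 h5⟩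
  have cm := cummono8836 L r
  refine ⟨s, fun n t => (spec n t).1, ?_, ?_, ?_, ?_⟩
  · intro n t
    obtain ⟨h1, h2, h3⟩ := spec (n + 1) t
    obtain ⟨i, hi⟩ : ∃ i, i = s (n + 1) t := ⟨_, rfl⟩
    rw [← hi] at h1 h2 h3 ⊢
    symm
    have hb := bound8836 L r rL rs n i h1
    apply uniq n t (r n i) hb
    · intro hj0
      have hi0 : i ≠ 0 := by
        rintro rfl
        exact hj0 (r0 n)
      refine le_trans ?_ (h2 hi0)
      rw [cumrel8836 L r r0 rL rs n (r n i) (by omega)]
      unfold cum8836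
      apply Finset.sum_le_sum_of_subset_of_nonneg
      · intro i' hi'
        rw [Finset.mem_filter, Finset.mem_range] at hi'
        rw [Finset.mem_range]
        by_contra hcon
        push Not at hcon
        have := mono8836 L r rs n i i' hcon (by omega)
        omega
      · exact fun _ _ _ => nonneg8836 L r (n + 1) _
    · intro j hj1 hj2 hj3
      have hi1 : i < L (n + 1) := by
        by_contra hcon
        have h4 : i = L (n + 1) := by omega
        rw [h4, rL] at hj1
        omega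
      apply h3 (i + 1) (Nat.lt_succ_self i) hi1
      refine le_trans ?_ hj3
      refine le_trans ?_ (cm n (show r n i + 1 ≤ j from hj1))
      rw [cumrel8836 L r r0 rL rs n (r n i + 1) (by omega)]
      unfold cum8836
      apply Finset.sum_le_sum_of_subset_of_nonneg
      · intro i' hi'
        rw [Finset.mem_range] at hi'
        rw [Finset.mem_filter, Finset.mem_range]
        have := mono8836 L r rs n i' i (by omega) h1
        exact ⟨by omega, by omega⟩
      · exact fun _ _ _ => nonneg8836 L r (n + 1) _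
  · intro n
    apply uniq n 0 0 (Nat.zero_le _) (fun h => absurd rfl h)
    intro j hj1 hj2 hj3
    have h1 : cum8836 L r n 1 ≤ cum8836 L r n j := cm n hj1
    have h2 : cum8836 L r n 1 = mu8836 L r n 0 := by unfold cum8836; simp
    have h3 := pos8836 L r rL rs n 0 (Nat.zero_le _)
    linarith
  · intro n
    apply uniq n 1 (L n) le_rfl
    · intro _
      rw [← total8836 L r r0 rL rs n]
      exact cm n (Nat.le_succ _)
    · intro j h1 h2
      omega
  · intro n
    obtain ⟨j0, hj0, hmin⟩ := Finset.exists_min_image (Finset.range (L n + 1))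
      (mu8836 L r n) ⟨0, by rw [Finset.mem_range]; omega⟩
    rw [Finset.mem_range] at hj0
    refine ⟨mu8836 L r n j0, pos8836 L r rL rs n j0 (by omega), ?_⟩
    intro t t' h0 htt h1 hδ
    obtain ⟨a1, a2, a3⟩ := spec n t
    obtain ⟨b1, b2, b3⟩ := spec n t'
    constructor
    · by_contra hcon
      push Not at hcon
      exact b3 _ hcon a1 ((a2 (by omega)).trans htt)
    · by_contra hcon
      push Not at hcon
      have c1 := a3 (s n t + 1) (Nat.lt_succ_self _) (by omega)
      have c2 := b2 (by omega)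
      have c3 := cm n (show s n t + 2 ≤ s n t' by omega)
      have c4 : cum8836 L r n (s n t + 2) = cum8836 L r n (s n t + 1) +
          mu8836 L r n (s n t + 1) := by
        unfold cum8836
        rw [Finset.sum_range_succ]
      have c5 := hmin (s n t + 1) (by rw [Finset.mem_range]; omega)
      push Not at c1
      linarith

end Pool.B595.Arc
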