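import Pool.Agent.B595.Arc.Defs2
import Pool.Agent.B595.Arc.JTimes

set_option autoImplicit false


namespace Pool.B595.Arc

open Relation


/-! The following statements are already proved elsewhere: use them freely, do not prove them. -/


theorem ov_index {W V : Type} {r : W → W → Prop} {f : W → V} {l : List W} {m : List V}
    (h : Ov r f l m) : ∃ ρ : ℕ → ℕ, ρ 0 = 0 ∧ ρ (l.length - 1) = m.length - 1 ∧
      (∀ i, i + 1 < l.length → (ρ (i + 1) = ρ i ∨ ρ (i + 1) = ρ i + 1)) ∧
      (∀ i, i < l.length → m[ρ i]? = (l[i]?).map f) := by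
  induction h with
  | single b =>
    refine ⟨fun _ => 0, rfl, rfl, fun i _ => Or.inl rfl, fun i hi => ?_⟩
    have : i = 0 := by simp at hi; omega
    subst this
    simp
  | stay b c l m hbc hf hov ih =>
    obtain ⟨ρ, h0, h1, h2, h3⟩ := ih
    refine ⟨fun i => Nat.casesOn i 0 (fun j => ρ j), rfl, ?_, ?_, ?_⟩
    · show ρ (c :: l).length.pred = _
      simpa using h1
    · intro i hi
      cases i with
      | zero => left; exact h0
      | succ j => exact h2 j (by simp at hi ⊢; omega)
    · intro i hi
      cases i with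
      | zero =>
        have h4 := h3 0 (by simp)
        rw [h0] at h4
        show m[0]? = _
        rw [h4]
        simp [hf]
      | succ j =>
        have h4 := h3 j (by simp at hi ⊢; omega)
        show m[ρ j]? = _
        rw [h4]
        simp
  | step b c l m hbc hov ih =>
    obtain ⟨ρ, h0, h1, h2, h3⟩ := ih
    have hm : 0 < m.length := by
      have h4 := h3 0 (by simp)
      rw [h0] at h4
      cases m with
      | nil => simp at h4
      | cons a t => simp
    refine ⟨fun i => Nat.casesOn i 0 (fun j => ρ j + 1), rfl, ?_, ?_, ?_⟩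
    · show ρ (c :: l).length.pred + 1 = _
      have h5 : (c :: l).length.pred = (c :: l).length - 1 := rfl
      rw [h5, h1]
      simp only [List.length_cons]
      omega
    · intro i hi
      cases i with
      | zero =>
        right
        show ρ 0 + 1 = 0 + 1
        rw [h0]
      | succ j =>
        have h4 := h2 j (by simp at hi ⊢; omega)
        show ρ (j + 1) + 1 = ρ j + 1 ∨ ρ (j + 1) + 1 = ρ j + 1 + 1
        omega
    · intro i hi
      cases i with
      | zero => simp
      | succ j =>
        have h4 := h3 j (by simp at hi ⊢; omega)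
        show (f b :: m)[ρ j + 1]? = _
        rw [List.getElem?_cons_succ, h4]
        simp

/-! TARGET: prove this (auxiliary lemmas allowed before it) -/

theorem path_of_walks {V : ℕ → Type} (adj : ∀ n, V n → V n → Prop) (refl : ∀ n x, adj n x x)
    (symm : ∀ n x y, adj n x y → adj n y x) (p : ∀ n, V (n + 1) → V n)
    {X : Type} [MetricSpace X] (q : Thr p → X) (hq : IsLim adj p q) (x y : Thr p)
    (w : ∀ n, List (V n)) (hw : ∀ n, (w n).IsChain (adj n))
    (hx : ∀ n, (w n).head? = some (x.1 n)) (hy : ∀ n, (w n).getLast? = some (y.1 n))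
    (hov : ∀ n, Ov (adj (n + 1)) (p n) (w (n + 1)) (w n)) :
    ∃ γ : Path (q x) (q y), ∀ t, ∃ z : Thr p, γ t = q z ∧ ∀ n, z.1 n ∈ w n := by
  choose r r0 rL rs rm using fun n => ov_index (hov n)
  have hlen : ∀ n, 0 < (w n).length := by
    intro n
    have := hx n
    cases hwn : w n with
    | nil => rw [hwn] at this; simp at this
    | cons a l => simp
  set L : ℕ → ℕ := fun n => (w n).length - 1 with hL
  obtain ⟨s, hs1, hs2, hs3, hs4, hs5⟩ := times L r r0 rL (by
    intro n i hi
    apply rs n i
    simp only [hL] at hi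
    omega)
  have hlt : ∀ n t, s n t < (w n).length := by
    intro n t
    have h1 := hs1 n t
    have h2 := hlen n
    simp only [hL] at h1
    omega
  set W : ∀ n, ℝ → V n := fun n t => (w n)[s n t]'(hlt n t) with hW
  have hthr : ∀ t n, p n (W (n + 1) t) = W n t := by
    intro t n
    have h1 := rm n (s (n + 1) t) (hlt (n + 1) t)
    rw [List.getElem?_eq_getElem (hlt (n + 1) t)] at h1
    simp only [Option.map_some] at h1
    rw [hs2, List.getElem?_eq_getElem (hlt n t)] at h1
    exact (Option.some.inj h1).symm
  set z : ℝ → Thr p := fun t => ⟨fun n => W n t, hthr t⟩ with hz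
  have hz0 : z 0 = x := by
    apply Subtype.ext
    funext n
    show W n 0 = x.1 n
    have h1 := hx n
    rw [List.head?_eq_getElem?] at h1
    have h2 : (w n)[s n 0]? = some (x.1 n) := by rw [hs3]; exact h1
    rw [List.getElem?_eq_getElem (hlt n 0)] at h2
    exact Option.some.inj h2
  have hz1 : z 1 = y := by
    apply Subtype.ext
    funext n
    show W n 1 = y.1 n
    have h1 := hy n
    rw [List.getLast?_eq_getElem?] at h1
    have h2 : (w n)[s n 1]? = some (y.1 n) := by rw [hs4]; exact h1
    rw [List.getElem?_eq_getElem (hlt n 1)] at h2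
    exact Option.some.inj h2
  have hadj : ∀ n t t', s n t ≤ s n t' → s n t' ≤ s n t + 1 → adj n (W n t) (W n t') := by
    intro n t t' h1 h2
    rcases Nat.lt_or_ge (s n t) (s n t') with h3 | h3
    · have h4 : s n t' = s n t + 1 := by omega
      have h5 : s n t + 1 < (w n).length := by rw [← h4]; exact hlt n t'
      have h6 := (List.isChain_iff_getElem.1 (hw n)) (s n t) h5
      have h7 : W n t' = (w n)[s n t + 1]'h5 := by
        simp only [hW]
        congr 1
      rw [h7]
      exact h6
    · have h4 : s n t' = s n t := by omega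
      have h7 : W n t' = W n t := by
        simp only [hW]
        congr 1
      rw [h7]
      exact refl n _
  have hcont : Continuous (fun t : unitInterval => q (z t)) := by
    rw [Metric.continuous_iff]
    intro b ε hε
    obtain ⟨n, hn⟩ := hq.small ε hε
    obtain ⟨δ, hδ, hd⟩ := hs5 n
    refine ⟨δ, hδ, fun a hab => ?_⟩
    apply hn
    show adj n (W n a) (W n b)
    have hab' : |(a : ℝ) - b| < δ := hab
    rw [abs_lt] at hab'
    rcases le_total (a : ℝ) b with h | h
    · obtain ⟨h1, h2⟩ := hd a b a.2.1 h b.2.2 (by linarith)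
      exact hadj n a b h1 h2
    · obtain ⟨h1, h2⟩ := hd b a b.2.1 h a.2.2 (by linarith)
      exact symm n _ _ (hadj n b a h1 h2)
  refine ⟨⟨⟨fun t : unitInterval => q (z t), hcont⟩, ?_, ?_⟩, ?_⟩
  · show q (z ((0 : unitInterval) : ℝ)) = q x
    rw [show ((0 : unitInterval) : ℝ) = 0 from rfl, hz0]
  · show q (z ((1 : unitInterval) : ℝ)) = q y
    rw [show ((1 : unitInterval) : ℝ) = 1 from rfl, hz1]
  · intro t
    refine ⟨z t, rfl, fun n => ?_⟩
    exact List.getElem_mem (hlt n t)

end Pool.B595.Arc
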