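import Pool.Agent.B595.Arc.Defs2
import Pool.Agent.B595.Arc.JPathw
import Pool.Agent.B595.Arc.JLift1

set_option autoImplicit false


namespace Pool.B595.Arc

open Relation


/-! The following statements are already proved elsewhere: use them freely, do not prove them. -/



/-! TARGET: prove this (auxiliary lemmas allowed before it) -/

theorem ext_family : ∀ (n : ℕ) (A : ℕ → Type) (P : ∀ m, A m → Prop)
    (R : ∀ m, A (m + 1) → A m → Prop)
    (_up : ∀ m l, P m l → ∃ l', P (m + 1) l' ∧ R m l' l)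
    (_down : ∀ m l', P (m + 1) l' → ∃ l, P m l ∧ R m l' l) (l : A n) (_hl : P n l),
    ∃ w : ∀ m, A m, w n = l ∧ (∀ m, P m (w m)) ∧ ∀ m, R m (w (m + 1)) (w m) := by
  intro n
  induction n with
  | zero =>
    intro A P R up down l hl
    choose g hg1 hg2 using up
    let W : ∀ m, {y : A m // P m y} := fun m =>
      Nat.rec ⟨l, hl⟩ (fun m y => ⟨g m y.1 y.2, hg1 m y.1 y.2⟩) m
    exact ⟨fun m => (W m).1, rfl, fun m => (W m).2, fun m => hg2 m (W m).1 (W m).2⟩
  | succ n ih =>
    intro A P R up down l hl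
    obtain ⟨w, hw1, hw2, hw3⟩ := ih (fun m => A (m + 1)) (fun m => P (m + 1)) (fun m => R (m + 1))
      (fun m => up (m + 1)) (fun m => down (m + 1)) l hl
    obtain ⟨l0, h0, h1⟩ := down 0 (w 0) (hw2 0)
    refine ⟨fun m => Nat.casesOn m l0 (fun m => w m), hw1, ?_, ?_⟩
    · intro m
      cases m with
      | zero => exact h0
      | succ m => exact hw2 m
    · intro m
      cases m with
      | zero => exact h1
      | succ m => exact hw3 m

theorem Ov_map {W V : Type} (r : W → W → Prop) (f : W → V) :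
    ∀ l : List W, l ≠ [] → l.IsChain r → Ov r f l (l.map f)
  | [], h, _ => absurd rfl h
  | [b], _, _ => Ov.single b
  | b :: c :: l, _, h => by
    rw [List.isChain_cons_cons] at h
    exact Ov.step b c l ((c :: l).map f) h.1 (Ov_map r f (c :: l) (by simp) h.2)

theorem Ov_last {W V : Type} {r : W → W → Prop} {f : W → V} {l : List W} {m : List V}
    (h : Ov r f l m) : ∀ a, l.getLast? = some a → m.getLast? = some (f a) := by
  induction h with
  | single b => intro a ha; simp at ha; simp [ha]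
  | stay b c l m _ _ _ ih =>
    intro a ha
    apply ih
    rw [List.getLast?_cons_cons] at ha
    exact ha
  | step b c l m _ hov ih =>
    intro a ha
    rw [List.getLast?_cons_cons] at ha
    have h1 := ih a ha
    cases m with
    | nil => simp at h1
    | cons d m => rw [List.getLast?_cons_cons]; exact h1

theorem init_path (T : Tower) {X : Type} [MetricSpace X] (q : Thr T.p → X)
    (hq : IsLim (fun n => (T.G n).adj) T.p q) (n : ℕ) (x : Thr T.p) (v : T.V n) (l : List (T.V n))
    (hl : Wk (T.G n) l (x.1 n) v) :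
    ∃ (y : Thr T.p) (γ : Path (q x) (q y)), y.1 n = v ∧ ∀ t, ∃ z : Thr T.p, γ t = q z ∧ z.1 n ∈ l := by
  obtain ⟨w, hw1, hw2, hw3⟩ := ext_family n (fun m => List (T.V m))
    (fun m l => ∃ u, Wk (T.G m) l (x.1 m) u) (fun m l' l => Ov (T.G (m + 1)).adj (T.p m) l' l)
    (by
      intro m l ⟨u, hu⟩
      rw [← x.2 m] at hu
      obtain ⟨z, l', _, h2, h3⟩ := Mor.walk_lift (T.mor m) (x.1 (m + 1)) u l hu
      exact ⟨l', ⟨z, h2⟩, h3⟩)
    (by
      intro m l' ⟨u, hu⟩
      obtain ⟨hc, hh, hlast⟩ := hu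
      have hne : l' ≠ [] := by rintro rfl; simp at hh
      refine ⟨l'.map (T.p m), ⟨T.p m u, ?_, ?_, ?_⟩, Ov_map _ _ _ hne hc⟩
      · rw [List.isChain_map]
        exact hc.imp fun a b hab => (T.mor m).hom a b hab
      · rw [List.head?_map, hh]
        simp [x.2 m]
      · rw [List.getLast?_map, hlast]
        rfl)
    l ⟨v, hl⟩
  choose u hu using hw2
  have hthr : ∀ m, T.p m (u (m + 1)) = u m := by
    intro m
    have h1 := Ov_last (hw3 m) (u (m + 1)) (hu (m + 1)).2.2
    rw [(hu m).2.2] at h1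
    exact (Option.some.inj h1).symm
  obtain ⟨γ, hγ⟩ := path_of_walks (fun n => (T.G n).adj) (fun n => (T.G n).refl)
    (fun n => (T.G n).symm) T.p q hq x ⟨u, hthr⟩ w (fun m => (hu m).1) (fun m => (hu m).2.1)
    (fun m => (hu m).2.2) hw3
  refine ⟨⟨u, hthr⟩, γ, ?_, ?_⟩
  · have h1 := (hu n).2.2
    rw [hw1, hl.2.2] at h1
    exact (Option.some.inj h1).symm
  · intro t
    obtain ⟨z, hz1, hz2⟩ := hγ t
    refine ⟨z, hz1, ?_⟩
    have := hz2 n
    rwa [hw1] at this

end Pool.B595.Arc
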