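import Pool.Agent.B595.Arc.Defs2
import Pool.Agent.B595.Arc.JPathw
import Pool.Agent.B595.Arc.JLiftexh

set_option autoImplicit false


namespace Pool.B595.Arc

open Relation


/-! The following statements are already proved elsewhere: use them freely, do not prove them. -/



/-! TARGET: prove this (auxiliary lemmas allowed before it) -/

theorem joined (T : Tower) {X : Type} [MetricSpace X] (q : Thr T.p → X)
    (hq : IsLim (fun n => (T.G n).adj) T.p q) (x y : Thr T.p) : Joined (q x) (q y) := by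
  classical
  have hz : Subsingleton (T.V 0) := T.zero
  let P : ∀ n, List (T.V n) → Prop := fun n l =>
    Wk (T.G n) l (x.1 n) (y.1 n) ∧ Exh (T.G n) l
  have h0 : P 0 [x.1 0] := by
    refine ⟨⟨List.isChain_singleton _, rfl, ?_⟩, ?_⟩
    · have : y.1 0 = x.1 0 := Subsingleton.elim _ _
      rw [this]
      rfl
    · intro v
      refine ⟨1, (T.G 0).H.one_mem, ?_⟩
      rw [List.mem_singleton]
      exact Subsingleton.elim _ _
  have step : ∀ n (l : {l : List (T.V n) // P n l}), ∃ l' : {l : List (T.V (n+1)) // P (n+1) l},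
      Ov (T.G (n+1)).adj (T.p n) l'.1 l.1 := by
    intro n l
    obtain ⟨l, hl1, hl2⟩ := l
    haveI := T.fin (n+1)
    have h : Wk (T.G n) l (T.p n (x.1 (n+1))) (T.p n (y.1 (n+1))) := by
      rw [x.2 n, y.2 n]
      exact hl1
    obtain ⟨l', h1, h2, h3⟩ := Mor.lift_exh (T.mor n) (x.1 (n+1)) (y.1 (n+1)) l h hl2
    exact ⟨⟨l', h1, h3⟩, h2⟩
  choose next hnext using step
  let w : ∀ n, {l : List (T.V n) // P n l} := fun n =>
    Nat.rec (motive := fun n => {l : List (T.V n) // P n l}) ⟨[x.1 0], h0⟩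
      (fun n l => next n l) n
  have hw : ∀ n, Ov (T.G (n+1)).adj (T.p n) (w (n+1)).1 (w n).1 := fun n => hnext n (w n)
  obtain ⟨γ, _⟩ := path_of_walks (fun n => (T.G n).adj) (fun n => (T.G n).refl)
    (fun n => (T.G n).symm) T.p q hq x y (fun n => (w n).1) (fun n => (w n).2.1.1)
    (fun n => (w n).2.1.2.1) (fun n => (w n).2.1.2.2) hw
  exact ⟨γ⟩

end Pool.B595.Arc
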