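import Pool.Agent.B595.Arc.Defs2

set_option autoImplicit false


namespace Pool.B595.Arc

open Relation


/-! TARGET: prove this (auxiliary lemmas allowed before it) -/

theorem metr {Y : Type} (E : ℕ → Y → Y → Prop) (hr : ∀ n x, E n x x)
    (hs : ∀ n x y, E n x y → E n y x)
    (hc : ∀ n x y z, E (n + 1) x y → E (n + 1) y z → E n x z) :
    ∃ (X : Type) (_ : MetricSpace X) (q : Y → X), Function.Surjective q ∧
      (∀ n, ∃ ε > 0, ∀ x y, dist (q x) (q y) < ε → E n x y) ∧
      (∀ ε > 0, ∃ n, ∀ x y, E n x y → dist (q x) (q y) < ε) := by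
  classical
  have hmono1 : ∀ n x y, E (n + 1) x y → E n x y := fun n x y h => hc n x y y h (hr _ _)
  have hmono : ∀ m n, m ≤ n → ∀ x y, E n x y → E m x y := by
    intro m n hmn
    induction hmn with
    | refl => exact fun x y h => h
    | step _ ih => exact fun x y h => ih x y (hmono1 _ x y h)
  have hanti : Antitone (fun n => {p : Y × Y | E n p.1 p.2}) :=
    fun m n hmn p hp => hmono m n hmn _ _ hp
  have hF : (⨅ n, Filter.principal {p : Y × Y | E n p.1 p.2}).HasBasis
      (fun _ : ℕ => True) (fun n => {p : Y × Y | E n p.1 p.2}) :=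
    Filter.hasBasis_iInf_principal hanti.directed_ge
  let u : UniformSpace Y := UniformSpace.ofCore (UniformSpace.Core.mk'
    (⨅ n, Filter.principal {p : Y × Y | E n p.1 p.2})
    (by
      intro r hrr x
      obtain ⟨n, -, hn⟩ := hF.mem_iff.1 hrr
      exact hn (hr n x))
    (by
      intro r hrr
      obtain ⟨n, -, hn⟩ := hF.mem_iff.1 hrr
      exact hF.mem_iff.2 ⟨n, trivial, fun p hp => hn (hs n _ _ hp)⟩)
    (by
      intro r hrr
      obtain ⟨n, -, hn⟩ := hF.mem_iff.1 hrr
      refine ⟨_, hF.mem_of_mem (i := n + 1) trivial, ?_⟩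
      rintro ⟨x, z⟩ ⟨y, h1, h2⟩
      exact hn (hc n x y z h1 h2)))
  have hu : uniformity Y = ⨅ n, Filter.principal {p : Y × Y | E n p.1 p.2} := rfl
  have hcg : (uniformity Y).IsCountablyGenerated := by
    rw [hu]
    exact Filter.isCountablyGenerated_of_seq ⟨_, rfl⟩
  let pm : PseudoMetricSpace Y := UniformSpace.pseudoMetricSpace Y
  refine ⟨SeparationQuotient Y, inferInstance, SeparationQuotient.mk,
    SeparationQuotient.surjective_mk, ?_, ?_⟩
  · intro n
    have h1 : {p : Y × Y | E n p.1 p.2} ∈ uniformity Y := hF.mem_of_mem (i := n) trivial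
    obtain ⟨ε, hε, h⟩ := Metric.mem_uniformity_dist.1 h1
    refine ⟨ε, hε, fun x y hxy => ?_⟩
    rw [SeparationQuotient.dist_mk] at hxy
    exact h hxy
  · intro ε hε
    have h1 : {p : Y × Y | dist p.1 p.2 < ε} ∈ uniformity Y := Metric.dist_mem_uniformity hε
    obtain ⟨n, -, hn⟩ := hF.mem_iff.1 h1
    refine ⟨n, fun x y hxy => ?_⟩
    rw [SeparationQuotient.dist_mk]
    exact hn (show (x, y) ∈ {p : Y × Y | E n p.1 p.2} from hxy)

theorem limit {V : ℕ → Type} (fin : ∀ n, Finite (V n))
    (adj : ∀ n, V n → V n → Prop) (refl : ∀ n x, adj n x x)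
    (symm : ∀ n x y, adj n x y → adj n y x) (p : ∀ n, V (n + 1) → V n)
    (con : ∀ n x y z, adj (n + 1) x y → adj (n + 1) y z → adj n (p n x) (p n z)) :
    ∃ (X : Type) (_ : MetricSpace X) (_ : CompactSpace X) (q : Thr p → X),
      IsLim adj p q := by
  classical
  obtain ⟨X, mX, q, hq, hnear, hsmall⟩ := metr (Y := Thr p) (fun n x y => adj n (x.1 n) (y.1 n))
    (fun n x => refl n _) (fun n x y h => symm n _ _ h)
    (fun n x y z h1 h2 => by
      have h3 := con n _ _ _ h1 h2
      rw [x.2 n, z.2 n] at h3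
      exact h3)
  refine ⟨X, mX, ?_, q, hq, hnear, hsmall⟩
  let τ : ∀ n, TopologicalSpace (V n) := fun n => ⊥
  have hd : ∀ n, DiscreteTopology (V n) := fun n => ⟨rfl⟩
  have hcomp : CompactSpace (∀ n, V n) := inferInstance
  have hclosed : IsClosed {x : ∀ n, V n | ∀ n, p n (x (n + 1)) = x n} := by
    have : {x : ∀ n, V n | ∀ n, p n (x (n + 1)) = x n} =
        ⋂ n, {x : ∀ n, V n | p n (x (n + 1)) = x n} := by
      ext x
      simp
    rw [this]
    refine isClosed_iInter fun n => ?_
    exact isClosed_eq ((continuous_of_discreteTopology (f := p n)).comp (continuous_apply (n + 1)))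
      (continuous_apply n)
  have hC : CompactSpace {x : ∀ n, V n // ∀ n, p n (x (n + 1)) = x n} :=
    isCompact_iff_compactSpace.1 hclosed.isCompact
  have hcont : Continuous (fun x : {x : ∀ n, V n // ∀ n, p n (x (n + 1)) = x n} =>
      q (show Thr p from x)) := by
    rw [continuous_iff_continuousAt]
    intro x
    unfold ContinuousAt
    rw [Metric.tendsto_nhds]
    intro ε hε
    obtain ⟨n, hn⟩ := hsmall ε hε
    have hopen : IsOpen {y : {x : ∀ n, V n // ∀ n, p n (x (n + 1)) = x n} | y.1 n = x.1 n} := by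
      have h1 : Continuous (fun y : {x : ∀ n, V n // ∀ n, p n (x (n + 1)) = x n} => y.1 n) :=
        (continuous_apply n).comp continuous_subtype_val
      exact (isOpen_discrete ({x.1 n} : Set (V n))).preimage h1
    filter_upwards [hopen.mem_nhds (rfl : x.1 n = x.1 n)] with y hy
    apply hn
    have hy' : y.1 n = x.1 n := hy
    show adj n (y.1 n) (x.1 n)
    rw [hy']
    exact refl n _
  have hsurj : Function.Surjective (fun x : {x : ∀ n, V n // ∀ n, p n (x (n + 1)) = x n} =>
      q (show Thr p from x)) := hq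
  have h2 := isCompact_range hcont
  rw [hsurj.range_eq] at h2
  exact ⟨h2⟩

end Pool.B595.Arc
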