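import Pool.Agent.B595.Arc.Defs

set_option autoImplicit false


namespace Pool.B595.Arc

open Relation

/-! TARGET: prove this (auxiliary lemmas allowed before it) -/

theorem circle_gap : ∃ c > 0, ∀ s t : ℝ, 1 / 3 ≤ t - s → t - s ≤ 2 / 3 →
    c ≤ dist (Circle.exp (2 * Real.pi * s)) (Circle.exp (2 * Real.pi * t)) := by
  refine ⟨1, one_pos, fun s t h1 h2 => ?_⟩
  have hpi := Real.pi_pos
  have hc : Real.cos (2 * Real.pi * t - 2 * Real.pi * s) ≤ 0 := by
    apply Real.cos_nonpos_of_pi_div_two_le_of_le <;> nlinarith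
  have hd : dist (Circle.exp (2 * Real.pi * s)) (Circle.exp (2 * Real.pi * t))
      = ‖(Circle.exp (2 * Real.pi * s) : ℂ) - (Circle.exp (2 * Real.pi * t) : ℂ)‖ := by
    first
    | exact (dist_eq_norm (Circle.exp (2 * Real.pi * s) : ℂ) (Circle.exp (2 * Real.pi * t) : ℂ))
    | rfl
  rw [hd]
  have hsq : ‖(Circle.exp (2 * Real.pi * s) : ℂ) - (Circle.exp (2 * Real.pi * t) : ℂ)‖ ^ 2
      = 2 - 2 * Real.cos (2 * Real.pi * t - 2 * Real.pi * s) := by
    rw [Complex.sq_norm, Complex.normSq_apply, Circle.coe_exp, Circle.coe_exp,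
      Complex.sub_re, Complex.sub_im, Complex.exp_ofReal_mul_I_re, Complex.exp_ofReal_mul_I_re,
      Complex.exp_ofReal_mul_I_im, Complex.exp_ofReal_mul_I_im, Real.cos_sub]
    nlinarith [Real.sin_sq_add_cos_sq (2 * Real.pi * s), Real.sin_sq_add_cos_sq (2 * Real.pi * t)]
  nlinarith [norm_nonneg ((Circle.exp (2 * Real.pi * s) : ℂ) - (Circle.exp (2 * Real.pi * t) : ℂ))]

end Pool.B595.Arc
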