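import Pool.Agent.B595.Arc.Defs

set_option autoImplicit false


namespace Pool.B595.Arc

open Relation

/-! TARGET: prove this (auxiliary lemmas allowed before it) -/

theorem refine_blk {V : Type} {Q : Type} [Group Q] (adj : V → V → Prop)
    (tri : ∀ x y z, adj x y → adj y z → adj x z → x = y ∨ y = z ∨ x = z)
    (l : ℕ) (u : ℕ → V) (hu : ∀ a b, a ≤ l → b ≤ l → adj (u a) (u b))
    (σ : V → V → Q) (h1 : ∀ x y, σ x y * σ y x = 1) (h2 : ∀ x, σ x x = 1) :
    ((List.range l).map (fun i => σ (u i) (u (i + 1)))).prod = σ (u 0) (u l) := by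
  induction l with
  | zero => simp [h2]
  | succ l ih =>
    rw [List.range_succ, List.map_append, List.prod_append,
      ih (fun a b ha hb => hu a b (by omega) (by omega))]
    simp only [List.map_cons, List.map_nil, List.prod_singleton]
    rcases tri (u 0) (u l) (u (l + 1)) (hu _ _ (by omega) (by omega)) (hu _ _ (by omega) (by omega))
      (hu _ _ (by omega) (by omega)) with h | h | h
    · rw [h, h2, one_mul]
    · rw [← h, h2, mul_one]
    · rw [← h, h1, h2]

theorem refine_prod {V : Type} {Q : Type} [Group Q] (adj : V → V → Prop)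
    (tri : ∀ x y z, adj x y → adj y z → adj x z → x = y ∨ y = z ∨ x = z)
    (k l : ℕ) (u : ℕ → V)
    (hu : ∀ i < k, ∀ a b, i * l ≤ a → a ≤ (i + 1) * l → i * l ≤ b → b ≤ (i + 1) * l →
      adj (u a) (u b))
    (σ : V → V → Q) (h1 : ∀ x y, σ x y * σ y x = 1) (h2 : ∀ x, σ x x = 1) :
    ((List.range (k * l)).map (fun i => σ (u i) (u (i + 1)))).prod =
      ((List.range k).map (fun i => σ (u (i * l)) (u ((i + 1) * l)))).prod := by
  induction k with
  | zero => simp
  | succ k ih =>
    have e : (k + 1) * l = k * l + l := Nat.succ_mul k l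
    rw [List.range_succ, List.map_append, List.prod_append, e, List.range_add, List.map_append,
      List.prod_append, ih (fun i hi => hu i (by omega))]
    congr 1
    have hb := refine_blk adj tri l (fun a => u (k * l + a))
      (fun a b ha hb => hu k (by omega) _ _ (by omega) (by rw [e]; omega) (by omega)
        (by rw [e]; omega)) σ h1 h2
    simp only [List.map_map, List.map_cons, List.map_nil, List.prod_singleton]
    rw [e]
    exact hb

end Pool.B595.Arc
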