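import Pool.Agent.B595.Arc.Defs

set_option autoImplicit false


namespace Pool.B595.Arc

open Relation

/-! TARGET: prove this (auxiliary lemmas allowed before it) -/

/-- product along a walk -/
def prw {V : Type} {N : ℕ} (σ : V → V → Equiv.Perm (Fin N)) (v : ℕ → V) (k : ℕ) : Equiv.Perm (Fin N) :=
  ((List.range k).map (fun i => σ (v i) (v (i + 1)))).prod

theorem prw_add {V : Type} {N : ℕ} (σ : V → V → Equiv.Perm (Fin N)) (v : ℕ → V) (m n : ℕ) :
    prw σ v (m + n) = prw σ v m * prw σ (fun t => v (m + t)) n := by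
  unfold prw
  rw [List.range_add, List.map_append, List.prod_append, List.map_map]
  rfl

theorem prw_succ {V : Type} {N : ℕ} (σ : V → V → Equiv.Perm (Fin N)) (v : ℕ → V) (m : ℕ) :
    prw σ v (m + 1) = prw σ v m * σ (v m) (v (m + 1)) := by
  unfold prw
  rw [List.range_succ, List.map_append, List.prod_append]
  simp

theorem prw_congr {V : Type} {N : ℕ} (σ : V → V → Equiv.Perm (Fin N)) (v v' : ℕ → V) (m : ℕ)
    (h : ∀ t ≤ m, v t = v' t) : prw σ v m = prw σ v' m := by
  unfold prw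
  congr 1
  apply List.map_congr_left
  intro t ht
  rw [List.mem_range] at ht
  rw [h t ht.le, h (t + 1) ht]

/-- the partial injections -/
def RRtl {V : Type} (k N : ℕ) (v : ℕ → V) (x y : V) (p q : Fin N) : Prop :=
  (∃ i < k, v i = x ∧ v (i + 1) = y ∧ p.val = i + 1 ∧ q.val = i) ∨
  (∃ i < k, v i = y ∧ v (i + 1) = x ∧ p.val = i ∧ q.val = i + 1)

theorem RR_symm {V : Type} (k N : ℕ) (v : ℕ → V) (x y : V) (p q : Fin N) (h : RRtl k N v x y p q) :
    RRtl k N v y x q p := by
  rcases h with ⟨i, h1, h2, h3, h4, h5⟩ | ⟨i, h1, h2, h3, h4, h5⟩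
  · exact Or.inr ⟨i, h1, h2, h3, h5, h4⟩
  · exact Or.inl ⟨i, h1, h2, h3, h5, h4⟩

theorem RR_fun {V : Type} (k N : ℕ) (v : ℕ → V) (h2 : ∀ i, i + 2 ≤ k → v i ≠ v (i + 2)) (x y : V)
    (p q q' : Fin N) (h : RRtl k N v x y p q) (h' : RRtl k N v x y p q') : q = q' := by
  apply Fin.ext
  rcases h with ⟨i, a1, a2, a3, a4, a5⟩ | ⟨i, a1, a2, a3, a4, a5⟩ <;>
  rcases h' with ⟨j, b1, b2, b3, b4, b5⟩ | ⟨j, b1, b2, b3, b4, b5⟩
  · omega
  · exfalso
    have e : j = i + 1 := by omega
    subst e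
    exact h2 i (by omega) (a2.trans b3.symm)
  · exfalso
    have e : i = j + 1 := by omega
    subst e
    exact h2 j (by omega) (b2.trans a3.symm)
  · omega

theorem RR_inj {V : Type} (k N : ℕ) (v : ℕ → V) (h2 : ∀ i, i + 2 ≤ k → v i ≠ v (i + 2)) (x y : V)
    (p p' q : Fin N) (h : RRtl k N v x y p q) (h' : RRtl k N v x y p' q) : p = p' :=
  RR_fun k N v h2 y x q p p' (RR_symm _ _ _ _ _ _ _ h) (RR_symm _ _ _ _ _ _ _ h')

theorem RR_perm {V : Type} (k N : ℕ) (v : ℕ → V) (h2 : ∀ i, i + 2 ≤ k → v i ≠ v (i + 2)) (x y : V) :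
    ∃ π : Equiv.Perm (Fin N), ∀ p q, RRtl k N v x y p q → π p = q := by
  classical
  let s : Set (Fin N) := {p | ∃ q, RRtl k N v x y p q}
  let f : Fin N → Fin N := fun p => if h : ∃ q, RRtl k N v x y p q then h.choose else p
  have hf : ∀ p, p ∈ s → RRtl k N v x y p (f p) := by
    intro p hp
    have hp' : ∃ q, RRtl k N v x y p q := hp
    simp only [f, dif_pos hp']
    exact hp'.choose_spec
  have hinj : Set.InjOn f s := by
    intro p hp p' hp' he
    have h1 := hf p hp
    have h3 := hf p' hp'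
    rw [← he] at h3
    exact RR_inj k N v h2 x y p p' _ h1 h3
  have hcard : Fintype.card (Fin N) = (Finset.univ : Finset (Fin N)).card := by simp
  obtain ⟨g, hg⟩ := Set.MapsTo.exists_equiv_extend_of_card_eq (t := (Finset.univ : Finset (Fin N)))
    hcard (s := s) (f := f) (fun p _ => by simp) hinj
  refine ⟨g.trans (Equiv.subtypeUnivEquiv (fun p => Finset.mem_univ p)), ?_⟩
  intro p q hpq
  have hp : p ∈ s := ⟨q, hpq⟩
  have h1 := hg p hp
  show ((g p : Fin N)) = q
  rw [h1]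
  exact RR_fun k N v h2 x y p _ q (hf p hp) hpq

theorem reduced_contra {V : Type} (k N : ℕ) (hN : k + 1 ≤ N) (hk : 0 < k) (v : ℕ → V)
    (h1 : ∀ i, i + 1 ≤ k → v i ≠ v (i + 1)) (h2 : ∀ i, i + 2 ≤ k → v i ≠ v (i + 2))
    (h : ∀ σ : V → V → Equiv.Perm (Fin N), (∀ x y, σ x y * σ y x = 1) → (∀ x, σ x x = 1) →
      prw σ v k = 1) : False := by
  classical
  choose τ hτ using RR_perm k N v h2
  letI : LinearOrder V := linearOrderOfSTO (WellOrderingRel : V → V → Prop)
  let σ : V → V → Equiv.Perm (Fin N) := fun x y => if x = y then 1 else if x < y then τ x y else (τ y x)⁻¹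
  have hσ1 : ∀ x, σ x x = 1 := by intro x; simp [σ]
  have hσ2 : ∀ x y, σ x y * σ y x = 1 := by
    intro x y
    rcases lt_trichotomy x y with hlt | heq | hgt
    · have e1 : σ x y = τ x y := by simp [σ, hlt.ne, hlt]
      have e2 : σ y x = (τ x y)⁻¹ := by simp [σ, hlt.ne', hlt.not_gt]
      rw [e1, e2, mul_inv_cancel]
    · subst heq; rw [hσ1, one_mul]
    · have e1 : σ y x = τ y x := by simp [σ, hgt.ne, hgt]
      have e2 : σ x y = (τ y x)⁻¹ := by simp [σ, hgt.ne', hgt.not_gt]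
      rw [e1, e2, inv_mul_cancel]
  have hσ3 : ∀ x y, x ≠ y → ∀ p q, RRtl k N v x y p q → σ x y p = q := by
    intro x y hxy p q hR
    rcases lt_trichotomy x y with hlt | heq | hgt
    · have e1 : σ x y = τ x y := by simp [σ, hlt.ne, hlt]
      rw [e1]; exact hτ x y p q hR
    · exact absurd heq hxy
    · have e2 : σ x y = (τ y x)⁻¹ := by simp [σ, hgt.ne', hgt.not_gt]
      rw [e2, Equiv.Perm.inv_eq_iff_eq]
      exact (hτ y x q p (RR_symm _ _ _ _ _ _ _ hR)).symm
  have hmain : ∀ m (hm : m ≤ k), prw σ v m ⟨m, by omega⟩ = ⟨0, by omega⟩ := by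
    intro m
    induction m with
    | zero => intro _; simp [prw]
    | succ m ih =>
      intro hm
      rw [prw_succ, Equiv.Perm.mul_apply]
      have : σ (v m) (v (m + 1)) ⟨m + 1, by omega⟩ = ⟨m, by omega⟩ := by
        apply hσ3 _ _ (h1 m hm)
        left
        exact ⟨m, by omega, rfl, rfl, rfl, rfl⟩
      rw [this]
      exact ih (by omega)
  have hk1 := hmain k le_rfl
  rw [h σ hσ2 hσ1] at hk1
  have := congrArg Fin.val hk1
  simp at this
  omega

theorem treelike_aux {V : Type} (N : ℕ) : ∀ (k : ℕ) (hN : k + 1 ≤ N) (v : ℕ → V) (hv : v k = v 0)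
    (h : ∀ σ : V → V → Equiv.Perm (Fin N), (∀ x y, σ x y * σ y x = 1) → (∀ x, σ x x = 1) →
      prw σ v k = 1)
    (i j : ℕ) (hij : i ≤ j) (hjk : j ≤ k),
    ∃ a b c, a ≤ i ∧ i ≤ b ∧ b ≤ j ∧ j ≤ c ∧ c ≤ k ∧ v a = v b ∧ v b = v c := by
  intro k
  induction k using Nat.strong_induction_on with
  | _ k ih =>
  intro hN v hv h i j hij hjk
  rcases eq_or_lt_of_le hij with heq | hlt
  · subst heq
    exact ⟨i, i, i, le_rfl, le_rfl, le_rfl, le_rfl, hjk, rfl, rfl⟩
  have hk : 0 < k := by omega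
  by_cases hc1 : ∃ i0, i0 + 1 ≤ k ∧ v i0 = v (i0 + 1)
  · obtain ⟨i0, hi0, he⟩ := hc1
    obtain ⟨n, rfl⟩ : ∃ n, k = i0 + 1 + n := ⟨k - (i0 + 1), by omega⟩
    let v' : ℕ → V := fun t => if t ≤ i0 then v t else v (t + 1)
    have hv'1 : ∀ t ≤ i0, v' t = v t := fun t ht => by simp [v', ht]
    have hv'2 : ∀ t, i0 < t → v' t = v (t + 1) := fun t ht => by simp [v', not_le.mpr ht]
    have hshift : ∀ t, v' (i0 + t) = v (i0 + 1 + t) := by
      intro t
      rcases Nat.eq_zero_or_pos t with h0 | hpos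
      · subst h0
        rw [add_zero, add_zero, hv'1 i0 le_rfl, he]
      · rw [hv'2 _ (by omega)]
        congr 1; omega
    have hprod : ∀ σ : V → V → Equiv.Perm (Fin N), (∀ x y, σ x y * σ y x = 1) → (∀ x, σ x x = 1) →
        prw σ v' (i0 + n) = 1 := by
      intro σ hσ hσ'
      have h1 := h σ hσ hσ'
      rw [prw_add, prw_succ, ← he, hσ', mul_one] at h1
      rw [prw_add, prw_congr σ v' v i0 hv'1]
      have : (fun t => v' (i0 + t)) = (fun t => v (i0 + 1 + t)) := funext hshift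
      rw [this]; exact h1
    have hv' : v' (i0 + n) = v' 0 := by
      rw [hshift n, hv'1 0 (Nat.zero_le _)]; exact hv
    let g : ℕ → ℕ := fun t => if t ≤ i0 then t else t - 1
    have hg1 : ∀ t ≤ i0, g t = t := fun t ht => by simp [g, ht]
    have hg2 : ∀ t, i0 < t → g t = t - 1 := fun t ht => by simp [g, not_le.mpr ht]
    have hgij : g i ≤ g j ∧ g j ≤ i0 + n := by
      rcases Nat.lt_or_ge i0 i with hi | hi <;> rcases Nat.lt_or_ge i0 j with hj | hj
      · rw [hg2 i hi, hg2 j hj]; omega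
      · omega
      · rw [hg1 i hi, hg2 j hj]; omega
      · rw [hg1 i hi, hg1 j hj]; omega
    obtain ⟨a', b', c', ha, hb1, hb2, hc, hck, hab, hbc⟩ :=
      ih (i0 + n) (by omega) (by omega) v' hv' hprod (g i) (g j) hgij.1 hgij.2
    have hA : ∃ a ≤ i, v a = v' a' := by
      rcases Nat.lt_or_ge i0 a' with h0 | h0
      · refine ⟨a' + 1, ?_, (hv'2 a' h0).symm⟩
        rcases Nat.lt_or_ge i0 i with hi | hi
        · rw [hg2 i hi] at ha; omega
        · rw [hg1 i hi] at ha; omega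
      · refine ⟨a', ?_, (hv'1 a' h0).symm⟩
        rcases Nat.lt_or_ge i0 i with hi | hi
        · omega
        · rw [hg1 i hi] at ha; omega
    have hB : ∃ b, i ≤ b ∧ b ≤ j ∧ v b = v' b' := by
      rcases Nat.lt_trichotomy b' i0 with h0 | h0 | h0
      · refine ⟨b', ?_, ?_, (hv'1 b' h0.le).symm⟩
        · rcases Nat.lt_or_ge i0 i with hi | hi
          · rw [hg2 i hi] at hb1; omega
          · rw [hg1 i hi] at hb1; omega
        · rcases Nat.lt_or_ge i0 j with hj | hj
          · omega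
          · rw [hg1 j hj] at hb2; omega
      · subst h0
        rcases Nat.lt_or_ge b' i with hi | hi
        · rw [hg2 i hi] at hb1
          refine ⟨b' + 1, by omega, by omega, ?_⟩
          rw [hv'1 b' le_rfl, he]
        · refine ⟨b', hi, ?_, (hv'1 b' le_rfl).symm⟩
          rcases Nat.lt_or_ge b' j with hj | hj
          · omega
          · rw [hg1 j hj] at hb2; omega
      · refine ⟨b' + 1, ?_, ?_, (hv'2 b' h0).symm⟩
        · rcases Nat.lt_or_ge i0 i with hi | hi
          · rw [hg2 i hi] at hb1; omega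
          · omega
        · rcases Nat.lt_or_ge i0 j with hj | hj
          · rw [hg2 j hj] at hb2; omega
          · rw [hg1 j hj] at hb2; omega
    have hC : ∃ c, j ≤ c ∧ c ≤ i0 + 1 + n ∧ v c = v' c' := by
      rcases Nat.lt_trichotomy c' i0 with h0 | h0 | h0
      · refine ⟨c', ?_, by omega, (hv'1 c' h0.le).symm⟩
        rcases Nat.lt_or_ge i0 j with hj | hj
        · rw [hg2 j hj] at hc; omega
        · rw [hg1 j hj] at hc; omega
      · subst h0
        refine ⟨c' + 1, ?_, by omega, ?_⟩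
        · rcases Nat.lt_or_ge c' j with hj | hj
          · rw [hg2 j hj] at hc; omega
          · omega
        · rw [hv'1 c' le_rfl, he]
      · refine ⟨c' + 1, ?_, by omega, (hv'2 c' h0).symm⟩
        rcases Nat.lt_or_ge i0 j with hj | hj
        · rw [hg2 j hj] at hc; omega
        · omega
    obtain ⟨a, ha1, ha2⟩ := hA
    obtain ⟨b, hb3, hb4, hb5⟩ := hB
    obtain ⟨c, hc3, hc4, hc5⟩ := hC
    exact ⟨a, b, c, ha1, hb3, hb4, hc3, hc4, by rw [ha2, hb5, hab], by rw [hb5, hc5, hbc]⟩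
  by_cases hc2 : ∃ i0, i0 + 2 ≤ k ∧ v i0 = v (i0 + 2)
  · obtain ⟨i0, hi0, he⟩ := hc2
    obtain ⟨n, rfl⟩ : ∃ n, k = i0 + 2 + n := ⟨k - (i0 + 2), by omega⟩
    let v' : ℕ → V := fun t => if t ≤ i0 then v t else v (t + 2)
    have hv'1 : ∀ t ≤ i0, v' t = v t := fun t ht => by simp [v', ht]
    have hv'2 : ∀ t, i0 < t → v' t = v (t + 2) := fun t ht => by simp [v', not_le.mpr ht]
    have hshift : ∀ t, v' (i0 + t) = v (i0 + 2 + t) := by
      intro t
      rcases Nat.eq_zero_or_pos t with h0 | hpos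
      · subst h0
        rw [add_zero, add_zero, hv'1 i0 le_rfl, he]
      · rw [hv'2 _ (by omega)]
        congr 1; omega
    have hprod : ∀ σ : V → V → Equiv.Perm (Fin N), (∀ x y, σ x y * σ y x = 1) → (∀ x, σ x x = 1) →
        prw σ v' (i0 + n) = 1 := by
      intro σ hσ hσ'
      have h1 := h σ hσ hσ'
      rw [prw_add, prw_succ, prw_succ, mul_assoc (prw σ v i0)] at h1
      have h3 : σ (v i0) (v (i0 + 1)) * σ (v (i0 + 1)) (v (i0 + 1 + 1)) = 1 := by
        have : v (i0 + 1 + 1) = v i0 := he.symm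
        rw [this]; exact hσ _ _
      rw [h3, mul_one] at h1
      rw [prw_add, prw_congr σ v' v i0 hv'1]
      have : (fun t => v' (i0 + t)) = (fun t => v (i0 + 2 + t)) := funext hshift
      rw [this]; exact h1
    have hv' : v' (i0 + n) = v' 0 := by
      rw [hshift n, hv'1 0 (Nat.zero_le _)]; exact hv
    let g : ℕ → ℕ := fun t => if t ≤ i0 then t else if t = i0 + 1 then i0 else t - 2
    have hg1 : ∀ t ≤ i0, g t = t := fun t ht => by simp [g, ht]
    have hg3 : g (i0 + 1) = i0 := by simp [g]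
    have hg2 : ∀ t, i0 + 1 < t → g t = t - 2 := fun t ht => by
      have e1 : ¬ t ≤ i0 := by omega
      have e2 : ¬ t = i0 + 1 := by omega
      simp [g, e1, e2]
    have hgle : ∀ t, g t ≤ t ∧ t ≤ g t + 2 := by
      intro t
      rcases Nat.lt_trichotomy t (i0 + 1) with h0 | h0 | h0
      · rw [hg1 t (by omega)]; omega
      · subst h0; rw [hg3]; omega
      · rw [hg2 t h0]; omega
    have hgij : g i ≤ g j ∧ g j ≤ i0 + n := by
      rcases Nat.lt_trichotomy i (i0 + 1) with hi | hi | hi <;>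
      rcases Nat.lt_trichotomy j (i0 + 1) with hj | hj | hj
      · rw [hg1 i (by omega), hg1 j (by omega)]; omega
      · subst hj; rw [hg1 i (by omega), hg3]; omega
      · rw [hg1 i (by omega), hg2 j hj]; omega
      · omega
      · omega
      · subst hi; rw [hg3, hg2 j hj]; omega
      · omega
      · omega
      · rw [hg2 i hi, hg2 j hj]; omega
    obtain ⟨a', b', c', ha, hb1, hb2, hc, hck, hab, hbc⟩ :=
      ih (i0 + n) (by omega) (by omega) v' hv' hprod (g i) (g j) hgij.1 hgij.2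
    have hA : ∃ a ≤ i, v a = v' a' := by
      rcases Nat.lt_or_ge i0 a' with h0 | h0
      · refine ⟨a' + 2, ?_, (hv'2 a' h0).symm⟩
        rcases Nat.lt_trichotomy i (i0 + 1) with hi | hi | hi
        · rw [hg1 i (by omega)] at ha; omega
        · subst hi; rw [hg3] at ha; omega
        · rw [hg2 i hi] at ha; omega
      · exact ⟨a', le_trans ha (hgle i).1, (hv'1 a' h0).symm⟩
    have hB : ∃ b, i ≤ b ∧ b ≤ j ∧ v b = v' b' := by
      rcases Nat.lt_trichotomy b' i0 with h0 | h0 | h0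
      · refine ⟨b', ?_, le_trans hb2 (hgle j).1, (hv'1 b' h0.le).symm⟩
        rcases Nat.lt_trichotomy i (i0 + 1) with hi | hi | hi
        · rw [hg1 i (by omega)] at hb1; omega
        · subst hi; rw [hg3] at hb1; omega
        · rw [hg2 i hi] at hb1; omega
      · subst h0
        rcases Nat.lt_or_ge b' i with hi | hi
        · have h4 := (hgle i).2
          have h5 : i ≤ b' + 2 := by omega
          refine ⟨b' + 2, h5, by omega, ?_⟩
          rw [hv'1 b' le_rfl, he]
        · exact ⟨b', hi, le_trans hb2 (hgle j).1, (hv'1 b' le_rfl).symm⟩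
      · refine ⟨b' + 2, ?_, ?_, (hv'2 b' h0).symm⟩
        · have h4 := (hgle i).2
          omega
        · rcases Nat.lt_trichotomy j (i0 + 1) with hj | hj | hj
          · rw [hg1 j (by omega)] at hb2; omega
          · subst hj; rw [hg3] at hb2; omega
          · rw [hg2 j hj] at hb2; omega
    have hC : ∃ c, j ≤ c ∧ c ≤ i0 + 2 + n ∧ v c = v' c' := by
      rcases Nat.lt_trichotomy c' i0 with h0 | h0 | h0
      · refine ⟨c', ?_, by omega, (hv'1 c' h0.le).symm⟩
        rcases Nat.lt_trichotomy j (i0 + 1) with hj | hj | hj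
        · rw [hg1 j (by omega)] at hc; omega
        · subst hj; rw [hg3] at hc; omega
        · rw [hg2 j hj] at hc; omega
      · subst h0
        refine ⟨c' + 2, ?_, by omega, ?_⟩
        · have h4 := (hgle j).2
          omega
        · rw [hv'1 c' le_rfl, he]
      · refine ⟨c' + 2, ?_, by omega, (hv'2 c' h0).symm⟩
        have h4 := (hgle j).2
        omega
    obtain ⟨a, ha1, ha2⟩ := hA
    obtain ⟨b, hb3, hb4, hb5⟩ := hB
    obtain ⟨c, hc3, hc4, hc5⟩ := hC
    exact ⟨a, b, c, ha1, hb3, hb4, hc3, hc4, by rw [ha2, hb5, hab], by rw [hb5, hc5, hbc]⟩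
  · exfalso
    push Not at hc1 hc2
    exact reduced_contra k N hN hk v hc1 hc2 h

theorem treelike {V : Type} (k N : ℕ) (hN : k + 1 ≤ N) (v : ℕ → V) (hv : v k = v 0)
    (h : ∀ σ : V → V → Equiv.Perm (Fin N), (∀ x y, σ x y * σ y x = 1) → (∀ x, σ x x = 1) →
      ((List.range k).map (fun i => σ (v i) (v (i + 1)))).prod = 1)
    (i j : ℕ) (hij : i ≤ j) (hjk : j ≤ k) :
    ∃ a b c, a ≤ i ∧ i ≤ b ∧ b ≤ j ∧ j ≤ c ∧ c ≤ k ∧ v a = v b ∧ v b = v c :=
  treelike_aux N k hN v hv h i j hij hjk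

end Pool.B595.Arc
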