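import Pool.Agent.B595.Arc.Defs2
import Pool.Agent.B595.Arc.JProjkt
import Pool.Agent.B595.Arc.JRefine
import Pool.Agent.B595.Arc.JTreelike

set_option autoImplicit false


namespace Pool.B595.Arc

open Relation


/-! The following statements are already proved elsewhere: use them freely, do not prove them. -/




/-! TARGET: prove this (auxiliary lemmas allowed before it) -/

theorem same_vertex (T : Tower) {X : Type} [MetricSpace X] (q : Thr T.p → X)
    (hq : IsLim (fun n => (T.G n).adj) T.p q) (F : ℝ → X) (hF : Continuous F)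
    (per : ∀ t, F (t + 1) = F t) (n : ℕ) (v0 : T.V n)
    (av : ∀ (z : Thr T.p) (t : ℝ), q z = F t → ∀ h ∈ (T.G n).H, z.1 n ≠ h v0) :
    ∃ (s t : ℝ) (z z' : Thr T.p), 0 ≤ s ∧ t ≤ 1 ∧ 1 / 3 ≤ t - s ∧ t - s ≤ 2 / 3 ∧
      q z = F s ∧ q z' = F t ∧ z.1 n = z'.1 n := by
  choose a ha using hq.surj
  have huc : UniformContinuousOn F (Set.Icc 0 1) :=
    isCompact_Icc.uniformContinuousOn_of_continuous hF.continuousOn
  have hlev : ∀ m, ∃ δ > 0, ∀ s t : ℝ, s ∈ Set.Icc (0 : ℝ) 1 → t ∈ Set.Icc (0 : ℝ) 1 →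
      |s - t| < δ → (T.G m).adj ((a (F s)).1 m) ((a (F t)).1 m) := by
    intro m
    obtain ⟨ε, hε, hnear⟩ := hq.near m
    obtain ⟨δ, hδ, hd⟩ := Metric.uniformContinuousOn_iff.mp huc ε hε
    refine ⟨δ, hδ, fun s t hs ht hst => ?_⟩
    apply hnear
    rw [ha, ha]
    exact hd s hs t ht (by rw [Real.dist_eq]; exact hst)
  obtain ⟨δn, hδn, hadjn⟩ := hlev n
  obtain ⟨k', hk'⟩ := exists_nat_gt (1 / δn)
  have hk'pos : 0 < (k' : ℝ) := lt_trans (by positivity) hk'
  have hk'1 : 1 ≤ k' := by exact_mod_cast hk'pos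
  set k : ℕ := 3 * k' with hk
  have hkR : (k : ℝ) = 3 * k' := by rw [hk]; push_cast; ring
  have hkpos : 0 < (k : ℝ) := by rw [hkR]; positivity
  have h1k : 1 / (k : ℝ) < δn := by
    rw [div_lt_iff₀ hkpos, hkR]
    rw [div_lt_iff₀ hδn] at hk'
    nlinarith
  obtain ⟨m, hnm, π, hπ, hkill⟩ := kill_thread T n (k + 1) v0
  obtain ⟨δm, hδm, hadjm⟩ := hlev m
  obtain ⟨l, hl⟩ := exists_nat_gt (1 / δm)
  have hlpos : 0 < (l : ℝ) := lt_trans (by positivity) hl
  have hklpos : 0 < (k : ℝ) * l := by positivity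
  have h1kl : 1 / ((k : ℝ) * l) < δm := by
    rw [div_lt_iff₀ hklpos]
    rw [div_lt_iff₀ hδm] at hl
    have h1 : (1 : ℝ) ≤ k := by
      have : 1 ≤ k := by omega
      exact_mod_cast this
    nlinarith [mul_pos hδm hlpos]
  set v : ℕ → T.V n := fun i => (a (F (i / k))).1 n with hv
  set w : ℕ → T.V m := fun j => (a (F (j / (k * l)))).1 m with hw
  set u : ℕ → T.V n := fun j => (a (F (j / (k * l)))).1 n with hu
  have hF10 : F 1 = F 0 := by simpa using per 0
  have hvk : v k = v 0 := by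
    simp only [hv]
    rw [div_self hkpos.ne', Nat.cast_zero, zero_div, hF10]
  have hwk : w (k * l) = w 0 := by
    simp only [hw]
    rw [Nat.cast_mul, div_self hklpos.ne', Nat.cast_zero, zero_div, hF10]
  have hπw : ∀ j, π (w j) = u j := fun j => hπ _
  have hmem : ∀ j : ℕ, j ≤ k * l → (j : ℝ) / (k * l) ∈ Set.Icc (0 : ℝ) 1 := by
    intro j hj
    refine ⟨by positivity, ?_⟩
    rw [div_le_one hklpos]
    exact_mod_cast hj
  have hprod : ∀ σ : T.V n → T.V n → Equiv.Perm (Fin (k + 1)), (∀ x y, σ x y * σ y x = 1) →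
      (∀ x, σ x x = 1) → ((List.range k).map (fun i => σ (v i) (v (i + 1)))).prod = 1 := by
    intro σ h1 h2
    have hA := hkill (k * l) w (fun i hi => by
        apply hadjm
        · exact hmem i hi.le
        · exact hmem (i + 1) hi
        · rw [← sub_div]
          push_cast
          rw [show ((i : ℝ) - (i + 1)) = -1 by ring, abs_div, abs_neg, abs_one,
            abs_of_pos hklpos]
          exact h1kl) hwk
      (fun i hi h hh => by
        rw [hπw]
        exact av _ _ (ha _) h hh) σ h1 h2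
    simp only [hπw] at hA
    have hB := refine_prod (T.G n).adj (T.tri n) k l u (fun i hi b c hb1 hb2 hc1 hc2 => by
        have hle : (i + 1) * l ≤ k * l := Nat.mul_le_mul_right l hi
        apply hadjn
        · exact hmem b (by omega)
        · exact hmem c (by omega)
        · rw [← sub_div, abs_div, abs_of_pos hklpos]
          have hbc : |(b : ℝ) - c| ≤ l := by
            have e1 : ((i * l : ℕ) : ℝ) ≤ b := by exact_mod_cast hb1
            have e2 : (b : ℝ) ≤ (((i + 1) * l : ℕ) : ℝ) := by exact_mod_cast hb2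
            have e3 : ((i * l : ℕ) : ℝ) ≤ c := by exact_mod_cast hc1
            have e4 : (c : ℝ) ≤ (((i + 1) * l : ℕ) : ℝ) := by exact_mod_cast hc2
            push_cast at e1 e2 e3 e4
            rw [abs_le]
            constructor <;> nlinarith
          calc |(b : ℝ) - c| / (k * l) ≤ l / (k * l) := by gcongr
            _ = 1 / k := by field_simp
            _ < δn := h1k) σ h1 h2
    rw [hA] at hB
    have hul : ∀ i : ℕ, u (i * l) = v i := by
      intro i
      simp only [hu, hv]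
      have : ((i * l : ℕ) : ℝ) / (k * l) = i / k := by
        push_cast
        field_simp
      rw [this]
    simp only [hul] at hB
    exact hB.symm
  obtain ⟨x, y, z, hx, hy1, hy2, hz1, hz2, hxy, hyz⟩ :=
    treelike k (k + 1) le_rfl v hvk hprod k' (2 * k') (by omega) (by omega)
  have fin : ∀ b c : ℕ, b + k' ≤ c → c ≤ b + 2 * k' → c ≤ k → v b = v c →
      ∃ (s t : ℝ) (z z' : Thr T.p), 0 ≤ s ∧ t ≤ 1 ∧ 1 / 3 ≤ t - s ∧ t - s ≤ 2 / 3 ∧
      q z = F s ∧ q z' = F t ∧ z.1 n = z'.1 n := by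
    intro b c h1 h2 h3 h4
    refine ⟨b / k, c / k, a (F (b / k)), a (F (c / k)), by positivity, ?_, ?_, ?_, ha _, ha _, h4⟩
    · rw [div_le_one hkpos]; exact_mod_cast h3
    · rw [← sub_div, le_div_iff₀ hkpos, hkR]
      have : (b : ℝ) + k' ≤ c := by exact_mod_cast h1
      linarith
    · rw [← sub_div, div_le_iff₀ hkpos, hkR]
      have : (c : ℝ) ≤ b + 2 * k' := by exact_mod_cast h2
      linarith
  by_cases c1 : x + k' ≤ y
  · exact fin x y c1 (by omega) (by omega) hxy
  by_cases c2 : y + k' ≤ z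
  · exact fin y z c2 (by omega) (by omega) hyz
  · exact fin x z (by omega) (by omega) (by omega) (hxy.trans hyz)

end Pool.B595.Arc
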