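import Pool.Agent.B595.Arc.Defs2
import Pool.Agent.B595.Arc.JOfconn
import Pool.Agent.B595.Arc.JLift1

set_option autoImplicit false


namespace Pool.B595.Arc

open Relation


/-! The following statements are already proved elsewhere: use them freely, do not prove them. -/



/-! TARGET: prove this (auxiliary lemmas allowed before it) -/

/-- edges of the tripod, oriented -/
def tripodE (x y : Option (Fin 3 × Bool)) : Prop :=
  (x = none ∧ ∃ i, y = some (i, false)) ∨ (∃ i, x = some (i, false) ∧ y = some (i, true))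

theorem tripod_conn (x : Option (Fin 3 × Bool)) :
    ReflTransGen (fun x y => x = y ∨ tripodE x y ∨ tripodE y x) none x ∧
    ReflTransGen (fun x y => x = y ∨ tripodE x y ∨ tripodE y x) x none := by
  rcases x with _ | ⟨i, b⟩
  · exact ⟨ReflTransGen.refl, ReflTransGen.refl⟩
  · have h1 : tripodE none (some (i, false)) := Or.inl ⟨rfl, i, rfl⟩
    have h2 : tripodE (some (i, false)) (some (i, true)) := Or.inr ⟨i, rfl, rfl⟩
    have a1 : ReflTransGen (fun x y => x = y ∨ tripodE x y ∨ tripodE y x) none
        (some (i, false)) := ReflTransGen.single (Or.inr (Or.inl h1))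
    have a2 : ReflTransGen (fun x y => x = y ∨ tripodE x y ∨ tripodE y x) (some (i, false))
        none := ReflTransGen.single (Or.inr (Or.inr h1))
    have a3 : ReflTransGen (fun x y => x = y ∨ tripodE x y ∨ tripodE y x) (some (i, false))
        (some (i, true)) := ReflTransGen.single (Or.inr (Or.inl h2))
    have a4 : ReflTransGen (fun x y => x = y ∨ tripodE x y ∨ tripodE y x) (some (i, true))
        (some (i, false)) := ReflTransGen.single (Or.inr (Or.inr h2))
    cases b
    · exact ⟨a1, a2⟩
    · exact ⟨a1.trans a3, a4.trans a2⟩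

/-- the tripod -/
def tripodObj : Obj (Option (Fin 3 × Bool)) where
  adj := fun x y => x = y ∨ tripodE x y ∨ tripodE y x
  refl := fun x => Or.inl rfl
  symm := by
    rintro x y (h | h | h)
    · exact Or.inl h.symm
    · exact Or.inr (Or.inr h)
    · exact Or.inr (Or.inl h)
  H := ⊥
  hadj := by
    intro h hh x y hxy
    rw [Subgroup.mem_bot] at hh
    subst hh
    simpa using hxy
  free := by
    intro h hh x _
    rw [Subgroup.mem_bot] at hh
    exact hh
  conn := fun x y => (tripod_conn x).2.trans (tripod_conn y).1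

theorem tripod_ov {W V : Type} {r : W → W → Prop} {f : W → V} {l : List W} {m : List V}
    (h : Ov r f l m) : ∀ b ∈ l, f b ∈ m := by
  induction h with
  | single b => intro b' hb'; simp at hb'; subst hb'; simp
  | stay b c l m _ hbc _ ih =>
    intro b' hb'
    rcases List.mem_cons.1 hb' with rfl | hb'
    · rw [hbc]; exact ih c (by simp)
    · exact ih b' hb'
  | step b c l m _ _ ih =>
    intro b' hb'
    rcases List.mem_cons.1 hb' with rfl | hb'
    · simp
    · exact List.mem_cons_of_mem _ (ih b' hb')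

theorem tripod_nadj {i j : Fin 3} (hij : i ≠ j) {x : Option (Fin 3 × Bool)}
    (hx : x ∈ [none, some (i, false), some (i, true)]) : ¬ tripodObj.adj x (some (j, true)) := by
  rintro (h | h | h)
  · subst h; simp at hx; exact hij hx.symm
  · rcases h with ⟨_, k, hk⟩ | ⟨k, hk, hk'⟩
    · simp at hk
    · subst hk
      simp at hx hk'
      exact hij (hx.symm.trans hk'.symm)
  · rcases h with ⟨h, _⟩ | ⟨k, hk, hk'⟩
    · simp at h
    · simp at hk

/-- the tripod: a level with a morphism onto a tripod -/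
theorem tripod (T : Tower) : ∃ (m : ℕ) (o : T.V m) (A : Fin 3 → List (T.V m)) (t : Fin 3 → T.V m)
    (c : Fin 3 → Set (T.V m)),
    (∀ i, Wk (T.G m) (A i) o (t i)) ∧ (∀ i, t i ∈ c i) ∧
    (∀ i j, i ≠ j → ∀ v ∈ A i, ∀ u ∈ c j, ¬ (T.G m).adj v u) ∧
    (∀ i j, i ≠ j → ∀ v ∈ c i, ∀ u ∈ c j, ¬ (T.G m).adj v u) ∧
    (∀ i, ∀ h ∈ (T.G m).H, ∀ v, h v ∈ c i ↔ v ∈ c i) := by
  have hz := T.zero
  obtain ⟨v0⟩ := T.ne 0
  have hM : Mor tripodObj (T.G 0) (fun _ => v0) := by
    refine Mor.of_conn _ (fun x y _ => (T.G 0).refl v0) ?_ ?_ ?_ ?_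
    · intro x y _
      exact ⟨none, none, Or.inl rfl, Subsingleton.elim _ _, Subsingleton.elim _ _⟩
    · intro h _
      exact ⟨1, Subgroup.one_mem _, fun x => rfl⟩
    · intro k _
      exact ⟨1, Subgroup.one_mem _, fun x => Subsingleton.elim _ _⟩
    · intro x y _
      exact ReflTransGen.mono (fun a b hab => ⟨rfl, rfl, hab⟩) x y (tripodObj.conn x y)
  obtain ⟨m, -, -, g, hg, -⟩ := T.ext 0 0 (Option (Fin 3 × Bool)) inferInstance tripodObj _ hM
  obtain ⟨o, -, -, ho, -⟩ := hg.edge none none (Or.inl rfl)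
  have hlift : ∀ i : Fin 3, ∃ z l, g z = some (i, true) ∧ Wk (T.G m) l o z ∧
      Ov (T.G m).adj g l [none, some (i, false), some (i, true)] := by
    intro i
    refine hg.walk_lift o (some (i, true)) _ ?_
    rw [ho]
    refine ⟨?_, rfl, rfl⟩
    refine List.IsChain.cons_cons ?_ (List.IsChain.cons_cons ?_ (List.IsChain.singleton _))
    · exact Or.inr (Or.inl (Or.inl ⟨rfl, i, rfl⟩))
    · exact Or.inr (Or.inl (Or.inr ⟨i, rfl, rfl⟩))
  choose t A ht hA hO using hlift
  refine ⟨m, o, A, t, fun i => {v | g v = some (i, true)}, hA, ht, ?_, ?_, ?_⟩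
  · intro i j hij v hv u hu hadj
    have h1 := hg.hom _ _ hadj
    have hu' : g u = some (j, true) := hu
    rw [hu'] at h1
    exact tripod_nadj hij (tripod_ov (hO i) v hv) h1
  · intro i j hij v hv u hu hadj
    have h1 := hg.hom _ _ hadj
    have hu' : g u = some (j, true) := hu
    have hv' : g v = some (i, true) := hv
    rw [hu', hv'] at h1
    exact tripod_nadj hij (by simp) h1
  · intro i h hh v
    obtain ⟨k, hk, hk'⟩ := hg.eq1 h hh
    have hk1 : k = 1 := by
      have : k ∈ (⊥ : Subgroup (Equiv.Perm (Option (Fin 3 × Bool)))) := hk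
      rwa [Subgroup.mem_bot] at this
    subst hk1
    have : g (h v) = g v := hk' v
    simp only [Set.mem_ofPred_eq, this]

end Pool.B595.Arc
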