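import Pool.Agent.B595.Arc.Defs2
import Pool.Agent.B595.Arc.JTripod
import Pool.Agent.B595.Arc.JProjkt
import Pool.Agent.B595.Arc.JSamev
import Pool.Agent.B595.Arc.JCircgap

set_option autoImplicit false


namespace Pool.B595.Arc

open Relation


/-! The following statements are already proved elsewhere: use them freely, do not prove them. -/






/-! TARGET: prove this (auxiliary lemmas allowed before it) -/

theorem small_circle (T : Tower) {X : Type} [MetricSpace X] [CompactSpace X] (q : Thr T.p → X)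
    (hq : IsLim (fun n => (T.G n).adj) T.p q) :
    ∃ ε > 0, ∀ f : Circle → X, Continuous f → Function.Injective f →
      ¬ (Metric.diam (Set.range f) < ε) := by
  obtain ⟨m, o, A, t, c, hA, htc, h1, h2, hinv⟩ := tripod T
  obtain ⟨ε, hε, hnear⟩ := hq.near m
  refine ⟨ε, hε, fun f hf hinj hdiam => ?_⟩
  have hbd : Bornology.IsBounded (Set.range f) := (isCompact_range hf).isBounded
  have hdist : ∀ a b, dist (f a) (f b) < ε := fun a b =>
    lt_of_le_of_lt (Metric.dist_le_diam_of_mem hbd ⟨a, rfl⟩ ⟨b, rfl⟩) hdiam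
  have hi : ∃ i : Fin 3, ∀ (z : Thr T.p) (a : Circle), q z = f a → z.1 m ∉ c i := by
    by_contra hcon
    push Not at hcon
    obtain ⟨z, a, hz, hzc⟩ := hcon 0
    obtain ⟨z', a', hz', hzc'⟩ := hcon 1
    apply h2 0 1 (by decide) _ hzc _ hzc'
    apply hnear
    rw [hz, hz']
    exact hdist _ _
  obtain ⟨i, hi⟩ := hi
  obtain ⟨c0, hc0, hgap⟩ := circle_gap
  have hη : ∃ η > 0, ∀ a b : Circle, c0 ≤ dist a b → η ≤ dist (f a) (f b) := by
    have hS : IsCompact {p : Circle × Circle | c0 ≤ dist p.1 p.2} :=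
      (isClosed_le continuous_const continuous_dist).isCompact
    rcases Set.eq_empty_or_nonempty {p : Circle × Circle | c0 ≤ dist p.1 p.2} with he | hne
    · refine ⟨1, one_pos, fun a b hab => ?_⟩
      have : (a, b) ∈ {p : Circle × Circle | c0 ≤ dist p.1 p.2} := hab
      rw [he] at this
      exact this.elim
    · have hcont : ContinuousOn (fun p : Circle × Circle => dist (f p.1) (f p.2))
          {p : Circle × Circle | c0 ≤ dist p.1 p.2} := by
        apply Continuous.continuousOn
        exact (hf.comp continuous_fst).dist (hf.comp continuous_snd)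
      obtain ⟨⟨a, b⟩, hab, hmin⟩ := hS.exists_isMinOn hne hcont
      refine ⟨dist (f a) (f b), ?_, fun x y hxy =>
        hmin (show (x, y) ∈ {p : Circle × Circle | c0 ≤ dist p.1 p.2} from hxy)⟩
      apply dist_pos.mpr
      intro h
      have hab2 := hinj h
      have h3 : c0 ≤ dist a b := hab
      rw [hab2, dist_self] at h3
      linarith
  obtain ⟨η, hη, hsep⟩ := hη
  obtain ⟨n1, hn1⟩ := hq.small η hη
  obtain ⟨P, hPm, hP⟩ := proj T m (max n1 m) (le_max_right _ _)
  obtain ⟨Q, hQm, hQ⟩ := proj T n1 (max n1 m) (le_max_left _ _)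
  obtain ⟨v0, _, _, hv0, _⟩ := hPm.edge (t i) (t i) ((T.G m).refl _)
  have hF : Continuous (fun s : ℝ => f (Circle.exp (2 * Real.pi * s))) := by
    apply hf.comp
    exact Circle.exp.continuous.comp (continuous_const.mul continuous_id)
  have per : ∀ s : ℝ, f (Circle.exp (2 * Real.pi * (s + 1))) = f (Circle.exp (2 * Real.pi * s)) := by
    intro s
    congr 1
    rw [mul_add, mul_one, Circle.exp_add, Circle.exp_two_pi, mul_one]
  have hav : ∀ (z : Thr T.p) (s : ℝ), q z = f (Circle.exp (2 * Real.pi * s)) →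
      ∀ h ∈ (T.G (max n1 m)).H, z.1 (max n1 m) ≠ h v0 := by
    intro z s hz h hh hzv
    apply hi z _ hz
    rw [← hP z, hzv]
    obtain ⟨k, hk, hk2⟩ := hPm.eq1 h hh
    rw [hk2, hv0, hinv i k hk]
    exact htc i
  obtain ⟨s, u, z, z', _, _, h3, h4, hz, hz', heq⟩ := same_vertex T q hq
    (fun s : ℝ => f (Circle.exp (2 * Real.pi * s))) hF per (max n1 m) v0 hav
  have e1 : z.1 n1 = z'.1 n1 := by rw [← hQ z, ← hQ z', heq]
  have e2 := hn1 z z' (by rw [e1]; exact (T.G n1).refl _)
  rw [hz, hz'] at e2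
  exact absurd e2 (not_lt.mpr (hsep _ _ (hgap s u h3 h4)))

end Pool.B595.Arc
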