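import Pool.Agent.B595.Arc.JTower
import Pool.Agent.B595.Arc.JLimit
import Pool.Agent.B595.Arc.JTripod
import Pool.Agent.B595.Arc.JProjkt
import Pool.Agent.B595.Arc.JJoined
import Pool.Agent.B595.Arc.JHomog
import Pool.Agent.B595.Arc.JInitp
import Pool.Agent.B595.Arc.JCirctri
import Pool.Agent.B595.Arc.JSmallc

set_option autoImplicit false

namespace Pool.B595.Arc

theorem exists_space : ∃ (X : Type) (_ : MetricSpace X) (_ : CompactSpace X) (_ : PathConnectedSpace X)
    (_ : Nontrivial X), (∀ x y : X, ∃ h : X ≃ₜ X, h x = y) ∧ IsEmpty (X ≃ₜ Circle) ∧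
      ∃ ε > 0, ∀ f : Circle → X, Continuous f → Function.Injective f →
      ¬ (Metric.diam (Set.range f) < ε) := by
  obtain ⟨T⟩ := tower_exists
  obtain ⟨X, mX, cX, q, hq⟩ := limit T.fin (fun n => (T.G n).adj) (fun n => (T.G n).refl)
    (fun n => (T.G n).symm) T.p T.con
  have surj : ∀ n, Function.Surjective (T.p n) := by
    intro n v
    obtain ⟨x, _, _, hx, _⟩ := (T.mor n).edge v v ((T.G n).refl v)
    exact ⟨x, hx⟩
  obtain ⟨m, o, A, t, c, hA, ht, hAc, hcc, hinv⟩ := tripod T
  obtain ⟨ε, hε, hnear⟩ := hq.near m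
  have key : ∀ z z' : Thr T.p, q z = q z' → (T.G m).adj (z.1 m) (z'.1 m) := by
    intro z z' h
    apply hnear
    rw [h, dist_self]
    exact hε
  have hpc : PathConnectedSpace X := by
    obtain ⟨x, _⟩ := exists_thread T.p surj m o
    refine ⟨⟨q x⟩, ?_⟩
    intro a b
    obtain ⟨a, rfl⟩ := hq.surj a
    obtain ⟨b, rfl⟩ := hq.surj b
    exact joined T q hq a b
  have hnt : Nontrivial X := by
    obtain ⟨x, hx⟩ := exists_thread T.p surj m (t 0)
    obtain ⟨y, hy⟩ := exists_thread T.p surj m (t 1)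
    refine ⟨⟨q x, q y, ?_⟩⟩
    intro h
    have := key x y h
    rw [hx, hy] at this
    exact hcc 0 1 (by decide) _ (ht 0) _ (ht 1) this
  refine ⟨X, mX, cX, hpc, hnt, ?_, ?_, small_circle T q hq⟩
  · intro x y
    obtain ⟨x, rfl⟩ := hq.surj x
    obtain ⟨y, rfl⟩ := hq.surj y
    exact homog T q hq x y
  · constructor
    intro φ
    obtain ⟨x, hx⟩ := exists_thread T.p surj m o
    have hp : ∀ i, ∃ (y : Thr T.p) (γ : Path (q x) (q y)), y.1 m = t i ∧
        ∀ s, ∃ z : Thr T.p, γ s = q z ∧ z.1 m ∈ A i := by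
      intro i
      apply init_path T q hq m x (t i) (A i)
      rw [hx]
      exact hA i
    choose y γ hy hγ using hp
    apply circle_no_triod (φ (q x)) (fun i => φ (q (y i))) (fun i => φ '' Set.range (γ i))
    · intro i
      exact ((isPreconnected_range (γ i).continuous).image _ φ.continuous.continuousOn)
    · intro i
      exact ⟨q x, ⟨0, (γ i).source⟩, rfl⟩
    · intro i
      exact ⟨q (y i), ⟨1, (γ i).target⟩, rfl⟩
    · rintro i j hij ⟨w, ⟨s, rfl⟩, hw⟩
      obtain ⟨z, hz, hzA⟩ := hγ i s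
      have h1 : q z = q (y j) := by
        rw [← hz]
        exact φ.injective hw
      have h2 := key z (y j) h1
      rw [hy j] at h2
      exact hAc i j hij _ hzA _ (ht j) h2


end Pool.B595.Arc
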