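import Pool.Agent.B595.Arc.Defs
import Pool.Agent.B595.Arc.JPullback
import Pool.Agent.B595.Arc.JComp
import Pool.Agent.B595.Arc.JOfconn

set_option autoImplicit false


namespace Pool.B595.Arc

open Relation

/-! The following statements are already proved elsewhere: use them freely, do not prove them. -/




/-! TARGET: prove this (auxiliary lemmas allowed before it) -/

instance finite_Obj (j : ℕ) : Finite (Obj (Fin j)) := by
  have hf : Function.Injective (fun B : Obj (Fin j) =>
      ((B.adj, B.H) : (Fin j → Fin j → Prop) × Subgroup (Equiv.Perm (Fin j)))) := by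
    intro A B h
    cases A
    cases B
    simp only [Prod.mk.injEq] at h
    obtain ⟨h1, h2⟩ := h
    subst h1
    subst h2
    rfl
  haveI : Finite (Subgroup (Equiv.Perm (Fin j))) :=
    Finite.of_injective (fun H : Subgroup (Equiv.Perm (Fin j)) => (H : Set (Equiv.Perm (Fin j))))
      SetLike.coe_injective
  exact Finite.of_injective _ hf

theorem dom_list {V : Type} [Finite V] [Nonempty V] (G : Obj V) (k : ℕ)
    (L : List (Σ j : Fin (k + 1), Obj (Fin j) × (Fin j → V))) :
    ∃ (W : Type) (_ : Finite W) (_ : Nonempty W) (K : Obj W) (d : W → V), Mor K G d ∧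
      ∀ t ∈ L, Mor t.2.1 G t.2.2 →
        ∃ g : W → Fin t.1, Mor K t.2.1 g ∧ ∀ x, t.2.2 (g x) = d x := by
  induction L with
  | nil =>
    refine ⟨V, inferInstance, inferInstance, G, id, ?_, ?_⟩
    · refine Mor.of_conn id (fun x y h => h) (fun x y h => ⟨x, y, h, rfl, rfl⟩)
        (fun h hh => ⟨h, hh, fun x => rfl⟩) (fun h hh => ⟨h, hh, fun x => rfl⟩) ?_
      intro x y hxy
      have : x = y := hxy
      rw [this]
      exact ReflTransGen.refl
    · intro t ht
      simp at ht
  | cons t L ih =>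
    obtain ⟨W, hW, hne, K, d, hd, hL⟩ := ih
    by_cases hm : Mor t.2.1 G t.2.2
    · obtain ⟨D, hD1, hD2⟩ := pullback hd hm
      refine ⟨{e : W × Fin t.1 // d e.1 = t.2.2 e.2}, inferInstance, ?_, D,
        d ∘ (fun e => e.1.1), Mor.comp hd hD1, ?_⟩
      · obtain ⟨w⟩ := hne
        obtain ⟨x', y', _, hx', _⟩ := hm.edge (d w) (d w) (G.refl _)
        exact ⟨⟨(w, x'), hx'.symm⟩⟩
      · intro t' ht' hm'
        rcases List.mem_cons.mp ht' with h | h
        · subst h
          exact ⟨fun e => e.1.2, hD2, fun x => x.2.symm⟩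
        · obtain ⟨g, hg, hgd⟩ := hL t' h hm'
          exact ⟨g ∘ (fun e => e.1.1), Mor.comp hg hD1, fun x => hgd _⟩
    · refine ⟨W, hW, hne, K, d, hd, ?_⟩
      intro t' ht' hm'
      rcases List.mem_cons.mp ht' with h | h
      · subst h
        exact absurd hm' hm
      · exact hL t' h hm'

theorem dom {V : Type} [Finite V] [Nonempty V] (G : Obj V) (k : ℕ) :
    ∃ (W : Type) (_ : Finite W) (_ : Nonempty W) (K : Obj W) (d : W → V), Mor K G d ∧
      ∀ j ≤ k, ∀ (B : Obj (Fin j)) (f : Fin j → V), Mor B G f →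
        ∃ g : W → Fin j, Mor K B g ∧ ∀ x, f (g x) = d x := by
  classical
  haveI : Fintype (Σ j : Fin (k + 1), Obj (Fin j) × (Fin j → V)) := Fintype.ofFinite _
  obtain ⟨W, hW, hne, K, d, hd, hL⟩ := dom_list G k
    (Finset.univ : Finset (Σ j : Fin (k + 1), Obj (Fin j) × (Fin j → V))).toList
  refine ⟨W, hW, hne, K, d, hd, ?_⟩
  intro j hj B f hf
  exact hL ⟨⟨j, Nat.lt_succ_of_le hj⟩, (B, f)⟩ (by simp) hf

end Pool.B595.Arc
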