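import Pool.Agent.B595.Arc.Defs
import Pool.Agent.B595.Arc.JOfconn

set_option autoImplicit false


namespace Pool.B595.Arc

open Relation

/-! The following statements are already proved elsewhere: use them freely, do not prove them. -/


/-! TARGET: prove this (auxiliary lemmas allowed before it) -/

/-- adjacency of the subdivision -/
def subAdj {V : Type} (G : Obj V) (p q : {p : V × V // G.adj p.1 p.2}) : Prop :=
  (p.1.1 = q.1.1 ∧ (p.1.2 = p.1.1 ∨ q.1.2 = q.1.1 ∨ p.1.2 = q.1.2)) ∨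
    (q.1.1 = p.1.2 ∧ q.1.2 = p.1.1)

/-- group of the subdivision -/
def subH {V : Type} (G : Obj V) : Subgroup (Equiv.Perm {p : V × V // G.adj p.1 p.2}) where
  carrier := {π | ∃ h ∈ G.H, ∀ p, (π p).1 = (h p.1.1, h p.1.2)}
  mul_mem' := by
    rintro a b ⟨g, hg, ha⟩ ⟨h, hh, hb⟩
    refine ⟨g * h, G.H.mul_mem hg hh, fun p => ?_⟩
    rw [Equiv.Perm.mul_apply, ha, hb]
    rfl
  one_mem' := ⟨1, G.H.one_mem, fun p => rfl⟩
  inv_mem' := by
    rintro a ⟨g, hg, ha⟩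
    refine ⟨g⁻¹, G.H.inv_mem hg, fun p => ?_⟩
    have h1 := ha (a⁻¹ p)
    have h2 : a (a⁻¹ p) = p := a.apply_symm_apply p
    rw [h2] at h1
    rw [h1]
    have h3 : ∀ x, g⁻¹ (g x) = x := fun x => g.symm_apply_apply x
    simp only [h3]

theorem subAdj_symm {V : Type} (G : Obj V) {p q : {p : V × V // G.adj p.1 p.2}}
    (h : subAdj G p q) : subAdj G q p := by
  rcases h with ⟨h1, h2 | h2 | h2⟩ | ⟨h1, h2⟩
  · exact Or.inl ⟨h1.symm, Or.inr (Or.inl h2)⟩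
  · exact Or.inl ⟨h1.symm, Or.inl h2⟩
  · exact Or.inl ⟨h1.symm, Or.inr (Or.inr h2.symm)⟩
  · exact Or.inr ⟨h2.symm, h1.symm⟩

theorem subAdj_hom {V : Type} (G : Obj V) {p q : {p : V × V // G.adj p.1 p.2}}
    (h : subAdj G p q) : G.adj p.1.1 q.1.1 := by
  rcases h with ⟨h1, -⟩ | ⟨h1, -⟩
  · rw [h1]; exact G.refl _
  · rw [h1]; exact p.2

theorem subAdj_cen {V : Type} (G : Obj V) (p : {p : V × V // G.adj p.1 p.2}) :
    subAdj G p ⟨(p.1.1, p.1.1), G.refl _⟩ := Or.inl ⟨rfl, Or.inr (Or.inl rfl)⟩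

theorem sub_conn {V : Type} (G : Obj V) {x y : V} (h : ReflTransGen G.adj x y) :
    ReflTransGen (subAdj G) ⟨(x, x), G.refl _⟩ ⟨(y, y), G.refl _⟩ := by
  induction h with
  | refl => exact ReflTransGen.refl
  | @tail b c _ hbc ih =>
    refine ih.trans ?_
    refine ReflTransGen.head (b := ⟨(b, c), hbc⟩) (Or.inl ⟨rfl, Or.inl rfl⟩) ?_
    refine ReflTransGen.head (b := ⟨(c, b), G.symm _ _ hbc⟩) (Or.inr ⟨rfl, rfl⟩) ?_
    exact ReflTransGen.single (Or.inl ⟨rfl, Or.inr (Or.inl rfl)⟩)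

/-- the subdivision -/
def subK {V : Type} (G : Obj V) : Obj {p : V × V // G.adj p.1 p.2} where
  adj := subAdj G
  refl := fun p => Or.inl ⟨rfl, Or.inr (Or.inr rfl)⟩
  symm := fun p q h => subAdj_symm G h
  H := subH G
  hadj := by
    rintro a ⟨g, -, ha⟩ p q h
    unfold subAdj at h ⊢
    rw [ha, ha]
    rcases h with ⟨h1, h2 | h2 | h2⟩ | ⟨h1, h2⟩
    · exact Or.inl ⟨congrArg g h1, Or.inl (congrArg g h2)⟩
    · exact Or.inl ⟨congrArg g h1, Or.inr (Or.inl (congrArg g h2))⟩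
    · exact Or.inl ⟨congrArg g h1, Or.inr (Or.inr (congrArg g h2))⟩
    · exact Or.inr ⟨congrArg g h1, congrArg g h2⟩
  free := by
    rintro a ⟨g, hg, ha⟩ p h
    have h1 := subAdj_hom G h
    rw [ha] at h1
    have h2 := G.free g hg _ h1
    refine Equiv.ext fun q => Subtype.ext ?_
    rw [ha, h2]
    rfl
  conn := by
    intro p q
    refine ReflTransGen.head (subAdj_cen G p) ?_
    exact (sub_conn G (G.conn p.1.1 q.1.1)).tail (subAdj_symm G (subAdj_cen G q))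

theorem sub {V : Type} (G : Obj V) : ∃ K : Obj {p : V × V // G.adj p.1 p.2},
    Mor K G (fun p => p.1.1) ∧
    (∀ a b c, K.adj a b → K.adj b c → G.adj a.1.1 c.1.1) ∧
    (∀ a b c, K.adj a b → K.adj b c → K.adj a c → a = b ∨ b = c ∨ a = c) := by
  refine ⟨subK G, Mor.of_conn _ (fun p q h => subAdj_hom G h) ?_ ?_ ?_ ?_, ?_, ?_⟩
  · intro x y h
    exact ⟨⟨(x, y), h⟩, ⟨(y, x), G.symm _ _ h⟩, Or.inr ⟨rfl, rfl⟩, rfl, rfl⟩
  · rintro a ⟨g, hg, ha⟩
    exact ⟨g, hg, fun p => by rw [ha]⟩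
  · intro g hg
    have hinv : ∀ x y, G.adj x y → G.adj (g⁻¹ x) (g⁻¹ y) := G.hadj g⁻¹ (G.H.inv_mem hg)
    have e1 : ∀ x, g⁻¹ (g x) = x := fun x => g.symm_apply_apply x
    have e2 : ∀ x, g (g⁻¹ x) = x := fun x => g.apply_symm_apply x
    let a : Equiv.Perm {p : V × V // G.adj p.1 p.2} :=
      { toFun := fun p => ⟨(g p.1.1, g p.1.2), G.hadj g hg _ _ p.2⟩
        invFun := fun p => ⟨(g⁻¹ p.1.1, g⁻¹ p.1.2), hinv _ _ p.2⟩
        left_inv := fun p => Subtype.ext (by simp only [e1])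
        right_inv := fun p => Subtype.ext (by simp only [e2]) }
    exact ⟨a, ⟨g, hg, fun p => rfl⟩, fun p => rfl⟩
  · intro p q hpq
    have k1 : (subK G).adj p ⟨(p.1.1, p.1.1), G.refl _⟩ := subAdj_cen G p
    have k2 : (subK G).adj ⟨(p.1.1, p.1.1), G.refl _⟩ q := Or.inl ⟨hpq, Or.inl rfl⟩
    have k0 : q.1.1 = p.1.1 := hpq.symm
    refine ReflTransGen.head (b := ⟨(p.1.1, p.1.1), G.refl _⟩) ⟨rfl, rfl, k1⟩ ?_
    exact ReflTransGen.single ⟨rfl, k0, k2⟩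
  · intro a b c hab hbc
    rcases hab with ⟨h1, h2⟩ | ⟨h1, h2⟩
    · rw [h1]
      exact subAdj_hom G hbc
    · rcases hbc with ⟨h3, h4⟩ | ⟨h3, h4⟩
      · rw [← h3, h1]; exact a.2
      · rw [h3, h2]; exact G.refl _
  · rintro ⟨⟨a1, a2⟩, ha⟩ ⟨⟨b1, b2⟩, hb⟩ ⟨⟨c1, c2⟩, hc⟩ hab hbc hac
    simp only [subK, subAdj] at hab hbc hac
    simp only [Subtype.mk.injEq, Prod.mk.injEq]
    clear ha hb hc
    grind

end Pool.B595.Arc
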