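import Pool.Agent.B595.Arc.Defs2
import Pool.Agent.B595.Arc.JComp
import Pool.Agent.B595.Arc.JOfconn
import Pool.Agent.B595.Arc.JAuttr
import Pool.Agent.B595.Arc.JPullback
import Pool.Agent.B595.Arc.JSub
import Pool.Agent.B595.Arc.JDom

set_option autoImplicit false


namespace Pool.B595.Arc

open Relation


/-! The following statements are already proved elsewhere: use them freely, do not prove them. -/







/-! TARGET: prove this (auxiliary lemmas allowed before it) -/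

theorem mor_id_aux {V : Type} [Finite V] (G : Obj V) : Mor G G (fun x => x) := by
  obtain ⟨K, h1, h2, -⟩ := transport G (Equiv.refl V)
  exact Mor.comp h2 h1

theorem step_aux (c : ℕ) (hc : 0 < c) (Γ : Obj (Fin c)) (k : ℕ) :
    ∃ c', 0 < c' ∧ ∃ (Γ' : Obj (Fin c')) (p : Fin c' → Fin c), Mor Γ' Γ p ∧
      (∀ x y z, Γ'.adj x y → Γ'.adj y z → Γ.adj (p x) (p z)) ∧
      (∀ x y z, Γ'.adj x y → Γ'.adj y z → Γ'.adj x z → x = y ∨ y = z ∨ x = z) ∧
      ∀ j ≤ k, ∀ (B : Obj (Fin j)) (f : Fin j → Fin c), Mor B Γ f →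
        ∃ g : Fin c' → Fin j, Mor Γ' B g ∧ ∀ x, f (g x) = p x := by
  have : Nonempty (Fin c) := ⟨⟨0, hc⟩⟩
  obtain ⟨W, hWf, hWne, K, d, hd, hdom⟩ := dom Γ k
  obtain ⟨K2, hK2, hcon, htri⟩ := sub K
  have hne : Nonempty {p : W × W // K.adj p.1 p.2} := by
    obtain ⟨w⟩ := hWne
    exact ⟨⟨(w, w), K.refl w⟩⟩
  have e : {p : W × W // K.adj p.1 p.2} ≃ Fin (Nat.card {p : W × W // K.adj p.1 p.2}) :=
    Finite.equivFin _
  obtain ⟨K3, h1, h2, hadj⟩ := transport K2 e
  have hm0 : Mor K3 K ((fun t : {p : W × W // K.adj p.1 p.2} => t.1.1) ∘ e.symm) :=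
    Mor.comp hK2 h2
  have hm : Mor K3 K (fun x => (e.symm x).1.1) := hm0
  refine ⟨Nat.card {p : W × W // K.adj p.1 p.2}, Nat.card_pos, K3,
    fun x => d (e.symm x).1.1, Mor.comp hd hm, ?_, ?_, ?_⟩
  · intro x y z hxy hyz
    apply hd.hom
    exact hcon _ _ _ ((hadj x y).mp hxy) ((hadj y z).mp hyz)
  · intro x y z hxy hyz hxz
    rcases htri _ _ _ ((hadj x y).mp hxy) ((hadj y z).mp hyz) ((hadj x z).mp hxz) with h | h | h
    · exact Or.inl (e.symm.injective h)
    · exact Or.inr (Or.inl (e.symm.injective h))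
    · exact Or.inr (Or.inr (e.symm.injective h))
  · intro j hj B f hf
    obtain ⟨g, hg, hgf⟩ := hdom j hj B f hf
    exact ⟨fun x => g (e.symm x).1.1, Mor.comp hg hm, fun x => hgf _⟩

/-- the one point object -/
def one_aux : Obj (Fin 1) where
  adj := fun _ _ => True
  refl := fun _ => trivial
  symm := fun _ _ _ => trivial
  H := ⊥
  hadj := fun _ _ _ _ _ => trivial
  free := fun h hh _ _ => Subgroup.mem_bot.mp hh
  conn := fun _ _ => ReflTransGen.single trivial

theorem tower_exists : Nonempty Tower := by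
  have step' : ∀ (n : ℕ) (s : {s : Σ c : ℕ, Obj (Fin c) // 0 < s.1}),
      ∃ (t : {s : Σ c : ℕ, Obj (Fin c) // 0 < s.1}) (p : Fin t.1.1 → Fin s.1.1),
      Mor t.1.2 s.1.2 p ∧
      (∀ x y z, t.1.2.adj x y → t.1.2.adj y z → s.1.2.adj (p x) (p z)) ∧
      (∀ x y z, t.1.2.adj x y → t.1.2.adj y z → t.1.2.adj x z → x = y ∨ y = z ∨ x = z) ∧
      ∀ j ≤ n * s.1.1, ∀ (B : Obj (Fin j)) (f : Fin j → Fin s.1.1), Mor B s.1.2 f →
        ∃ g : Fin t.1.1 → Fin j, Mor t.1.2 B g ∧ ∀ x, f (g x) = p x := by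
    intro n s
    obtain ⟨c', hc', Γ', p, h⟩ := step_aux s.1.1 s.2 s.1.2 (n * s.1.1)
    exact ⟨⟨⟨c', Γ'⟩, hc'⟩, p, h⟩
  choose nx p hp using step'
  let st : ℕ → {s : Σ c : ℕ, Obj (Fin c) // 0 < s.1} :=
    fun n => Nat.rec ⟨⟨1, one_aux⟩, one_pos⟩ (fun n s => nx n s) n
  let V : ℕ → Type := fun n => Fin (st n).1.1
  let G : ∀ n, Obj (V n) := fun n => (st n).1.2
  let q : ∀ n, V (n + 1) → V n := fun n => p n (st n)
  have hfin : ∀ n, Finite (V n) := fun n => Finite.of_fintype (Fin (st n).1.1)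
  have hne : ∀ n, Nonempty (V n) := fun n => ⟨(⟨0, (st n).2⟩ : Fin (st n).1.1)⟩
  have hmor : ∀ n, Mor (G (n + 1)) (G n) (q n) := fun n => (hp n (st n)).1
  have hcon : ∀ n x y z, (G (n + 1)).adj x y → (G (n + 1)).adj y z → (G n).adj (q n x) (q n z) :=
    fun n => (hp n (st n)).2.1
  have htri : ∀ n x y z, (G (n + 1)).adj x y → (G (n + 1)).adj y z → (G (n + 1)).adj x z →
      x = y ∨ y = z ∨ x = z := fun n => (hp n (st n)).2.2.1
  have hdom : ∀ n, ∀ j ≤ n * Nat.card (V n), ∀ (B : Obj (Fin j)) (f : Fin j → V n), Mor B (G n) f →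
        ∃ g : V (n + 1) → Fin j, Mor (G (n + 1)) B g ∧ ∀ x, f (g x) = q n x := by
    intro n j hj
    have h1 : Nat.card (V n) = (st n).1.1 := by
      show Nat.card (Fin (st n).1.1) = _
      rw [Nat.card_eq_fintype_card, Fintype.card_fin]
    rw [h1] at hj
    exact (hp n (st n)).2.2.2 j hj
  have hzero : Subsingleton (V 0) := by
    show Subsingleton (Fin 1)
    infer_instance
  clear_value q G
  have hP : ∀ n d, ∃ P : V (n + d) → V n, Mor (G (n + d)) (G n) P ∧
      ∀ x : Thr q, P (x.1 (n + d)) = x.1 n := by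
    intro n d
    induction d with
    | zero =>
      have := hfin n
      exact ⟨fun x => x, mor_id_aux (G n), fun x => rfl⟩
    | succ d ih =>
      obtain ⟨P, hP1, hP2⟩ := ih
      have := hfin (n + d)
      refine ⟨P ∘ q (n + d), Mor.comp hP1 (hmor (n + d)), ?_⟩
      intro x
      show P (q (n + d) (x.1 (n + d + 1))) = x.1 n
      rw [x.2 (n + d), hP2 x]
  refine ⟨{ V := V, fin := hfin, ne := hne, G := G, p := q, mor := hmor, con := hcon,
            tri := ?_, zero := hzero, ext := ?_ }⟩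
  · intro n
    cases n with
    | zero => exact fun x y z _ _ _ => Or.inl (hzero.elim x y)
    | succ n => exact htri n
  · intro n N W hW K f hf
    have hex : ∃ M, Nat.card W + N ≤ M ∧ n ≤ M ∧ ∃ P : V M → V n, Mor (G M) (G n) P ∧
        ∀ x : Thr q, P (x.1 M) = x.1 n := ⟨n + (Nat.card W + N), by omega, by omega, hP n _⟩
    obtain ⟨M, hM1, hM2, P, hP1, hP2⟩ := hex
    have hVf := hfin M
    obtain ⟨D, hD1, hD2⟩ := pullback hP1 hf
    have hj : Nat.card {d : V M × W // P d.1 = f d.2} ≤ M * Nat.card (V M) := by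
      have h1 : Nat.card {d : V M × W // P d.1 = f d.2} ≤ Nat.card (V M × W) :=
        Nat.card_le_card_of_injective Subtype.val Subtype.val_injective
      rw [Nat.card_prod] at h1
      refine h1.trans ?_
      rw [mul_comm]
      exact Nat.mul_le_mul_right _ (by omega)
    have e : {d : V M × W // P d.1 = f d.2} ≃ Fin (Nat.card {d : V M × W // P d.1 = f d.2}) :=
      Finite.equivFin _
    obtain ⟨B, hB1, hB2, -⟩ := transport D e
    have hc1 : Mor B (G M) ((fun t : {d : V M × W // P d.1 = f d.2} => t.1.1) ∘ e.symm) :=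
      Mor.comp hD1 hB2
    have hc2 : Mor B K ((fun t : {d : V M × W // P d.1 = f d.2} => t.1.2) ∘ e.symm) :=
      Mor.comp hD2 hB2
    obtain ⟨g', hg', hgq⟩ := hdom M _ hj B _ hc1
    refine ⟨M + 1, by omega, by omega, ((fun t : {d : V M × W // P d.1 = f d.2} => t.1.2) ∘ e.symm) ∘ g',
      Mor.comp hc2 hg', ?_⟩
    intro x
    have h2 : P (e.symm (g' (x.1 (M + 1)))).1.1 = f (e.symm (g' (x.1 (M + 1)))).1.2 :=
      (e.symm (g' (x.1 (M + 1)))).2
    have h3 : (e.symm (g' (x.1 (M + 1)))).1.1 = q M (x.1 (M + 1)) := hgq (x.1 (M + 1))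
    show f (e.symm (g' (x.1 (M + 1)))).1.2 = x.1 n
    rw [← h2, h3, x.2 M]
    exact hP2 x

end Pool.B595.Arc
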